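import Pool.Agent.ThV.Three

/-! # `PSU_3(3)` -/

set_option linter.unusedSectionVars false

namespace ThU
open Matrix Polynomial Module

variable {K : Type*} [Field K] [StarRing K]

/-- 3 x 3 matrices on the index set `Jx 1` (order `W`, `W'`, middle vector) -/
def m3 (a b β c d r p q s : K) : Matrix (Jx 1) (Jx 1) K :=
  Matrix.of fun i j => Sum.elim (Sum.elim (fun _ => Sum.elim (Sum.elim (fun _ => a) (fun _ => b)) (fun _ => β) j)
    (fun _ => Sum.elim (Sum.elim (fun _ => c) (fun _ => d)) (fun _ => r) j))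
    (fun _ => Sum.elim (Sum.elim (fun _ => p) (fun _ => q)) (fun _ => s) j) i

theorem m3_mul (a b β c d r p q s a' b' β' c' d' r' p' q' s' : K) :
    m3 a b β c d r p q s * m3 a' b' β' c' d' r' p' q' s' =
      m3 (a * a' + b * c' + β * p') (a * b' + b * d' + β * q') (a * β' + b * r' + β * s')
        (c * a' + d * c' + r * p') (c * b' + d * d' + r * q') (c * β' + d * r' + r * s')
        (p * a' + q * c' + s * p') (p * b' + q * d' + s * q') (p * β' + q * r' + s * s') := by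
  ext i j
  rw [Matrix.mul_apply, Fintype.sum_sum_type, Fintype.sum_sum_type]
  rcases i with (i | i) | i <;> rcases j with (j | j) | j <;> simp [m3]

theorem m3_ct (a b β c d r p q s : K) : (m3 a b β c d r p q s)ᴴ =
    m3 (star a) (star c) (star p) (star b) (star d) (star q) (star β) (star r) (star s) := by
  ext i j
  rw [Matrix.conjTranspose_apply]
  rcases i with (i | i) | i <;> rcases j with (j | j) | j <;> rfl

theorem m3_ex (M : Matrix (Jx 1) (Jx 1) K) :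
    M = m3 (M (Sum.inl (Sum.inl 0)) (Sum.inl (Sum.inl 0))) (M (Sum.inl (Sum.inl 0)) (Sum.inl (Sum.inr 0)))
      (M (Sum.inl (Sum.inl 0)) (Sum.inr ())) (M (Sum.inl (Sum.inr 0)) (Sum.inl (Sum.inl 0)))
      (M (Sum.inl (Sum.inr 0)) (Sum.inl (Sum.inr 0))) (M (Sum.inl (Sum.inr 0)) (Sum.inr ()))
      (M (Sum.inr ()) (Sum.inl (Sum.inl 0))) (M (Sum.inr ()) (Sum.inl (Sum.inr 0)))
      (M (Sum.inr ()) (Sum.inr ())) := by
  ext i j
  rcases i with (i | i) | i <;> rcases j with (j | j) | j <;>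
    (try rw [Subsingleton.elim i 0]) <;> (try rw [Subsingleton.elim j 0]) <;> rfl

theorem m3_inj {a b β c d r p q s a' b' β' c' d' r' p' q' s' : K}
    (h : m3 a b β c d r p q s = m3 a' b' β' c' d' r' p' q' s') :
    (a = a' ∧ b = b' ∧ β = β') ∧ (c = c' ∧ d = d' ∧ r = r') ∧ p = p' ∧ q = q' ∧ s = s' := by
  have e := fun i j => congrFun (congrFun h i) j
  exact ⟨⟨e (Sum.inl (Sum.inl 0)) (Sum.inl (Sum.inl 0)), e (Sum.inl (Sum.inl 0)) (Sum.inl (Sum.inr 0)),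
    e (Sum.inl (Sum.inl 0)) (Sum.inr ())⟩, ⟨e (Sum.inl (Sum.inr 0)) (Sum.inl (Sum.inl 0)),
    e (Sum.inl (Sum.inr 0)) (Sum.inl (Sum.inr 0)), e (Sum.inl (Sum.inr 0)) (Sum.inr ())⟩,
    e (Sum.inr ()) (Sum.inl (Sum.inl 0)), e (Sum.inr ()) (Sum.inl (Sum.inr 0)), e (Sum.inr ()) (Sum.inr ())⟩

theorem m3_JO : JO K 1 = m3 0 1 0 1 0 0 0 0 1 := by
  unfold JO JJ
  ext i j
  rcases i with (i | i) | i <;> rcases j with (j | j) | j <;> simp [m3, Matrix.one_apply] <;>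
    exact Subsingleton.elim _ _

theorem m3_one : (1 : Matrix (Jx 1) (Jx 1) K) = m3 1 0 0 0 1 0 0 0 1 := by
  ext i j
  rcases i with (i | i) | i <;> rcases j with (j | j) | j <;> simp [m3, Matrix.one_apply] <;>
    exact Subsingleton.elim _ _

/-- the index set has three elements -/
def eJx : Jx 1 ≃ Fin 3 where
  toFun := Sum.elim (Sum.elim (fun _ => 0) (fun _ => 1)) (fun _ => 2)
  invFun := ![Sum.inl (Sum.inl 0), Sum.inl (Sum.inr 0), Sum.inr ()]
  left_inv := by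
    rintro ((i | i) | i)
    · have hi : i = 0 := Subsingleton.elim _ _
      subst hi
      rfl
    · have hi : i = 0 := Subsingleton.elim _ _
      subst hi
      rfl
    · rfl
  right_inv := by
    intro i
    fin_cases i <;> rfl

theorem m3_det (a b β c d r p q s : K) : (m3 a b β c d r p q s).det =
    a * d * s - a * r * q - b * c * s + b * r * p + β * c * q - β * d * p := by
  rw [← Matrix.det_submatrix_equiv_self eJx.symm, Matrix.det_fin_three]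
  rfl

/-! ### unipotent elements -/

/-- upper unitriangular isometries -/
def ux (s ρ : K) : Matrix (Jx 1) (Jx 1) K := m3 1 s ρ 0 1 0 0 (-star ρ) 1

theorem JU_m3 {a b β c d r p q s : K} (h : (m3 a b β c d r p q s)ᴴ * JO K 1 * m3 a b β c d r p q s = JO K 1) :
    OGrpB_JU (m3 a b β c d r p q s) := by
  refine ⟨h, ?_⟩
  have h1 := congrArg Matrix.det h
  rw [det_mul] at h1
  have h2 : IsUnit (((m3 a b β c d r p q s)ᴴ * JO K 1).det * (m3 a b β c d r p q s).det) := by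
    rw [h1]
    exact OGrpB_JO_unit
  exact isUnit_of_mul_isUnit_right h2

theorem ux_JU {s ρ : K} (h : s + star s = -(ρ * star ρ)) : OGrpB_JU (ux s ρ) := by
  apply JU_m3
  rw [m3_ct, m3_JO, m3_mul, m3_mul]
  simp only [star_one, star_zero, star_neg, star_star, mul_zero, mul_one, zero_mul, one_mul, add_zero, zero_add]
  congr 1
  · linear_combination h
  · ring
  · ring

theorem ux_mul (s ρ s' ρ' : K) : ux s ρ * ux s' ρ' = ux (s + s' - ρ * star ρ') (ρ + ρ') := by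
  unfold ux
  rw [m3_mul, star_add]
  simp only [mul_zero, mul_one, zero_mul, one_mul, add_zero, zero_add]
  congr 1
  · ring
  · ring
  · ring

/-- diagonal isometries -/
theorem dl_JU {l : K} (hl : l ≠ 0) : OGrpB_JU (m3 l 0 0 0 (star l)⁻¹ 0 0 0 1 : Matrix (Jx 1) (Jx 1) K) := by
  have hl' : star l ≠ 0 := star_ne_zero.2 hl
  apply JU_m3
  rw [m3_ct, m3_JO, m3_mul, m3_mul]
  simp only [star_one, star_zero, star_neg, star_star, star_inv₀, mul_zero, mul_one, zero_mul, one_mul, add_zero, zero_add]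
  congr 1
  · field_simp
  · field_simp

variable (h3 : (3 : K) = 0)
include h3

/-- all `ux s ρ`, `ρ ≠ 0`, are conjugate to `ux 1 1` -/
theorem up_conj [Finite K] (hK : ∃ x : K, star x ≠ x) {s ρ : K} (h : s + star s = -(ρ * star ρ)) (hρ : ρ ≠ 0) :
    ∃ v : Matrix (Jx 1) (Jx 1) K, OGrpB_JU v ∧ ux s ρ * v = v * ux 1 1 := by
  have hρ' : star ρ ≠ 0 := star_ne_zero.2 hρ
  obtain ⟨s', hs'⟩ : ∃ s', s' = s * (ρ * star ρ)⁻¹ := ⟨_, rfl⟩
  have hss : s' + star s' = -1 := by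
    rw [hs', star_mul', star_inv₀, star_mul', star_star, mul_comm (star ρ) ρ, ← add_mul, h]
    field_simp
  obtain ⟨t, ht⟩ := fld_trace hK (-((s' - 1) * star (s' - 1))) (by
    rw [star_neg, star_mul', star_star, mul_comm])
  refine ⟨m3 ρ 0 0 0 (star ρ)⁻¹ 0 0 0 1 * ux t (s' - 1), OGrpB_JU_mul (dl_JU hρ) (ux_JU ht), ?_⟩
  have e1 : ux s ρ * m3 ρ 0 0 0 (star ρ)⁻¹ 0 0 0 1 = m3 ρ 0 0 0 (star ρ)⁻¹ 0 0 0 1 * ux s' 1 := by
    unfold ux
    rw [m3_mul, m3_mul]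
    simp only [star_one, mul_zero, mul_one, zero_mul, one_mul, add_zero, zero_add]
    congr 1
    · rw [hs']
      field_simp
    · field_simp
  have e2 : ux s' 1 * ux t (s' - 1) = ux t (s' - 1) * ux 1 1 := by
    rw [ux_mul, ux_mul, star_one, star_sub, star_one]
    congr 1
    · linear_combination (-1) * hss + s' * h3
    · ring
  rw [← Matrix.mul_assoc, e1, Matrix.mul_assoc, e2, Matrix.mul_assoc]

/-- the same for the lower ones -/
theorem low_conj [Finite K] (hK : ∃ x : K, star x ≠ x) {s ρ : K} (h : s + star s = -(ρ * star ρ)) (hρ : ρ ≠ 0) :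
    ∃ v : Matrix (Jx 1) (Jx 1) K, OGrpB_JU v ∧ m3 1 0 0 s 1 ρ (-star ρ) 0 1 * v = v * ux 1 1 := by
  obtain ⟨v, hv, e⟩ := up_conj h3 hK h hρ
  have hJ : OGrpB_JU (JO K 1) := by
    rw [m3_JO]
    apply JU_m3
    rw [m3_ct, m3_JO, m3_mul, m3_mul]
    simp
  refine ⟨JO K 1 * v, OGrpB_JU_mul hJ hv, ?_⟩
  have e1 : m3 1 0 0 s 1 ρ (-star ρ) 0 1 * JO K 1 = JO K 1 * ux s ρ := by
    unfold ux
    rw [m3_JO, m3_mul, m3_mul]
    simp
  rw [← Matrix.mul_assoc, e1, Matrix.mul_assoc, e, ← Matrix.mul_assoc]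

omit h3 in
/-- the element of the class and the determinant -/
theorem nine_step {P0 P v L : Matrix (Jx 1) (Jx 1) K} (h4 : ∀ m : K, m * star m = 1 → m ^ 4 = 1)
    (hP0 : P0ᴴ * P0 = JO K 1) (hP : Pᴴ * P = JO K 1) (hv : OGrpB_JU v)
    (hL : L * v = v * ux 1 1) : ∃ s : Matrix (Jx 1) (Jx 1) K, sᴴ * s = 1 ∧ s.det = 1 ∧
      s * (P0 * ux 1 1 * P0⁻¹) * s⁻¹ = P * L * P⁻¹ := by
  have hP0u := OGrpB_P_unit hP0
  have hPu := OGrpB_P_unit hP
  obtain ⟨T, hT⟩ : ∃ T, T = P * v * P0⁻¹ := ⟨_, rfl⟩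
  have hTu : Tᴴ * T = 1 := by rw [hT]; exact OGrpB_unitary hP hP0 hv
  have hd : star T.det * T.det = 1 := by
    have h1 := congrArg Matrix.det hTu
    rwa [det_mul, det_conjTranspose, det_one] at h1
  have hd' : T.det * star T.det = 1 := by rw [mul_comm]; exact hd
  have hd0 : T.det ≠ 0 := fun h => by rw [h] at hd; simp at hd
  have hTI : T * (P0 * ux 1 1 * P0⁻¹) * T⁻¹ = P * L * P⁻¹ := by
    rw [GrpB_solve hv.2 hL, hT, Matrix.mul_inv_rev, Matrix.mul_inv_rev, nonsing_inv_nonsing_inv _ hP0u]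
    calc P * v * P0⁻¹ * (P0 * ux 1 1 * P0⁻¹) * (P0 * (v⁻¹ * P⁻¹)) =
          P * v * (P0⁻¹ * P0) * ux 1 1 * (P0⁻¹ * P0) * v⁻¹ * P⁻¹ := by noncomm_ring
      _ = P * (v * ux 1 1 * v⁻¹) * P⁻¹ := by
          rw [nonsing_inv_mul _ hP0u]
          noncomm_ring
  have hinv : (T.det • T)⁻¹ = T.det⁻¹ • T⁻¹ := by
    apply Matrix.inv_eq_left_inv
    rw [smul_mul_smul_comm, inv_mul_cancel₀ hd0, one_smul, nonsing_inv_mul _ (isUnit_iff_ne_zero.2 hd0)]
  refine ⟨T.det • T, ?_, ?_, ?_⟩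
  · rw [conjTranspose_smul, smul_mul_smul_comm, hd, hTu, one_smul]
  · have hcard : Fintype.card (Jx 1) = 3 := by simp
    rw [det_smul, hcard]
    have := h4 _ hd'
    linear_combination this
  · rw [hinv, ← hTI]
    simp only [Matrix.smul_mul, Matrix.mul_smul, smul_smul]
    rw [inv_mul_cancel₀ hd0, one_smul]

/-- the product of a lower and an upper element -/
theorem nine_big [Finite K] (hK : ∃ x : K, star x ≠ x) {P0 P g : Matrix (Jx 1) (Jx 1) K}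
    (h4 : ∀ m : K, m * star m = 1 → m ^ 4 = 1)
    (hP0 : P0ᴴ * P0 = JO K 1) (hP : Pᴴ * P = JO K 1) (hg : gᴴ * g = 1) (hgd : g.det = 1)
    {b β c d r p q s : K} (hM : P⁻¹ * g * P = m3 1 b β c d r p q s) (hp : p ≠ 0) (hβ : β ≠ 0) :
    ∃ s t : Matrix (Jx 1) (Jx 1) K, sᴴ * s = 1 ∧ s.det = 1 ∧ tᴴ * t = 1 ∧ t.det = 1 ∧
      g = s * (P0 * ux 1 1 * P0⁻¹) * s⁻¹ * (t * (P0 * ux 1 1 * P0⁻¹) * t⁻¹) := by
  have hPu := OGrpB_P_unit hP
  have hMd : (m3 1 b β c d r p q s).det = 1 := by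
    rw [← hM, det_mul, det_mul, hgd, mul_one, det_nonsing_inv, Ring.inverse_eq_inv']
    exact inv_mul_cancel₀ hPu.ne_zero
  have hMJ : (m3 1 b β c d r p q s)ᴴ * JO K 1 * m3 1 b β c d r p q s = JO K 1 := by
    have hPP : (P⁻¹)ᴴ * Pᴴ = 1 := by
      rw [← conjTranspose_mul, mul_nonsing_inv _ hPu, conjTranspose_one]
    rw [← hM, conjTranspose_mul, conjTranspose_mul]
    calc Pᴴ * (gᴴ * (P⁻¹)ᴴ) * JO K 1 * (P⁻¹ * g * P) =
          Pᴴ * (gᴴ * (P⁻¹)ᴴ) * (Pᴴ * P) * (P⁻¹ * g * P) := by rw [hP]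
      _ = Pᴴ * gᴴ * ((P⁻¹)ᴴ * Pᴴ) * (P * P⁻¹) * g * P := by noncomm_ring
      _ = Pᴴ * (gᴴ * g) * P := by
          rw [hPP, mul_nonsing_inv _ hPu]
          noncomm_ring
      _ = JO K 1 := by rw [hg, Matrix.mul_one, hP]
  -- rows
  have hMJ' : m3 1 b β c d r p q s * JO K 1 * (m3 1 b β c d r p q s)ᴴ = JO K 1 := by
    have h1 : JO K 1 * (m3 1 b β c d r p q s)ᴴ * JO K 1 * m3 1 b β c d r p q s = 1 := by
      rw [Matrix.mul_assoc (JO K 1), Matrix.mul_assoc (JO K 1), hMJ, OGrpB_JO_mul]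
    have h2 := mul_eq_one_comm.1 h1
    calc m3 1 b β c d r p q s * JO K 1 * (m3 1 b β c d r p q s)ᴴ =
          m3 1 b β c d r p q s * (JO K 1 * (m3 1 b β c d r p q s)ᴴ * JO K 1) * JO K 1 := by
            rw [Matrix.mul_assoc _ _ (JO K 1), Matrix.mul_assoc _ (JO K 1) (JO K 1), OGrpB_JO_mul, Matrix.mul_one,
              Matrix.mul_assoc]
      _ = JO K 1 := by rw [h2, Matrix.one_mul]
  rw [m3_ct, m3_JO, m3_mul, m3_mul] at hMJ hMJ'
  simp only [star_one, star_zero, mul_zero, mul_one, zero_mul, one_mul, add_zero, zero_add] at hMJ hMJ'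
  obtain ⟨⟨a1, a2, a3⟩, -, a4, -, -⟩ := m3_inj hMJ
  obtain ⟨⟨b1, b2, b3⟩, -, -, -, -⟩ := m3_inj hMJ'
  rw [m3_det] at hMd
  have hcc : c + star c = -(-star p * star (-star p)) := by
    rw [star_neg, star_star]
    linear_combination a1
  have hbb : b + star b = -(β * star β) := by linear_combination b1
  have hs : s = p * β + 1 := by
    linear_combination hMd - (s - β * p) * a2 - (b * p - q) * a3 + (b * s - β * q) * a1
  have hq : q = p * b - star β := by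
    have h1 : star q = star p * star b - β := by
      rw [hs, star_add, star_mul', star_one] at b3
      linear_combination b3 - star p * b1
    rw [← star_star q, h1]
    simp
  have hd : d = c * b + 1 + star p * star β := by
    rw [hq] at a2
    linear_combination a2 - b * a1
  have hr : r = c * β - star p := by
    rw [hs] at a3
    linear_combination a3 - β * a1
  have hLU : m3 1 b β c d r p q s = m3 1 0 0 c 1 (-star p) (-star (-star p)) 0 1 * ux b β := by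
    unfold ux
    rw [m3_mul, star_neg, star_star, neg_neg]
    simp only [mul_zero, mul_one, zero_mul, one_mul, add_zero, zero_add]
    congr 1
    · rw [hd]; ring
    · rw [hr]; ring
    · rw [hq]; ring
  obtain ⟨v1, hv1, e1⟩ := low_conj h3 hK hcc (neg_ne_zero.2 (star_ne_zero.2 hp))
  obtain ⟨v2, hv2, e2⟩ := up_conj h3 hK hbb hβ
  obtain ⟨s1, hs1, hs1d, hs1e⟩ := nine_step h4 hP0 hP hv1 e1
  obtain ⟨s2, hs2, hs2d, hs2e⟩ := nine_step h4 hP0 hP hv2 e2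
  refine ⟨s1, s2, hs1, hs1d, hs2, hs2d, ?_⟩
  rw [hs1e, hs2e]
  have hg' : g = P * m3 1 b β c d r p q s * P⁻¹ := by
    rw [← hM]
    calc g = 1 * g * 1 := by noncomm_ring
      _ = (P * P⁻¹) * g * (P * P⁻¹) := by rw [mul_nonsing_inv _ hPu]
      _ = _ := by noncomm_ring
  rw [hg', hLU]
  calc P * (m3 1 0 0 c 1 (-star p) (-star (-star p)) 0 1 * ux b β) * P⁻¹ =
        P * m3 1 0 0 c 1 (-star p) (-star (-star p)) 0 1 * 1 * ux b β * P⁻¹ := by noncomm_ring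
    _ = P * m3 1 0 0 c 1 (-star p) (-star (-star p)) 0 1 * (P⁻¹ * P) * ux b β * P⁻¹ := by
        rw [nonsing_inv_mul _ hPu]
    _ = _ := by noncomm_ring

/-- transvections and the identity -/
theorem nine_small [Finite K] (hK : ∃ x : K, star x ≠ x) {P0 P g : Matrix (Jx 1) (Jx 1) K}
    (h4 : ∀ m : K, m * star m = 1 → m ^ 4 = 1)
    (hP0 : P0ᴴ * P0 = JO K 1) (hP : Pᴴ * P = JO K 1)
    {τ : K} (hτ : τ + star τ = 0) (hM : P⁻¹ * g * P = m3 1 τ 0 0 1 0 0 0 1) :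
    ∃ s t : Matrix (Jx 1) (Jx 1) K, sᴴ * s = 1 ∧ s.det = 1 ∧ tᴴ * t = 1 ∧ t.det = 1 ∧
      g = s * (P0 * ux 1 1 * P0⁻¹) * s⁻¹ * (t * (P0 * ux 1 1 * P0⁻¹) * t⁻¹) := by
  have hPu := OGrpB_P_unit hP
  have hLU : m3 1 τ 0 0 1 0 0 0 1 = ux 1 1 * ux (τ + 1) (-1) := by
    rw [ux_mul]
    unfold ux
    rw [star_neg, star_one]
    simp only [add_neg_cancel, star_zero, neg_zero]
    congr 1
    linear_combination (-1) * h3
  obtain ⟨v1, hv1, e1⟩ := up_conj h3 hK (s := 1) (ρ := 1) (by rw [star_one]; linear_combination h3) one_ne_zero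
  obtain ⟨v2, hv2, e2⟩ := up_conj h3 hK (s := τ + 1) (ρ := -1) (by
    rw [star_add, star_neg, star_one]; linear_combination h3 + hτ) (neg_ne_zero.2 one_ne_zero)
  obtain ⟨s1, hs1, hs1d, hs1e⟩ := nine_step h4 hP0 hP hv1 e1
  obtain ⟨s2, hs2, hs2d, hs2e⟩ := nine_step h4 hP0 hP hv2 e2
  refine ⟨s1, s2, hs1, hs1d, hs2, hs2d, ?_⟩
  rw [hs1e, hs2e]
  have hg' : g = P * m3 1 τ 0 0 1 0 0 0 1 * P⁻¹ := by
    rw [← hM]
    calc g = 1 * g * 1 := by noncomm_ring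
      _ = (P * P⁻¹) * g * (P * P⁻¹) := by rw [mul_nonsing_inv _ hPu]
      _ = _ := by noncomm_ring
  rw [hg', hLU]
  calc P * (ux 1 1 * ux (τ + 1) (-1)) * P⁻¹ =
        P * ux 1 1 * 1 * ux (τ + 1) (-1) * P⁻¹ := by noncomm_ring
    _ = P * ux 1 1 * (P⁻¹ * P) * ux (τ + 1) (-1) * P⁻¹ := by
        rw [nonsing_inv_mul _ hPu]
    _ = _ := by noncomm_ring

/-! ### frames -/

omit h3 in
theorem uo3 {t ρ : K} (h : t + star t = -(ρ * star ρ)) : ∃ U V : Matrix (Jx 1) (Jx 1) K,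
    Uᴴ * JO K 1 * U = JO K 1 ∧ V * U = 1 ∧ ∀ a b β c d r p q s, V * m3 a b β c d r p q s * U =
      m3 (a + t * c - ρ * p) ((a + t * c - ρ * p) * star t + (b + t * d - ρ * q) - (β + t * r - ρ * s) * star ρ)
        ((a + t * c - ρ * p) * ρ + (β + t * r - ρ * s)) c (c * star t + d - r * star ρ) (c * ρ + r)
        (star ρ * c + p) ((star ρ * c + p) * star t + (star ρ * d + q) - (star ρ * r + s) * star ρ)
        ((star ρ * c + p) * ρ + (star ρ * r + s)) := by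
  refine ⟨m3 1 (star t) ρ 0 1 0 0 (-star ρ) 1, m3 1 t (-ρ) 0 1 0 0 (star ρ) 1, ?_, ?_, ?_⟩
  · rw [m3_ct, m3_JO, m3_mul, m3_mul]
    simp only [star_one, star_zero, star_neg, star_star, mul_zero, mul_one, zero_mul, one_mul, add_zero, zero_add]
    congr 1
    · linear_combination h
    · ring
    · ring
  · rw [m3_mul, m3_one]
    simp only [mul_zero, mul_one, zero_mul, one_mul, add_zero, zero_add]
    congr 1
    · linear_combination h
    · ring
    · ring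
  · intro a b β c d r p q s
    rw [m3_mul, m3_mul]
    congr 1 <;> ring

omit h3 in
/-- relations between the entries -/
theorem m3_rel {P g : Matrix (Jx 1) (Jx 1) K} (hP : Pᴴ * P = JO K 1) (hg : gᴴ * g = 1) (hgd : g.det = 1)
    {a b β c d r p q s : K} (hM : P⁻¹ * g * P = m3 a b β c d r p q s) :
    (m3 a b β c d r p q s).det = 1 ∧ (m3 a b β c d r p q s)ᴴ * JO K 1 * m3 a b β c d r p q s = JO K 1 := by
  have hPu := OGrpB_P_unit hP
  refine ⟨?_, ?_⟩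
  · rw [← hM, det_mul, det_mul, hgd, mul_one, det_nonsing_inv, Ring.inverse_eq_inv']
    exact inv_mul_cancel₀ hPu.ne_zero
  · have hPP : (P⁻¹)ᴴ * Pᴴ = 1 := by
      rw [← conjTranspose_mul, mul_nonsing_inv _ hPu, conjTranspose_one]
    rw [← hM, conjTranspose_mul, conjTranspose_mul]
    calc Pᴴ * (gᴴ * (P⁻¹)ᴴ) * JO K 1 * (P⁻¹ * g * P) =
          Pᴴ * (gᴴ * (P⁻¹)ᴴ) * (Pᴴ * P) * (P⁻¹ * g * P) := by rw [hP]
      _ = Pᴴ * gᴴ * ((P⁻¹)ᴴ * Pᴴ) * (P * P⁻¹) * g * P := by noncomm_ring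
      _ = Pᴴ * (gᴴ * g) * P := by
          rw [hPP, mul_nonsing_inv _ hPu]
          noncomm_ring
      _ = JO K 1 := by rw [hg, Matrix.mul_one, hP]

omit h3 in
/-- change of the frame -/
theorem frame_mul {P g U V : Matrix (Jx 1) (Jx 1) K} (hP : Pᴴ * P = JO K 1)
    (hU : Uᴴ * JO K 1 * U = JO K 1) (hVU : V * U = 1) :
    (P * U)ᴴ * (P * U) = JO K 1 ∧ (P * U)⁻¹ * g * (P * U) = V * (P⁻¹ * g * P) * U := by
  have hPu := OGrpB_P_unit hP
  have hPinv : (P * U)⁻¹ = V * P⁻¹ := by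
    apply Matrix.inv_eq_left_inv
    rw [Matrix.mul_assoc, ← Matrix.mul_assoc P⁻¹, nonsing_inv_mul _ hPu, Matrix.one_mul, hVU]
  refine ⟨?_, ?_⟩
  · rw [conjTranspose_mul, Matrix.mul_assoc, ← Matrix.mul_assoc Pᴴ, hP, ← Matrix.mul_assoc]
    exact hU
  · rw [hPinv]
    simp only [Matrix.mul_assoc]

omit h3 in
/-- the normal form: first column `(0, c, 0)` -/
theorem frame_nf {P g : Matrix (Jx 1) (Jx 1) K} (hP : Pᴴ * P = JO K 1) (hg : gᴴ * g = 1) (hgd : g.det = 1)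
    {a b β c d r p q s : K} (hM : P⁻¹ * g * P = m3 a b β c d r p q s) (hc : c ≠ 0) :
    ∃ P' : Matrix (Jx 1) (Jx 1) K, P'ᴴ * P' = JO K 1 ∧ ∃ d' r' q',
      P'⁻¹ * g * P' = m3 0 (star c)⁻¹ 0 c d' r' 0 q' (-(star c * c⁻¹)) := by
  obtain ⟨-, hMJ⟩ := m3_rel hP hg hgd hM
  rw [m3_ct, m3_JO, m3_mul, m3_mul] at hMJ
  simp only [mul_zero, mul_one, zero_mul, add_zero, zero_add] at hMJ
  obtain ⟨⟨a1, -, -⟩, -, -, -, -⟩ := m3_inj hMJ
  have hc' : star c ≠ 0 := star_ne_zero.2 hc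
  obtain ⟨ρ, hρ⟩ : ∃ ρ, ρ = -(star p * (star c)⁻¹) := ⟨_, rfl⟩
  have hρ' : star ρ = -(p * c⁻¹) := by rw [hρ, star_neg, star_mul', star_inv₀, star_star, star_star]
  obtain ⟨t, ht⟩ : ∃ t, t = (ρ * p - a) * c⁻¹ := ⟨_, rfl⟩
  have ht' : star t = (star ρ * star p - star a) * (star c)⁻¹ := by
    rw [ht, star_mul', star_sub, star_mul', star_inv₀]
  have htt : t + star t = -(ρ * star ρ) := by
    rw [ht', ht, hρ', hρ]
    field_simp
    linear_combination (-1) * a1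
  obtain ⟨U, V, hU, hVU, hVMU⟩ := uo3 htt
  obtain ⟨h1, h2⟩ := frame_mul (g := g) hP hU hVU
  rw [hM, hVMU] at h2
  have e1 : a + t * c - ρ * p = 0 := by
    rw [ht]
    field_simp
    ring
  have e2 : star ρ * c + p = 0 := by
    rw [hρ']
    field_simp
    ring
  rw [e1, e2] at h2
  obtain ⟨b', hb⟩ : ∃ b', b' = 0 * star t + (b + t * d - ρ * q) - (β + t * r - ρ * s) * star ρ := ⟨_, rfl⟩
  obtain ⟨β', hβ⟩ : ∃ β', β' = 0 * ρ + (β + t * r - ρ * s) := ⟨_, rfl⟩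
  obtain ⟨d', hd⟩ : ∃ d', d' = c * star t + d - r * star ρ := ⟨_, rfl⟩
  obtain ⟨r', hr⟩ : ∃ r', r' = c * ρ + r := ⟨_, rfl⟩
  obtain ⟨q', hq⟩ : ∃ q', q' = 0 * star t + (star ρ * d + q) - (star ρ * r + s) * star ρ := ⟨_, rfl⟩
  obtain ⟨s', hs⟩ : ∃ s', s' = 0 * ρ + (star ρ * r + s) := ⟨_, rfl⟩
  rw [← hb, ← hβ, ← hd, ← hr, ← hq, ← hs] at h2
  obtain ⟨hMd, hMJ'⟩ := m3_rel h1 hg hgd h2
  rw [m3_ct, m3_JO, m3_mul, m3_mul] at hMJ'
  simp only [star_zero, mul_zero, mul_one, zero_mul, add_zero, zero_add] at hMJ'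
  obtain ⟨⟨-, a2, a3⟩, -, -, -, -⟩ := m3_inj hMJ'
  rw [m3_det] at hMd
  have hβ0 : β' = 0 := (mul_eq_zero.1 a3).resolve_left hc'
  have hb0 : b' = (star c)⁻¹ := by
    field_simp
    linear_combination a2
  have hs0 : s' = -(star c * c⁻¹) := by
    rw [hb0, hβ0] at hMd
    field_simp at hMd ⊢
    linear_combination (-1) * hMd
  rw [hβ0, hb0, hs0] at h2
  exact ⟨P * U, h1, d', r', q', h2⟩


omit h3 in
theorem frame9 [Finite K] (hK : ∃ x : K, star x ≠ x) {g : Matrix (Jx 1) (Jx 1) K}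
    (hns : ∀ κ : K, g + gᴴ ≠ κ • (1 : Matrix (Jx 1) (Jx 1) K)) :
    ∃ P : Matrix (Jx 1) (Jx 1) K, Pᴴ * P = JO K 1 ∧
      (P⁻¹ * g * P).toBlocks₁₁.toBlocks₂₁ 0 0 + star ((P⁻¹ * g * P).toBlocks₁₁.toBlocks₂₁ 0 0) ≠ 0 := by
  have hfr : finrank K (⊤ : Submodule K (Jx 1 → K)) = 2 * (0 + 1) + 1 := by
    rw [finrank_top]; simp
  have hs : ¬ Scal ⊤ (toLin' (g + gᴴ)) := by
    rintro ⟨c, hc⟩
    refine hns c ?_
    apply Matrix.toLin'.injective
    ext x i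
    simp only [LinearMap.comp_apply, LinearMap.coe_single]
    rw [hc _ trivial]
    simp
  obtain ⟨w, hww, hwz⟩ : ∃ w, (stdG K (Jx 1)).h w w = 0 ∧ (stdG K (Jx 1)).h w (toLin' (g + gᴴ) w) ≠ 0 := by
    by_contra hc
    push Not at hc
    exact hs (scal_of_iso (stdG K (Jx 1)) hK stdG_ND (by rw [hfr]; omega) _ (fun _ _ => trivial)
      (fun w _ hw => hc w hw))
  have hw : w ≠ 0 := by
    rintro rfl
    apply hwz
    rw [(stdG K (Jx 1)).zero_left]
  have hct : (stdG K (Jx 1)).h w (toLin' gᴴ w) = star ((stdG K (Jx 1)).h w (toLin' g w)) := by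
    have hd : ∀ x y : Jx 1 → K, (stdG K (Jx 1)).h x y = star x ⬝ᵥ y := fun x y => rfl
    rw [← (stdG K (Jx 1)).symm w (toLin' g w), hd, hd, Matrix.toLin'_apply, Matrix.toLin'_apply,
      Matrix.star_mulVec, Matrix.dotProduct_mulVec]
  rw [map_add, LinearMap.add_apply, map_add, hct] at hwz
  obtain ⟨u, u', hyp, hu⟩ := hyp_cons_odd (stdG K (Jx 1)) hK stdG_ND hfr (u := w) trivial hw hww
  obtain ⟨P, hP, hPg⟩ := frame_odd21 hK hyp g
  refine ⟨P, hP, ?_⟩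
  rw [hPg]
  have : u 0 = w := hu
  rw [this]
  exact hwz

/-- nonscalar elements -/
theorem nine_ns [Finite K] (hK : ∃ x : K, star x ≠ x) {P0 g : Matrix (Jx 1) (Jx 1) K}
    (h4 : ∀ m : K, m * star m = 1 → m ^ 4 = 1)
    (hP0 : P0ᴴ * P0 = JO K 1) (hg : gᴴ * g = 1) (hgd : g.det = 1)
    (hns : ∀ c : K, g ≠ c • (1 : Matrix (Jx 1) (Jx 1) K)) :
    ∃ s t : Matrix (Jx 1) (Jx 1) K, sᴴ * s = 1 ∧ s.det = 1 ∧ tᴴ * t = 1 ∧ t.det = 1 ∧
      g = s * (P0 * ux 1 1 * P0⁻¹) * s⁻¹ * (t * (P0 * ux 1 1 * P0⁻¹) * t⁻¹) := by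
  by_cases hk : ∃ κ : K, g + gᴴ = κ • (1 : Matrix (Jx 1) (Jx 1) K)
  · -- transvections
    obtain ⟨κ, hκ⟩ := hk
    obtain ⟨P, hP, hc⟩ := frame3 hK hg hns
    have hMe := m3_ex (P⁻¹ * g * P)
    have hc' : (P⁻¹ * g * P) (Sum.inl (Sum.inr 0)) (Sum.inl (Sum.inl 0)) ≠ 0 := hc
    obtain ⟨c, hcd⟩ : ∃ c, c = (P⁻¹ * g * P) (Sum.inl (Sum.inr 0)) (Sum.inl (Sum.inl 0)) := ⟨_, rfl⟩
    rw [← hcd] at hMe hc'
    obtain ⟨P', hP', d', r', q', hM⟩ := frame_nf hP hg hgd hMe hc'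
    have hPu := OGrpB_P_unit hP'
    have hcs : star c ≠ 0 := star_ne_zero.2 hc'
    -- the inverse
    have hinv : P'⁻¹ * gᴴ * P' = JO K 1 * (P'⁻¹ * g * P')ᴴ * JO K 1 := by
      have h1 : P'⁻¹ = JO K 1 * P'ᴴ := by
        apply Matrix.inv_eq_left_inv
        rw [Matrix.mul_assoc, hP', OGrpB_JO_mul]
      have h2 : P' = (P'⁻¹)ᴴ * JO K 1 := by
        rw [← hP', ← Matrix.mul_assoc, ← conjTranspose_mul, mul_nonsing_inv _ hPu, conjTranspose_one,
          Matrix.one_mul]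
      rw [conjTranspose_mul, conjTranspose_mul]
      calc P'⁻¹ * gᴴ * P' = (JO K 1 * P'ᴴ) * gᴴ * ((P'⁻¹)ᴴ * JO K 1) := by
            rw [← h1, ← h2]
        _ = _ := by noncomm_ring
    have hsum : m3 0 (star c)⁻¹ 0 c d' r' 0 q' (-(star c * c⁻¹)) +
        JO K 1 * (m3 0 (star c)⁻¹ 0 c d' r' 0 q' (-(star c * c⁻¹)))ᴴ * JO K 1 = κ • (1 : Matrix (Jx 1) (Jx 1) K) := by
      rw [← hM, ← hinv, ← Matrix.add_mul, ← Matrix.mul_add, hκ, Matrix.mul_smul, Matrix.mul_one, Matrix.smul_mul,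
        nonsing_inv_mul _ hPu]
    rw [m3_ct, m3_JO, m3_mul, m3_mul, m3_one] at hsum
    simp only [mul_zero, mul_one, zero_mul, one_mul, add_zero, zero_add] at hsum
    have e := fun i j => congrFun (congrFun hsum i) j
    have e12 := e (Sum.inl (Sum.inl 0)) (Sum.inl (Sum.inr 0))
    have e11 := e (Sum.inl (Sum.inl 0)) (Sum.inl (Sum.inl 0))
    have e13 := e (Sum.inl (Sum.inl 0)) (Sum.inr ())
    have e21 := e (Sum.inl (Sum.inr 0)) (Sum.inl (Sum.inl 0))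
    have e22 := e (Sum.inl (Sum.inr 0)) (Sum.inl (Sum.inr 0))
    have e23 := e (Sum.inl (Sum.inr 0)) (Sum.inr ())
    have e33 := e (Sum.inr ()) (Sum.inr ())
    simp [m3] at e12 e11 e13 e21 e22 e23 e33
    have hsc : star c = -c := by linear_combination e21
    have hκ2 : κ = 2 := by
      rw [hsc] at e33
      field_simp at e33
      linear_combination (-1) * e33
    rw [e13, e22, e23, hκ2, hsc] at hM
    -- the eigenvector
    have hU : (m3 1 0 0 (-c) 1 0 0 0 1 : Matrix (Jx 1) (Jx 1) K)ᴴ * JO K 1 * m3 1 0 0 (-c) 1 0 0 0 1 = JO K 1 := by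
      rw [m3_ct, m3_JO, m3_mul, m3_mul]
      simp [hsc]
    have hVU : m3 1 0 0 c 1 0 0 0 1 * m3 1 0 0 (-c) 1 0 0 0 1 = (1 : Matrix (Jx 1) (Jx 1) K) := by
      rw [m3_mul, m3_one]
      simp
    obtain ⟨h1, h2⟩ := frame_mul (g := g) hP' hU hVU
    have hcc : c * c⁻¹ = 1 := mul_inv_cancel₀ hc'
    rw [hM, m3_mul, m3_mul] at h2
    refine nine_small h3 hK h4 hP0 h1 (τ := (-c)⁻¹) ?_ ?_
    · rw [star_inv₀, star_neg, hsc, neg_neg, inv_neg, neg_add_cancel]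
    · rw [h2]
      congr 1
      · rw [inv_neg]; linear_combination hcc
      · rw [inv_neg]; ring
      · ring
      · rw [inv_neg]; linear_combination (-(c + 1 * c)) * 0 + c * hcc
      · rw [inv_neg]; linear_combination (-1) * hcc
      · ring
      · ring
      · ring
      · linear_combination hcc
  · -- the general case
    push Not at hk
    obtain ⟨P, hP, hc⟩ := frame9 hK hk
    have hMe := m3_ex (P⁻¹ * g * P)
    have hc1 : (P⁻¹ * g * P) (Sum.inl (Sum.inr 0)) (Sum.inl (Sum.inl 0)) +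
      star ((P⁻¹ * g * P) (Sum.inl (Sum.inr 0)) (Sum.inl (Sum.inl 0))) ≠ 0 := hc
    obtain ⟨c, hcd⟩ : ∃ c, c = (P⁻¹ * g * P) (Sum.inl (Sum.inr 0)) (Sum.inl (Sum.inl 0)) := ⟨_, rfl⟩
    rw [← hcd] at hMe hc1
    have hc' : c ≠ 0 := by
      rintro rfl
      simp at hc1
    obtain ⟨P', hP', d', r', q', hM⟩ := frame_nf hP hg hgd hMe hc'
    have hcs : star c ≠ 0 := star_ne_zero.2 hc'
    obtain ⟨ν, hν⟩ := fld_norm hK (-(c⁻¹ + star c⁻¹)) (by
      rw [star_neg, star_add, star_star, add_comm])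
    have hν0 : ν ≠ 0 := by
      rintro rfl
      apply hc1
      rw [zero_mul, star_inv₀] at hν
      field_simp at hν
      linear_combination hν
    have main : ∀ ρ : K, ρ * star ρ = -(c⁻¹ + star c⁻¹) → ρ ≠ 0 → ρ * (c + star c) + r' ≠ 0 →
        ∃ s t : Matrix (Jx 1) (Jx 1) K, sᴴ * s = 1 ∧ s.det = 1 ∧ tᴴ * t = 1 ∧ t.det = 1 ∧
          g = s * (P0 * ux 1 1 * P0⁻¹) * s⁻¹ * (t * (P0 * ux 1 1 * P0⁻¹) * t⁻¹) := by
      intro ρ hρ hρ0 hρr
      obtain ⟨U, V, hU, hVU, hVMU⟩ := uo3 (t := c⁻¹) (ρ := ρ) (by rw [hρ, neg_neg])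
      obtain ⟨h1, h2⟩ := frame_mul (g := g) hP' hU hVU
      rw [hM, hVMU] at h2
      have e1 : 0 + c⁻¹ * c - ρ * 0 = 1 := by
        rw [inv_mul_cancel₀ hc']
        ring
      rw [e1] at h2
      refine nine_big h3 hK h4 hP0 h1 hg hgd h2 ?_ ?_
      · rw [add_zero]
        exact mul_ne_zero (star_ne_zero.2 hρ0) hc'
      · intro h5
        apply hρr
        field_simp at h5
        linear_combination h5
    by_cases hr : ν * (c + star c) + r' = 0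
    · refine main (-ν) ?_ (neg_ne_zero.2 hν0) ?_
      · rw [star_neg, neg_mul_neg, hν]
      · intro h5
        have h6 : ν * (c + star c) = 0 := by
          linear_combination (-1) * hr * 1 + h5 + ν * (c + star c) * h3
        exact (mul_ne_zero hν0 hc1) h6
    · exact main ν hν hν0 hr


/-- Thompson's conjecture for `PSU_3(3)` -/
theorem main9 [Finite K] (hK : ∃ x : K, star x ≠ x) (h4 : ∀ m : K, m * star m = 1 → m ^ 4 = 1) :
    ∃ x : Matrix (Jx 1) (Jx 1) K, xᴴ * x = 1 ∧ x.det = 1 ∧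
      ∀ g : Matrix (Jx 1) (Jx 1) K, gᴴ * g = 1 → g.det = 1 →
        ∃ (c : K) (s t : Matrix (Jx 1) (Jx 1) K), c * star c = 1 ∧ c ^ (2 * 1 + 1) = 1 ∧
          sᴴ * s = 1 ∧ s.det = 1 ∧ tᴴ * t = 1 ∧ t.det = 1 ∧
          g = c • (s * x * s⁻¹ * (t * x * t⁻¹)) := by
  have hfrT : finrank K (⊤ : Submodule K (Jx 1 → K)) = 2 * 1 + 1 := by rw [finrank_top]; simp
  obtain ⟨w0, w0', hyp0⟩ := hyp_odd (stdG K (Jx 1)) hK stdG_ND hfrT
  obtain ⟨P0, hP0, -⟩ := frame_odd hK hyp0 1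
  have hP0u := OGrpB_P_unit hP0
  have h11 : (1 : K) + star 1 = -(1 * star 1) := by rw [star_one]; linear_combination h3
  refine ⟨P0 * ux 1 1 * P0⁻¹, OGrpB_unitary hP0 hP0 (ux_JU h11), ?_, fun g hg hgd => ?_⟩
  · rw [det_mul, det_mul, det_nonsing_inv, Ring.inverse_eq_inv']
    unfold ux
    rw [m3_det, star_one]
    have := hP0u.ne_zero
    field_simp
    ring
  by_cases hs : ∃ c : K, g = c • (1 : Matrix (Jx 1) (Jx 1) K)
  · obtain ⟨c, rfl⟩ := hs
    have hc : c * star c = 1 := by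
      have h1 := congrFun (congrFun hg (Sum.inr ())) (Sum.inr ())
      simpa [conjTranspose_smul] using h1
    have hc3 : c ^ (2 * 1 + 1) = 1 := by
      rw [det_smul, det_one, mul_one] at hgd
      simpa using hgd
    obtain ⟨s, t, hs1, hs2, ht1, ht2, h⟩ := nine_small (g := 1) h3 hK h4 hP0 hP0 (τ := 0) (by simp) (by
      rw [Matrix.mul_one, nonsing_inv_mul _ hP0u, m3_one])
    exact ⟨c, s, t, hc, hc3, hs1, hs2, ht1, ht2, by rw [← h]⟩
  · push Not at hs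
    obtain ⟨s, t, hs1, hs2, ht1, ht2, h⟩ := nine_ns h3 hK h4 hP0 hg hgd hs
    exact ⟨1, s, t, by simp, by simp, hs1, hs2, ht1, ht2, by rw [one_smul]; exact h⟩

omit h3 in
/-- small fields -/
theorem fld_small [Finite K] (hK : ∃ x : K, star x ≠ x) (hb : ¬ ∃ b : K, star b = b ∧ b ≠ 0 ∧ b * b ≠ 1)
    (hc : Nat.card K ≠ 4) : (3 : K) = 0 ∧ ∀ m : K, m * star m = 1 → m ^ 4 = 1 := by
  obtain ⟨q, hq2, hcard, hst⟩ := fld_card hK
  haveI := Fintype.ofFinite K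
  have hbb : ∀ b : K, star b = b → b ≠ 0 → b * b = 1 := by
    intro b h1 h2
    by_contra h
    exact hb ⟨b, h1, h2, h⟩
  -- every nonzero element satisfies `x ^ (2 * (q + 1)) = 1`
  have hx : ∀ x : K, x ≠ 0 → x ^ (2 * (q + 1)) = 1 := by
    intro x hx
    have h1 := hbb (x * star x) (by rw [star_mul', star_star, mul_comm]) (mul_ne_zero hx (star_ne_zero.2 hx))
    rw [hst] at h1
    rw [← h1]
    ring
  have hq3 : q ≤ 3 := by
    obtain ⟨u, hu⟩ := IsCyclic.exists_generator (α := Kˣ)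
    have ho : orderOf u = q ^ 2 - 1 := by
      rw [orderOf_eq_card_of_forall_mem_zpowers hu, ← hcard, Nat.card_units]
    have hd : orderOf u ∣ 2 * (q + 1) := by
      apply orderOf_dvd_of_pow_eq_one
      apply Units.ext
      rw [Units.val_pow_eq_pow_val, Units.val_one]
      exact hx _ u.ne_zero
    rw [ho] at hd
    have h5 := Nat.le_of_dvd (by positivity) hd
    by_contra h6
    have h7 : 4 ≤ q := by omega
    have h8 : q ^ 2 - 1 = (q - 1) * (q + 1) := by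
      obtain ⟨k, rfl⟩ : ∃ k, q = k + 1 := ⟨q - 1, by omega⟩
      simp only [Nat.add_sub_cancel]
      ring_nf
      omega
    rw [h8] at h5
    have h9 : 3 ≤ q - 1 := by omega
    nlinarith
  have hq : q = 3 := by
    rcases (by omega : q = 2 ∨ q = 3) with h | h
    · exact absurd (by rw [hcard, h]; rfl) hc
    · exact h
  subst hq
  refine ⟨?_, fun m hm => ?_⟩
  · have h1 : ((Nat.card K : ℕ) : K) = 0 := by
      rw [Nat.card_eq_fintype_card]
      exact FiniteField.cast_card_eq_zero K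
    rw [hcard] at h1
    have h2 : (3 : K) ^ 2 = 0 := by exact_mod_cast h1
    exact pow_eq_zero_iff (two_ne_zero) |>.1 h2
  · rw [hst] at hm
    rw [← hm]
    ring


omit h3 in
/-- Thompson's conjecture for `PSU_3(q)`, `q ≥ 3` -/
theorem main3all [Finite K] (hK : ∃ x : K, star x ≠ x) (hc : Nat.card K ≠ 4) :
    ∃ x : Matrix (Jx 1) (Jx 1) K, xᴴ * x = 1 ∧ x.det = 1 ∧
      ∀ g : Matrix (Jx 1) (Jx 1) K, gᴴ * g = 1 → g.det = 1 →
        ∃ (c : K) (s t : Matrix (Jx 1) (Jx 1) K), c * star c = 1 ∧ c ^ (2 * 1 + 1) = 1 ∧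
          sᴴ * s = 1 ∧ s.det = 1 ∧ tᴴ * t = 1 ∧ t.det = 1 ∧
          g = c • (s * x * s⁻¹ * (t * x * t⁻¹)) := by
  by_cases hb : ∃ b : K, star b = b ∧ b ≠ 0 ∧ b * b ≠ 1
  · exact main3 hK hb
  · obtain ⟨h3, h4⟩ := fld_small hK hb hc
    exact main9 h3 hK h4

end ThU
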