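import Pool.Agent.ThV.Fin45
import Pool.Agent.ThV.Nine
import Pool.Agent.ThU.Quot
import Pool.Agent.ThU.OFinal

/-! # All projective special unitary groups -/

namespace ThU
open Matrix

theorem psu_all (K : Type) [Field K] [Finite K] [StarRing K] (hK : ∃ x : K, star x ≠ x) (m : ℕ)
    (hm : 3 ≤ m) (hmK : m ≠ 3 ∨ Nat.card K ≠ 4) :
    ∃ g : Matrix.specialUnitaryGroup (Fin m) K ⧸
        Subgroup.center (Matrix.specialUnitaryGroup (Fin m) K),
      ∀ z : Matrix.specialUnitaryGroup (Fin m) K ⧸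
          Subgroup.center (Matrix.specialUnitaryGroup (Fin m) K),
        ∃ x y : Matrix.specialUnitaryGroup (Fin m) K ⧸
            Subgroup.center (Matrix.specialUnitaryGroup (Fin m) K),
          IsConj g x ∧ IsConj g y ∧ x * y = z := by
  rcases Nat.even_or_odd' m with ⟨n, hn | hn⟩
  · have e : ThU.Ix n ≃ Fin m := finSumFinEquiv.trans (finCongr (by omega))
    have key : ∃ x : Matrix (ThU.Ix n) (ThU.Ix n) K, xᴴ * x = 1 ∧ x.det = 1 ∧
        ∀ g : Matrix (ThU.Ix n) (ThU.Ix n) K, gᴴ * g = 1 → g.det = 1 →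
          ∃ (c : K) (s t : Matrix (ThU.Ix n) (ThU.Ix n) K), c * star c = 1 ∧ c ^ (2 * n) = 1 ∧ sᴴ * s = 1 ∧
            s.det = 1 ∧ tᴴ * t = 1 ∧ t.det = 1 ∧ g = c • (s * x * s⁻¹ * (t * x * t⁻¹)) := by
      by_cases h3 : 3 ≤ n
      · exact ThU.main_matrix (K := K) hK h3
      · obtain rfl : n = 2 := by omega
        exact ThU.main4 hK
    obtain ⟨x, hx, hx1, h⟩ := ThU.reindex_form e (N := 2 * n) key
    exact ThU.quot_of (by simp [hn]) x hx hx1 h
  · have e : ThU.Jx n ≃ Fin m :=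
      ((Equiv.sumCongr finSumFinEquiv finOneEquiv.symm).trans finSumFinEquiv).trans
        (finCongr (by omega))
    have key : ∃ x : Matrix (ThU.Jx n) (ThU.Jx n) K, xᴴ * x = 1 ∧ x.det = 1 ∧
        ∀ g : Matrix (ThU.Jx n) (ThU.Jx n) K, gᴴ * g = 1 → g.det = 1 →
          ∃ (c : K) (s t : Matrix (ThU.Jx n) (ThU.Jx n) K), c * star c = 1 ∧ c ^ (2 * n + 1) = 1 ∧
            sᴴ * s = 1 ∧ s.det = 1 ∧ tᴴ * t = 1 ∧ t.det = 1 ∧
            g = c • (s * x * s⁻¹ * (t * x * t⁻¹)) := by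
      by_cases h3 : 3 ≤ n
      · exact ThU.main_matrix_odd (K := K) hK h3
      · rcases (by omega : n = 2 ∨ n = 1) with rfl | rfl
        · exact ThU.main5 hK
        · exact ThU.main3all hK (hmK.resolve_left (by omega))
    obtain ⟨x, hx, hx1, h⟩ := ThU.reindex_form e (N := 2 * n + 1) key
    exact ThU.quot_of (by simp [hn]) x hx hx1 h

end ThU
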