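import Pool.Agent.ThV.Sd

/-! # The block theorems with the factors `B`, `(Bᴴ)⁻¹` -/

namespace ThU
open Matrix Polynomial Module

variable {K : Type*} [Field K] [StarRing K] {n : ℕ}

-- BEGIN ba
/-- an isometry conjugate to `XJ B` -/
private theorem ba_step {P0 P v L : Matrix (Ix n) (Ix n) K} {B : Matrix (Fin n) (Fin n) K}
    (hP0 : P0ᴴ * P0 = JJ K n) (hP : Pᴴ * P = JJ K n) (hB : Seed B) (hv : GrpB_JU v)
    (hL : L * v = v * XJ B) : ∃ s : Matrix (Ix n) (Ix n) K, sᴴ * s = 1 ∧ s.det = 1 ∧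
      s * xx P0 B * s⁻¹ = P * L * P⁻¹ := by
  have hP0u := GrpB_P_unit hP0
  have hPu := GrpB_P_unit hP
  obtain ⟨s, h1, h2, h3⟩ := det_adj hP0 hB (GrpB_unitary hP hP0 hv)
  refine ⟨s, h1, h2, h3.trans ?_⟩
  rw [GrpB_solve hv.2 hL]
  unfold xx
  rw [Matrix.mul_inv_rev, Matrix.mul_inv_rev, nonsing_inv_nonsing_inv _ hP0u]
  calc P * v * P0⁻¹ * (P0 * XJ B * P0⁻¹) * (P0 * (v⁻¹ * P⁻¹)) =
        P * v * (P0⁻¹ * P0) * XJ B * (P0⁻¹ * P0) * v⁻¹ * P⁻¹ := by noncomm_ring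
    _ = P * (v * XJ B * v⁻¹) * P⁻¹ := by
        rw [nonsing_inv_mul _ hP0u]
        noncomm_ring

/-- the Sylvester condition for `R (Bᴴ)⁻¹ R⁻¹` -/
private theorem ba_syl {B R A2 : Matrix (Fin n) (Fin n) K} (hb : IsUnit B.det)
    (hsyl : ∀ Z : Matrix (Fin n) (Fin n) K, Bᴴ * Z * B = Z → Z = 0) (hR : IsUnit R.det)
    (hA2 : A2 = R * (Bᴴ)⁻¹ * R⁻¹) :
    ∀ Z : Matrix (Fin n) (Fin n) K, A2 * Z * A2ᴴ = Z → Z = 0 := by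
  intro Z hZ
  have hbc := GrpB_conj_unit hb
  have hRc := GrpB_conj_unit hR
  obtain ⟨W, hW⟩ : ∃ W, W = R⁻¹ * Z * (R⁻¹)ᴴ := ⟨_, rfl⟩
  have hRR : (R⁻¹)ᴴ * Rᴴ = 1 := by
    rw [← conjTranspose_mul, mul_nonsing_inv _ hR, conjTranspose_one]
  have hRR2 : Rᴴ * (R⁻¹)ᴴ = 1 := by
    rw [← conjTranspose_mul, nonsing_inv_mul _ hR, conjTranspose_one]
  have hZW : Z = R * W * Rᴴ := by
    rw [hW]
    calc Z = 1 * Z * 1 := by noncomm_ring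
      _ = (R * R⁻¹) * Z * ((R⁻¹)ᴴ * Rᴴ) := by rw [mul_nonsing_inv _ hR, hRR]
      _ = _ := by noncomm_ring
  have h0 : A2ᴴ = (R⁻¹)ᴴ * B⁻¹ * Rᴴ := by
    rw [hA2, conjTranspose_mul, conjTranspose_mul, conjTranspose_nonsing_inv (Bᴴ),
      conjTranspose_conjTranspose, Matrix.mul_assoc]
  have h1 : W = (Bᴴ)⁻¹ * W * B⁻¹ := by
    calc W = R⁻¹ * (A2 * Z * A2ᴴ) * (R⁻¹)ᴴ := by rw [hZ, hW]
      _ = (R⁻¹ * R) * (Bᴴ)⁻¹ * (R⁻¹ * Z * (R⁻¹)ᴴ) * B⁻¹ * (Rᴴ * (R⁻¹)ᴴ) := by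
          rw [h0, hA2]; noncomm_ring
      _ = (Bᴴ)⁻¹ * W * B⁻¹ := by
          rw [nonsing_inv_mul _ hR, hRR2, ← hW]; noncomm_ring
  have h2 : Bᴴ * W * B = W := by
    calc Bᴴ * W * B = Bᴴ * ((Bᴴ)⁻¹ * W * B⁻¹) * B := by rw [← h1]
      _ = (Bᴴ * (Bᴴ)⁻¹) * W * (B⁻¹ * B) := by noncomm_ring
      _ = W := by
          rw [mul_nonsing_inv _ hbc, nonsing_inv_mul _ hb, Matrix.one_mul, Matrix.mul_one]
  rw [hZW, hsyl W h2, Matrix.mul_zero, Matrix.zero_mul]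

/-- MODULE ba. Copy of `main_block` (ThU/GrpB.lean) with `A1 = Q B Q⁻¹`, `A2 = R (Bᴴ)⁻¹ R⁻¹`: the condition for `unip_up` (`A2 * Z * A2ᴴ = Z → Z = 0`) comes from `hB.syl` (`W = R⁻¹ Z R⁻ᴴ`, `(Bᴴ)⁻¹ W B⁻¹ = W`, so `W = Bᴴ W B`);
instead of `real_XJ` use `XJ (Bᴴ)⁻¹ * JJ = JJ * XJ B` (`GrpB_JU_JJ`; the computation is `h2` in `real_XJ`).  `GrpB_step` is private: copy it. -/
theorem main_blk {P0 P g : Matrix (Ix n) (Ix n) K} {B Q R : Matrix (Fin n) (Fin n) K}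
    (hP0 : P0ᴴ * P0 = JJ K n) (hP : Pᴴ * P = JJ K n) (hB : Seed B) (hg : gᴴ * g = 1)
    (hQ : IsUnit Q.det) (hR : IsUnit R.det)
    (ha : (P⁻¹ * g * P).toBlocks₁₁ = Q * B * Q⁻¹ * (R * (Bᴴ)⁻¹ * R⁻¹)) :
    ∃ s t : Matrix (Ix n) (Ix n) K, sᴴ * s = 1 ∧ s.det = 1 ∧ tᴴ * t = 1 ∧ t.det = 1 ∧
      g = s * xx P0 B * s⁻¹ * (t * xx P0 B * t⁻¹) := by
  have hPu := GrpB_P_unit hP
  have hb := hB.unit
  have hbc := GrpB_conj_unit hb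
  have hbci : IsUnit ((Bᴴ)⁻¹).det := by
    rw [det_nonsing_inv, Ring.inverse_eq_inv']
    exact hbc.inv
  have hQi : IsUnit (Q⁻¹).det := by
    rw [det_nonsing_inv, Ring.inverse_eq_inv']
    exact hQ.inv
  have hRi : IsUnit (R⁻¹).det := by
    rw [det_nonsing_inv, Ring.inverse_eq_inv']
    exact hR.inv
  obtain ⟨M, hM⟩ : ∃ M, M = P⁻¹ * g * P := ⟨_, rfl⟩
  rw [← hM] at ha
  have hMJ : Mᴴ * JJ K n * M = JJ K n := by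
    have hPP : (P⁻¹)ᴴ * Pᴴ = 1 := by
      rw [← conjTranspose_mul, mul_nonsing_inv _ hPu, conjTranspose_one]
    rw [hM, conjTranspose_mul, conjTranspose_mul]
    calc Pᴴ * (gᴴ * (P⁻¹)ᴴ) * JJ K n * (P⁻¹ * g * P) =
          Pᴴ * (gᴴ * (P⁻¹)ᴴ) * (Pᴴ * P) * (P⁻¹ * g * P) := by rw [hP]
      _ = Pᴴ * gᴴ * ((P⁻¹)ᴴ * Pᴴ) * (P * P⁻¹) * g * P := by noncomm_ring
      _ = Pᴴ * (gᴴ * g) * P := by
          rw [hPP, mul_nonsing_inv _ hPu]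
          noncomm_ring
      _ = JJ K n := by rw [hg, Matrix.mul_one, hP]
  -- the blocks
  obtain ⟨A1, hA1⟩ : ∃ A1, A1 = Q * B * Q⁻¹ := ⟨_, rfl⟩
  obtain ⟨A2, hA2⟩ : ∃ A2, A2 = R * (Bᴴ)⁻¹ * R⁻¹ := ⟨_, rfl⟩
  have hA1u : IsUnit A1.det := by
    rw [hA1, det_mul, det_mul]
    exact (hQ.mul hb).mul hQi
  have hA2u : IsUnit A2.det := by
    rw [hA2, det_mul, det_mul]
    exact (hR.mul hbci).mul hRi
  have hM11 : M.toBlocks₁₁ = A1 * A2 := by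
    rw [ha, hA1, hA2]
  obtain ⟨b, c, hL, hU, hLU⟩ := fac hMJ hA1u hA2u hM11
  -- the lower factor
  have hs1 : ∀ Z : Matrix (Fin n) (Fin n) K, A1ᴴ * Z * A1 = Z → Z = 0 := by
    intro Z hZ
    have h1 : Bᴴ * (Qᴴ * Z * Q) * B = Qᴴ * Z * Q := by
      calc Bᴴ * (Qᴴ * Z * Q) * B = 1 * Bᴴ * Qᴴ * Z * Q * B * 1 := by noncomm_ring
        _ = (Q⁻¹ * Q)ᴴ * Bᴴ * Qᴴ * Z * Q * B * (Q⁻¹ * Q) := by
            rw [nonsing_inv_mul _ hQ, conjTranspose_one]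
        _ = Qᴴ * (A1ᴴ * Z * A1) * Q := by
            rw [hA1, conjTranspose_mul, conjTranspose_mul, conjTranspose_mul]; noncomm_ring
        _ = Qᴴ * Z * Q := by rw [hZ]
    have h3 := hB.syl _ h1
    have hQc := GrpB_conj_unit hQ
    calc Z = (Qᴴ)⁻¹ * (Qᴴ * Z * Q) * Q⁻¹ := by
          rw [Matrix.mul_assoc Qᴴ, nonsing_inv_mul_cancel_left _ _ hQc,
            mul_nonsing_inv_cancel_right _ _ hQ]
      _ = 0 := by rw [h3, Matrix.mul_zero, Matrix.zero_mul]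
  obtain ⟨u1, hu1, hu1u, hu1e⟩ := unip_low hA1u hs1 hL
  -- the upper factor
  have hs2 : ∀ Z : Matrix (Fin n) (Fin n) K, A2 * Z * A2ᴴ = Z → Z = 0 :=
    ba_syl hb hB.syl hR hA2
  obtain ⟨u2, hu2, hu2u, hu2e⟩ := unip_up hA2u hs2 hU
  have h2 : XJ (Bᴴ)⁻¹ * JJ K n = JJ K n * XJ B := by
    unfold XJ JJ
    rw [fromBlocks_multiply, fromBlocks_multiply]
    simp only [Matrix.mul_zero, Matrix.zero_mul, add_zero, zero_add, Matrix.mul_one,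
      Matrix.one_mul]
    rw [conjTranspose_nonsing_inv, conjTranspose_conjTranspose, nonsing_inv_nonsing_inv _ hb]
  have hv1 : GrpB_JU (u1 * XJ Q) := GrpB_JU_mul ⟨hu1, hu1u⟩ (GrpB_JU_XJ hQ)
  have hv2 : GrpB_JU (u2 * XJ R * JJ K n) :=
    GrpB_JU_mul (GrpB_JU_mul ⟨hu2, hu2u⟩ (GrpB_JU_XJ hR)) GrpB_JU_JJ
  have he1 : fromBlocks A1 0 c (A1ᴴ)⁻¹ * (u1 * XJ Q) = u1 * XJ Q * XJ B := by
    rw [← Matrix.mul_assoc, hu1e, Matrix.mul_assoc, Matrix.mul_assoc, GrpB_XJ_mul, GrpB_XJ_mul,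
      hA1, nonsing_inv_mul_cancel_right _ _ hQ]
  have he2 : fromBlocks A2 b 0 (A2ᴴ)⁻¹ * (u2 * XJ R * JJ K n) = u2 * XJ R * JJ K n * XJ B := by
    calc fromBlocks A2 b 0 (A2ᴴ)⁻¹ * (u2 * XJ R * JJ K n) =
          (fromBlocks A2 b 0 (A2ᴴ)⁻¹ * u2) * XJ R * JJ K n := by noncomm_ring
      _ = u2 * (XJ A2 * XJ R) * JJ K n := by rw [hu2e]; noncomm_ring
      _ = u2 * (XJ R * XJ (Bᴴ)⁻¹) * JJ K n := by
          rw [GrpB_XJ_mul, GrpB_XJ_mul, hA2, nonsing_inv_mul_cancel_right _ _ hR]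
      _ = u2 * XJ R * (XJ (Bᴴ)⁻¹ * JJ K n) := by noncomm_ring
      _ = u2 * XJ R * JJ K n * XJ B := by rw [h2]; noncomm_ring
  obtain ⟨s, hs, hsd, hse⟩ := ba_step hP0 hP hB hv1 he1
  obtain ⟨t, ht, htd, hte⟩ := ba_step hP0 hP hB hv2 he2
  refine ⟨s, t, hs, hsd, ht, htd, ?_⟩
  rw [hse, hte]
  have hg' : g = P * M * P⁻¹ := by
    rw [hM]
    calc g = 1 * g * 1 := by noncomm_ring
      _ = (P * P⁻¹) * g * (P * P⁻¹) := by rw [mul_nonsing_inv _ hPu]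
      _ = _ := by noncomm_ring
  rw [hg', hLU]
  calc P * (fromBlocks A1 0 c (A1ᴴ)⁻¹ * fromBlocks A2 b 0 (A2ᴴ)⁻¹) * P⁻¹ =
        P * fromBlocks A1 0 c (A1ᴴ)⁻¹ * 1 * fromBlocks A2 b 0 (A2ᴴ)⁻¹ * P⁻¹ := by noncomm_ring
    _ = P * fromBlocks A1 0 c (A1ᴴ)⁻¹ * (P⁻¹ * P) * fromBlocks A2 b 0 (A2ᴴ)⁻¹ * P⁻¹ := by
        rw [nonsing_inv_mul _ hPu]
    _ = _ := by noncomm_ring
-- END ba

-- BEGIN bb
/-- an isometry conjugate to `XO B` -/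
private theorem bb_step {P0 P v L : Matrix (Jx n) (Jx n) K} {B : Matrix (Fin n) (Fin n) K}
    (hP0 : P0ᴴ * P0 = JO K n) (hP : Pᴴ * P = JO K n) (hB : Seed B) (hv : OGrpB_JU v)
    (hL : L * v = v * XO B) : ∃ s : Matrix (Jx n) (Jx n) K, sᴴ * s = 1 ∧ s.det = 1 ∧
      s * xo P0 B * s⁻¹ = P * L * P⁻¹ := by
  have hP0u := OGrpB_P_unit hP0
  have hPu := OGrpB_P_unit hP
  obtain ⟨s, h1, h2, h3⟩ := det_adj_odd hP0 hB (OGrpB_unitary hP hP0 hv)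
  refine ⟨s, h1, h2, h3.trans ?_⟩
  rw [GrpB_solve hv.2 hL]
  unfold xo
  rw [Matrix.mul_inv_rev, Matrix.mul_inv_rev, nonsing_inv_nonsing_inv _ hP0u]
  calc P * v * P0⁻¹ * (P0 * XO B * P0⁻¹) * (P0 * (v⁻¹ * P⁻¹)) =
        P * v * (P0⁻¹ * P0) * XO B * (P0⁻¹ * P0) * v⁻¹ * P⁻¹ := by noncomm_ring
    _ = P * (v * XO B * v⁻¹) * P⁻¹ := by
        rw [nonsing_inv_mul _ hP0u]
        noncomm_ring

/-- the Sylvester condition for `R (Bᴴ)⁻¹ R⁻¹` -/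
private theorem bb_syl {B R A2 : Matrix (Fin n) (Fin n) K} (hb : IsUnit B.det)
    (hsyl : ∀ Z : Matrix (Fin n) (Fin n) K, Bᴴ * Z * B = Z → Z = 0) (hR : IsUnit R.det)
    (hA2 : A2 = R * (Bᴴ)⁻¹ * R⁻¹) :
    ∀ Z : Matrix (Fin n) (Fin n) K, A2 * Z * A2ᴴ = Z → Z = 0 := by
  intro Z hZ
  have hbc := GrpB_conj_unit hb
  have hRc := GrpB_conj_unit hR
  obtain ⟨W, hW⟩ : ∃ W, W = R⁻¹ * Z * (R⁻¹)ᴴ := ⟨_, rfl⟩
  have hRR : (R⁻¹)ᴴ * Rᴴ = 1 := by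
    rw [← conjTranspose_mul, mul_nonsing_inv _ hR, conjTranspose_one]
  have hRR2 : Rᴴ * (R⁻¹)ᴴ = 1 := by
    rw [← conjTranspose_mul, nonsing_inv_mul _ hR, conjTranspose_one]
  have hZW : Z = R * W * Rᴴ := by
    rw [hW]
    calc Z = 1 * Z * 1 := by noncomm_ring
      _ = (R * R⁻¹) * Z * ((R⁻¹)ᴴ * Rᴴ) := by rw [mul_nonsing_inv _ hR, hRR]
      _ = _ := by noncomm_ring
  have h0 : A2ᴴ = (R⁻¹)ᴴ * B⁻¹ * Rᴴ := by
    rw [hA2, conjTranspose_mul, conjTranspose_mul, conjTranspose_nonsing_inv (Bᴴ),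
      conjTranspose_conjTranspose, Matrix.mul_assoc]
  have h1 : W = (Bᴴ)⁻¹ * W * B⁻¹ := by
    calc W = R⁻¹ * (A2 * Z * A2ᴴ) * (R⁻¹)ᴴ := by rw [hZ, hW]
      _ = (R⁻¹ * R) * (Bᴴ)⁻¹ * (R⁻¹ * Z * (R⁻¹)ᴴ) * B⁻¹ * (Rᴴ * (R⁻¹)ᴴ) := by
          rw [h0, hA2]; noncomm_ring
      _ = (Bᴴ)⁻¹ * W * B⁻¹ := by
          rw [nonsing_inv_mul _ hR, hRR2, ← hW]; noncomm_ring
  have h2 : Bᴴ * W * B = W := by
    calc Bᴴ * W * B = Bᴴ * ((Bᴴ)⁻¹ * W * B⁻¹) * B := by rw [← h1]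
      _ = (Bᴴ * (Bᴴ)⁻¹) * W * (B⁻¹ * B) := by noncomm_ring
      _ = W := by
          rw [mul_nonsing_inv _ hbc, nonsing_inv_mul _ hb, Matrix.one_mul, Matrix.mul_one]
  rw [hZW, hsyl W h2, Matrix.mul_zero, Matrix.zero_mul]

/-- MODULE bb. The same for `main_block_odd` (ThU/OGrpB.lean); `hdB`: `det B = 1`, so `det (A1 * A2) = 1` (this is what `fac_odd` needs).  `u3 = fromBlocks JJ 0 0 1` (`OGrpB_JU_ext`).
`A2 - 1` is invertible: `(Bᴴ)⁻¹ - 1 = (Bᴴ)⁻¹ (1 - B)ᴴ`. -/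
theorem main_blk_odd (hK : ∃ x : K, star x ≠ x) {P0 P g : Matrix (Jx n) (Jx n) K}
    {B Q R : Matrix (Fin n) (Fin n) K} (hP0 : P0ᴴ * P0 = JO K n) (hP : Pᴴ * P = JO K n)
    (hB : Seed B) (hdB : B.det = 1) (hB1 : IsUnit (B - 1).det) (hg : gᴴ * g = 1) (hgd : g.det = 1)
    (hQ : IsUnit Q.det) (hR : IsUnit R.det)
    (ha : (P⁻¹ * g * P).toBlocks₁₁.toBlocks₁₁ = Q * B * Q⁻¹ * (R * (Bᴴ)⁻¹ * R⁻¹)) :
    ∃ s t : Matrix (Jx n) (Jx n) K, sᴴ * s = 1 ∧ s.det = 1 ∧ tᴴ * t = 1 ∧ t.det = 1 ∧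
      g = s * xo P0 B * s⁻¹ * (t * xo P0 B * t⁻¹) := by
  have hPu := OGrpB_P_unit hP
  have hb := hB.unit
  have hbc := GrpB_conj_unit hb
  have hbci : IsUnit ((Bᴴ)⁻¹).det := by
    rw [det_nonsing_inv, Ring.inverse_eq_inv']
    exact hbc.inv
  have hQi : IsUnit (Q⁻¹).det := by
    rw [det_nonsing_inv, Ring.inverse_eq_inv']
    exact hQ.inv
  have hRi : IsUnit (R⁻¹).det := by
    rw [det_nonsing_inv, Ring.inverse_eq_inv']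
    exact hR.inv
  obtain ⟨M, hM⟩ : ∃ M, M = P⁻¹ * g * P := ⟨_, rfl⟩
  rw [← hM] at ha
  have hMJ : Mᴴ * JO K n * M = JO K n := by
    have hPP : (P⁻¹)ᴴ * Pᴴ = 1 := by
      rw [← conjTranspose_mul, mul_nonsing_inv _ hPu, conjTranspose_one]
    rw [hM, conjTranspose_mul, conjTranspose_mul]
    calc Pᴴ * (gᴴ * (P⁻¹)ᴴ) * JO K n * (P⁻¹ * g * P) =
          Pᴴ * (gᴴ * (P⁻¹)ᴴ) * (Pᴴ * P) * (P⁻¹ * g * P) := by rw [hP]
      _ = Pᴴ * gᴴ * ((P⁻¹)ᴴ * Pᴴ) * (P * P⁻¹) * g * P := by noncomm_ring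
      _ = Pᴴ * (gᴴ * g) * P := by
          rw [hPP, mul_nonsing_inv _ hPu]
          noncomm_ring
      _ = JO K n := by rw [hg, Matrix.mul_one, hP]
  -- the blocks
  obtain ⟨A1, hA1⟩ : ∃ A1, A1 = Q * B * Q⁻¹ := ⟨_, rfl⟩
  obtain ⟨A2, hA2⟩ : ∃ A2, A2 = R * (Bᴴ)⁻¹ * R⁻¹ := ⟨_, rfl⟩
  have hA1u : IsUnit A1.det := by
    rw [hA1, det_mul, det_mul]
    exact (hQ.mul hb).mul hQi
  have hA2u : IsUnit A2.det := by
    rw [hA2, det_mul, det_mul]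
    exact (hR.mul hbci).mul hRi
  have hM11 : M.toBlocks₁₁.toBlocks₁₁ = A1 * A2 := by
    rw [ha, hA1, hA2]
  have hMd : M.det = 1 := by
    rw [hM, det_mul, det_mul, hgd, mul_one, det_nonsing_inv, Ring.inverse_eq_inv']
    exact inv_mul_cancel₀ hPu.ne_zero
  have hdBc : (Bᴴ).det = 1 := by rw [det_conjTranspose, hdB, star_one]
  have hdA : (A1 * A2).det = 1 := by
    have hd1 : A1.det = 1 := by
      rw [hA1, det_mul, det_mul, det_nonsing_inv, Ring.inverse_eq_inv', hdB, mul_one]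
      exact mul_inv_cancel₀ hQ.ne_zero
    have hd2 : A2.det = 1 := by
      rw [hA2, det_mul, det_mul, det_nonsing_inv, det_nonsing_inv, Ring.inverse_eq_inv', hdBc,
        inv_one, mul_one]
      exact mul_inv_cancel₀ hR.ne_zero
    rw [det_mul, hd1, hd2, mul_one]
  have hA11 : IsUnit (A1 - 1).det := by
    have e : A1 - 1 = Q * (B - 1) * Q⁻¹ := by
      rw [Matrix.mul_sub, Matrix.sub_mul, Matrix.mul_one, mul_nonsing_inv _ hQ, hA1]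
    rw [e, det_mul, det_mul]
    exact (hQ.mul hB1).mul hQi
  have hA21 : IsUnit (A2 - 1).det := by
    have e : A2 - 1 = R * ((Bᴴ)⁻¹ * (1 - B)ᴴ) * R⁻¹ := by
      rw [conjTranspose_sub, conjTranspose_one, Matrix.mul_sub, Matrix.mul_one,
        nonsing_inv_mul _ hbc, Matrix.mul_sub, Matrix.sub_mul, Matrix.mul_one,
        mul_nonsing_inv _ hR, hA2]
    have e2 : (1 - B).det = (-1) ^ n * (B - 1).det := by
      rw [← neg_sub B 1, det_neg, Fintype.card_fin]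
    have e3 : IsUnit (((1 - B)ᴴ).det) := by
      apply GrpB_conj_unit
      rw [e2]
      exact (isUnit_one.neg.pow n).mul hB1
    rw [e, det_mul, det_mul, det_mul]
    exact (hR.mul (hbci.mul e3)).mul hRi
  obtain ⟨b, c, β, r, ρ, p, hL, hU, hLU⟩ := fac_odd hMJ hMd hA1u hA2u hM11
    (by rw [hdA, star_one])
  -- the lower factor
  have hs1 : ∀ Z : Matrix (Fin n) (Fin n) K, A1ᴴ * Z * A1 = Z → Z = 0 := by
    intro Z hZ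
    have h1 : Bᴴ * (Qᴴ * Z * Q) * B = Qᴴ * Z * Q := by
      calc Bᴴ * (Qᴴ * Z * Q) * B = 1 * Bᴴ * Qᴴ * Z * Q * B * 1 := by noncomm_ring
        _ = (Q⁻¹ * Q)ᴴ * Bᴴ * Qᴴ * Z * Q * B * (Q⁻¹ * Q) := by
            rw [nonsing_inv_mul _ hQ, conjTranspose_one]
        _ = Qᴴ * (A1ᴴ * Z * A1) * Q := by
            rw [hA1, conjTranspose_mul, conjTranspose_mul, conjTranspose_mul]; noncomm_ring
        _ = Qᴴ * Z * Q := by rw [hZ]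
    have h3 := hB.syl _ h1
    have hQc := GrpB_conj_unit hQ
    calc Z = (Qᴴ)⁻¹ * (Qᴴ * Z * Q) * Q⁻¹ := by
          rw [Matrix.mul_assoc Qᴴ, nonsing_inv_mul_cancel_left _ _ hQc,
            mul_nonsing_inv_cancel_right _ _ hQ]
      _ = 0 := by rw [h3, Matrix.mul_zero, Matrix.zero_mul]
  obtain ⟨u1, hu1, hu1u, hu1e⟩ := unip_low_odd hK hA1u hA11 hs1 hL
  -- the upper factor
  have hs2 : ∀ Z : Matrix (Fin n) (Fin n) K, A2 * Z * A2ᴴ = Z → Z = 0 :=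
    bb_syl hb hB.syl hR hA2
  obtain ⟨u2, hu2, hu2u, hu2e⟩ := unip_up_odd hK hA2u hA21 hs2 hU
  obtain ⟨w, hw⟩ : ∃ w : Matrix (Jx n) (Jx n) K, w = fromBlocks (JJ K n) 0 0 1 := ⟨_, rfl⟩
  have hwu : OGrpB_JU w := by
    rw [hw]
    exact OGrpB_JU_ext (GrpB_JU_JJ (K := K) (n := n)).1 (GrpB_JU_JJ (K := K) (n := n)).2
  have h2 : XJ (Bᴴ)⁻¹ * JJ K n = JJ K n * XJ B := by
    unfold XJ JJ
    rw [fromBlocks_multiply, fromBlocks_multiply]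
    simp only [Matrix.mul_zero, Matrix.zero_mul, add_zero, zero_add, Matrix.mul_one,
      Matrix.one_mul]
    rw [conjTranspose_nonsing_inv, conjTranspose_conjTranspose, nonsing_inv_nonsing_inv _ hb]
  have h2' : XO (Bᴴ)⁻¹ * w = w * XO B := by
    rw [hw]
    unfold XO
    rw [fromBlocks_multiply, fromBlocks_multiply]
    simp only [Matrix.mul_zero, Matrix.zero_mul, add_zero, zero_add, Matrix.mul_one, h2]
  have hv1 : OGrpB_JU (u1 * XO Q) := OGrpB_JU_mul ⟨hu1, hu1u⟩ (OGrpB_JU_XO hQ)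
  have hv2 : OGrpB_JU (u2 * XO R * w) :=
    OGrpB_JU_mul (OGrpB_JU_mul ⟨hu2, hu2u⟩ (OGrpB_JU_XO hR)) hwu
  have he1 : LO A1 c r p 1 * (u1 * XO Q) = u1 * XO Q * XO B := by
    rw [← Matrix.mul_assoc, hu1e, Matrix.mul_assoc, Matrix.mul_assoc, OGrpB_XO_mul, OGrpB_XO_mul,
      hA1, nonsing_inv_mul_cancel_right _ _ hQ]
  have he2 : UO A2 b β ρ * (u2 * XO R * w) = u2 * XO R * w * XO B := by
    calc UO A2 b β ρ * (u2 * XO R * w) =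
          (UO A2 b β ρ * u2) * XO R * w := by noncomm_ring
      _ = u2 * (XO A2 * XO R) * w := by rw [hu2e]; noncomm_ring
      _ = u2 * (XO R * XO (Bᴴ)⁻¹) * w := by
          rw [OGrpB_XO_mul, OGrpB_XO_mul, hA2, nonsing_inv_mul_cancel_right _ _ hR]
      _ = u2 * XO R * (XO (Bᴴ)⁻¹ * w) := by noncomm_ring
      _ = u2 * XO R * w * XO B := by rw [h2']; noncomm_ring
  obtain ⟨s, hs, hsd, hse⟩ := bb_step hP0 hP hB hv1 he1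
  obtain ⟨t, ht, htd, hte⟩ := bb_step hP0 hP hB hv2 he2
  refine ⟨s, t, hs, hsd, ht, htd, ?_⟩
  rw [hse, hte]
  have hg' : g = P * M * P⁻¹ := by
    rw [hM]
    calc g = 1 * g * 1 := by noncomm_ring
      _ = (P * P⁻¹) * g * (P * P⁻¹) := by rw [mul_nonsing_inv _ hPu]
      _ = _ := by noncomm_ring
  rw [hg', hLU]
  calc P * (LO A1 c r p 1 * UO A2 b β ρ) * P⁻¹ =
        P * LO A1 c r p 1 * 1 * UO A2 b β ρ * P⁻¹ := by noncomm_ring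
    _ = P * LO A1 c r p 1 * (P⁻¹ * P) * UO A2 b β ρ * P⁻¹ := by
        rw [nonsing_inv_mul _ hPu]
    _ = _ := by noncomm_ring
-- END bb

end ThU
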