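import Pool.Agent.ThV.Sd

/-! # The 2 x 2 computations -/

namespace ThU
open Matrix Polynomial Module

variable {K : Type*} [Field K] [StarRing K]

/-- a matrix of determinant 1 which is not a scalar -/
def Ns (m : Matrix (Fin 2) (Fin 2) K) : Prop := m.det = 1 ∧ ∀ c : K, m ≠ c • (1 : Matrix (Fin 2) (Fin 2) K)

theorem Ns.conj {m S : Matrix (Fin 2) (Fin 2) K} (hS : IsUnit S.det) (h : Ns m) : Ns (S * m * S⁻¹) := by
  refine ⟨?_, fun c hc => h.2 c ?_⟩
  · rw [det_mul, det_mul, h.1, mul_one, ← det_mul, mul_nonsing_inv _ hS, det_one]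
  · calc m = S⁻¹ * (S * m * S⁻¹) * S := by
          rw [Matrix.mul_assoc, Matrix.mul_assoc, Matrix.mul_assoc, nonsing_inv_mul _ hS, Matrix.mul_one, nonsing_inv_mul_cancel_left _ _ hS]
      _ = c • (1 : Matrix (Fin 2) (Fin 2) K) := by
          rw [hc, Matrix.mul_smul, Matrix.mul_one, Matrix.smul_mul, nonsing_inv_mul _ hS]

-- BEGIN ca
/-- MODULE ca. (even) `c` invertible. `A = a c⁻¹` satisfies `Aᴴ = -A`.  `e` as in `fld_eps`; `δ = (det c)⁻¹` is fixed by `star` (`hF` for `t = -A + e • 1`: `det (e • c) = e ^ 2 det c`, `star (e ^ 2) = e ^ 2`).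
For `y : K` put `A' = !![e, y; - star y, e * z]`, `z = (δ - y * star y) / e ^ 2`: `A'ᴴ = -A'`, `det A' = δ`; `t = A' - A`, `a + t * c = A' * c`.  If `A' * c = μ • 1` for `y = 0` and `y = 1` (with `μ0, μ1`): `A' = μ • c⁻¹`, the entries `(0, 0)` give
`μ0 = μ1`, the entries `(0, 1)` give `0 = 1`: contradiction. -/
theorem core4_inv (hK : ∃ x : K, star x ≠ x) {a c : Matrix (Fin 2) (Fin 2) K} (hac : aᴴ * c + cᴴ * a = 0) (hc : c.det ≠ 0)
    (hF : ∀ t : Matrix (Fin 2) (Fin 2) K, tᴴ = -t → star (a + t * c).det = (a + t * c).det) :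
    ∃ t : Matrix (Fin 2) (Fin 2) K, tᴴ = -t ∧ Ns (a + t * c) := by
  obtain ⟨e, he, hse⟩ := fld_eps hK
  have hcu : IsUnit c.det := isUnit_iff_ne_zero.mpr hc
  have hcc : c * c⁻¹ = 1 := mul_nonsing_inv _ hcu
  have hcc' : c⁻¹ * c = 1 := nonsing_inv_mul _ hcu
  have hch : (c⁻¹)ᴴ * cᴴ = 1 := by rw [← conjTranspose_mul, hcc, conjTranspose_one]
  have hA : (a * c⁻¹)ᴴ = -(a * c⁻¹) := by
    have h1 : (c⁻¹)ᴴ * (aᴴ * c + cᴴ * a) * c⁻¹ = 0 := by rw [hac, Matrix.mul_zero, Matrix.zero_mul]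
    have h2 : (c⁻¹)ᴴ * (aᴴ * c + cᴴ * a) * c⁻¹ = (c⁻¹)ᴴ * aᴴ * (c * c⁻¹) + (c⁻¹)ᴴ * cᴴ * (a * c⁻¹) := by
      simp only [Matrix.mul_add, Matrix.add_mul, Matrix.mul_assoc]
    rw [h2, hcc, hch, Matrix.mul_one, Matrix.one_mul, ← conjTranspose_mul] at h1
    exact eq_neg_of_add_eq_zero_left h1
  have hstep : ∀ A' : Matrix (Fin 2) (Fin 2) K, a + (A' - a * c⁻¹) * c = A' * c := by
    intro A'
    rw [Matrix.sub_mul, Matrix.mul_assoc a, hcc', Matrix.mul_one]
    abel
  have hdc : star c.det = c.det := by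
    have ht : (e • (1 : Matrix (Fin 2) (Fin 2) K) - a * c⁻¹)ᴴ = -(e • (1 : Matrix (Fin 2) (Fin 2) K) - a * c⁻¹) := by
      rw [conjTranspose_sub, conjTranspose_smul, conjTranspose_one, hA, hse, neg_smul]
      abel
    have h1 := hF _ ht
    rw [hstep, det_mul, det_smul, det_one, Fintype.card_fin, mul_one, star_mul', star_pow, hse, neg_sq] at h1
    exact mul_left_cancel₀ (pow_ne_zero 2 he) h1
  have hkey : ∀ y : K, (∃ μ : K, !![e, y; -star y, e * ((c.det⁻¹ - y * star y) / e ^ 2)] * c = μ • (1 : Matrix (Fin 2) (Fin 2) K)) ∨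
      ∃ t : Matrix (Fin 2) (Fin 2) K, tᴴ = -t ∧ Ns (a + t * c) := by
    intro y
    by_cases hs : ∃ μ : K, !![e, y; -star y, e * ((c.det⁻¹ - y * star y) / e ^ 2)] * c = μ • (1 : Matrix (Fin 2) (Fin 2) K)
    · exact Or.inl hs
    · refine Or.inr ⟨!![e, y; -star y, e * ((c.det⁻¹ - y * star y) / e ^ 2)] - a * c⁻¹, ?_, ?_, fun μ hμ => hs ⟨μ, ?_⟩⟩
      · rw [conjTranspose_sub, hA]
        have h3 : (!![e, y; -star y, e * ((c.det⁻¹ - y * star y) / e ^ 2)] : Matrix (Fin 2) (Fin 2) K)ᴴ =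
            -!![e, y; -star y, e * ((c.det⁻¹ - y * star y) / e ^ 2)] := by
          have hz : star ((c.det⁻¹ - y * star y) / e ^ 2) = (c.det⁻¹ - y * star y) / e ^ 2 := by
            rw [star_div₀, star_sub, star_inv₀, hdc, star_mul', star_star, star_pow, hse, neg_sq, mul_comm (star y) y]
          ext i j
          fin_cases i <;> fin_cases j
          · simp [conjTranspose_apply, hse]
          · simp [conjTranspose_apply]
          · simp [conjTranspose_apply]
          · simp only [conjTranspose_apply, Matrix.neg_apply]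
            simp [hse, hz, star_mul']
        rw [h3]
        abel
      · rw [hstep, det_mul, det_fin_two_of]
        field_simp
        ring
      · rw [← hstep, hμ]
  rcases hkey 0 with ⟨μ0, h0⟩ | h
  · rcases hkey 1 with ⟨μ1, h1⟩ | h
    · exfalso
      apply hc
      have a01 := congrFun (congrFun h0 0) 1
      have b01 := congrFun (congrFun h1 0) 1
      simp [Matrix.mul_apply, Fin.sum_univ_two] at a01 b01
      have hc01 : c 0 1 = 0 := by
        rcases a01 with h | h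
        · exact absurd h he
        · exact h
      rw [hc01, mul_zero, zero_add] at b01
      rw [det_fin_two, hc01, b01]
      ring
    · exact h
  · exact h
-- END ca

-- BEGIN cb
private theorem cb_skew {e x y z : K} (he : star e = -e) (hx : star x = x) (hz : star z = z) :
    (!![e * x, y; -star y, e * z] : Matrix (Fin 2) (Fin 2) K)ᴴ = -!![e * x, y; -star y, e * z] := by
  ext i j
  fin_cases i <;> fin_cases j
  · simp [conjTranspose_apply, star_mul', he, hx]
  · simp [conjTranspose_apply]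
  · simp [conjTranspose_apply]
  · simp [conjTranspose_apply, star_mul', he, hz]

private theorem cb_ent {a c : Matrix (Fin 2) (Fin 2) K} (h0 : c 0 0 = 0) (h1 : c 1 0 = 0) (e x y z : K) :
    (a + !![e * x, y; -star y, e * z] * c) 0 0 = a 0 0 ∧
    (a + !![e * x, y; -star y, e * z] * c) 1 0 = a 1 0 ∧
    (a + !![e * x, y; -star y, e * z] * c) 0 1 = a 0 1 + (e * x * c 0 1 + y * c 1 1) ∧
    (a + !![e * x, y; -star y, e * z] * c) 1 1 = a 1 1 + (-star y * c 0 1 + e * z * c 1 1) := by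
  refine ⟨?_, ?_, ?_, ?_⟩ <;> rw [Matrix.add_apply, Matrix.mul_apply, Fin.sum_univ_two] <;>
    simp [h0, h1]

private theorem cb_det {a c : Matrix (Fin 2) (Fin 2) K} (h0 : c 0 0 = 0) (h1 : c 1 0 = 0) (e x y z : K) :
    (a + !![e * x, y; -star y, e * z] * c).det =
      a 0 0 * (a 1 1 + (-star y * c 0 1 + e * z * c 1 1)) - (a 0 1 + (e * x * c 0 1 + y * c 1 1)) * a 1 0 := by
  obtain ⟨e1, e2, e3, e4⟩ := cb_ent (a := a) h0 h1 e x y z
  rw [Matrix.det_fin_two, e1, e2, e3, e4]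

private theorem cb_ns1 {m : Matrix (Fin 2) (Fin 2) K} (h : m 1 0 ≠ 0) :
    ∀ d : K, m ≠ d • (1 : Matrix (Fin 2) (Fin 2) K) := by
  intro d hd
  apply h
  rw [hd]
  simp

private theorem cb_ns2 {m : Matrix (Fin 2) (Fin 2) K} (h : m 0 1 ≠ 0) :
    ∀ d : K, m ≠ d • (1 : Matrix (Fin 2) (Fin 2) K) := by
  intro d hd
  apply h
  rw [hd]
  simp

/-- MODULE cb. (even) the first column of `c` is zero, the second column `(v0, v1)` is not zero, the first column `(a00, a10)` of `a` is not zero. `hac` entries: `(0, 1)`: `star a00 * v0 + star a10 * v1 = 0`; `(1, 1)`: `star a01 v0 + star a11 v1 + star v0 a01 + star v1 a11 = 0`.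
Let `t = !![e x, y; - star y, e z]`, `star x = x`, `star z = z`: `m = a + t c` has first column `(a00, a10)`, second column `w0 = a01 + e x v0 + y v1`, `w1 = a11 - star y v0 + e z v1`.
Case `v1 ≠ 0`: `a00 ≠ 0`, `a10 = - a00 * star v0 / star v1`, `det m = (a00 / star v1) * (star v0 * w0 + star v1 * w1)`; take `x = 0`, `y = 0` if `a10 ≠ 0` (then `m` is not a scalar), `y = (1 - a01) / v1` if `a10 = 0` (then `v0 = 0`, `w0 = 1`), and
`z = (star v1 / a00 - (star v0 * a01 + star v1 * a11) - (y * star v0 * v1 - star y * v0 * star v1)) / (e * v1 * star v1)`; `star z = z` because `star v1 / a00` is skew: `hF` for `z = 0` and `z = 1` gives that `(a00 / star v1) * e * v1 * star v1` is fixed by `star`.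
Case `v1 = 0`: `a00 = 0`, `a10 ≠ 0`: `m` is not a scalar; `det m = - a10 * w0`, `y = z = 0`, `x = (- 1 / a10 - a01) / (e v0)`, `star x = x` in the same way. -/
theorem core4_sing (hK : ∃ x : K, star x ≠ x) {a c : Matrix (Fin 2) (Fin 2) K} (hac : aᴴ * c + cᴴ * a = 0) (h0 : c 0 0 = 0) (h1 : c 1 0 = 0)
    (hv : c 0 1 ≠ 0 ∨ c 1 1 ≠ 0) (ha : a 0 0 ≠ 0 ∨ a 1 0 ≠ 0)
    (hF : ∀ t : Matrix (Fin 2) (Fin 2) K, tᴴ = -t → star (a + t * c).det = (a + t * c).det) :
    ∃ t : Matrix (Fin 2) (Fin 2) K, tᴴ = -t ∧ Ns (a + t * c) := by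
  obtain ⟨e, he, hes⟩ := fld_eps hK
  obtain ⟨a00, ha00⟩ : ∃ z, z = a 0 0 := ⟨_, rfl⟩
  obtain ⟨a01, ha01⟩ : ∃ z, z = a 0 1 := ⟨_, rfl⟩
  obtain ⟨a10, ha10⟩ : ∃ z, z = a 1 0 := ⟨_, rfl⟩
  obtain ⟨a11, ha11⟩ : ∃ z, z = a 1 1 := ⟨_, rfl⟩
  obtain ⟨v0, hv0⟩ : ∃ z, z = c 0 1 := ⟨_, rfl⟩
  obtain ⟨v1, hv1⟩ : ∃ z, z = c 1 1 := ⟨_, rfl⟩
  have e01 : star a00 * v0 + star a10 * v1 = 0 := by
    have h := congrFun (congrFun hac 0) 1
    simp only [Matrix.add_apply, Matrix.mul_apply, Fin.sum_univ_two, conjTranspose_apply, h0, h1,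
      star_zero, zero_mul, add_zero, Matrix.zero_apply, ← ha00, ← ha10, ← hv0, ← hv1] at h
    exact h
  have e11 : star a01 * v0 + star a11 * v1 + (star v0 * a01 + star v1 * a11) = 0 := by
    have h := congrFun (congrFun hac 1) 1
    simp only [Matrix.add_apply, Matrix.mul_apply, Fin.sum_univ_two, conjTranspose_apply,
      Matrix.zero_apply, ← ha01, ← ha11, ← hv0, ← hv1] at h
    exact h
  have e10 : a00 * star v0 + a10 * star v1 = 0 := by
    have h := congrArg star e01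
    simpa [star_mul', mul_comm] using h
  rw [← ha00, ← ha10] at ha
  rw [← hv0, ← hv1] at hv
  by_cases hv1z : v1 = 0
  · -- the case v1 = 0
    have hv0n : v0 ≠ 0 := by
      rcases hv with h | h
      · exact h
      · exact absurd hv1z h
    have hv0s : star v0 ≠ 0 := by simpa using hv0n
    have ha0 : a00 = 0 := by
      rw [hv1z, star_zero, mul_zero, add_zero] at e10
      exact (mul_eq_zero.1 e10).resolve_right hv0s
    have ha1 : a10 ≠ 0 := by
      rcases ha with h | h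
      · exact absurd ha0 h
      · exact h
    have ha1s : star a10 ≠ 0 := by simpa using ha1
    have k0 := hF !![e * 0, 0; -star 0, e * 0] (cb_skew hes (star_zero K) (star_zero K))
    have k1 := hF !![e * 1, 0; -star 0, e * 0] (cb_skew hes (star_one K) (star_zero K))
    rw [cb_det h0 h1, ← ha00, ← ha01, ← ha10, ← ha11, ← hv0, ← hv1, ha0, hv1z] at k0 k1
    simp only [mul_zero, zero_mul, add_zero, star_zero, neg_zero, zero_sub, star_neg, star_mul',
      mul_one, star_add, hes] at k0 k1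
    have hk : star a10 * star v0 = - (a10 * v0) := by
      have h2 : e * (star a10 * star v0 + a10 * v0) = 0 := by
        linear_combination k1 - k0
      have h3 := (mul_eq_zero.1 h2).resolve_left he
      linear_combination h3
    have e11' : star a01 * v0 + star v0 * a01 = 0 := by
      rw [hv1z] at e11
      simpa using e11
    obtain ⟨x, hx⟩ : ∃ x, x = (-a10⁻¹ - a01) / (e * v0) := ⟨_, rfl⟩
    have hxe : e * x * v0 = -a10⁻¹ - a01 := by
      rw [hx]
      field_simp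
    have hxs : star x = x := by
      have h2 : star (e * x * v0) = star (-a10⁻¹ - a01) := by rw [hxe]
      rw [star_mul', star_mul', hes, star_sub, star_neg, star_inv₀] at h2
      have h3 : e * v0 * star v0 * (star x - x) = 0 := by
        have h4 : v0 * (star a10)⁻¹ + star v0 * a10⁻¹ = 0 := by
          field_simp
          linear_combination hk
        linear_combination (-v0) * h2 - star v0 * hxe + h4 + e11'
      have h4 : e * v0 * star v0 ≠ 0 := mul_ne_zero (mul_ne_zero he hv0n) hv0s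
      exact sub_eq_zero.1 ((mul_eq_zero.1 h3).resolve_left h4)
    refine ⟨!![e * x, 0; -star 0, e * 0], cb_skew hes hxs (star_zero K), ?_, ?_⟩
    · rw [cb_det h0 h1, ← ha00, ← ha01, ← ha10, ← ha11, ← hv0, ← hv1, ha0, hxe]
      field_simp
      ring
    · apply cb_ns1
      rw [(cb_ent (a := a) h0 h1 e x 0 0).2.1, ← ha10]
      exact ha1
  · -- the case v1 ≠ 0
    have hv1s : star v1 ≠ 0 := by simpa using hv1z
    have ha0 : a00 ≠ 0 := by
      intro h
      rw [h, zero_mul, zero_add] at e10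
      have h2 := (mul_eq_zero.1 e10).resolve_right hv1s
      rcases ha with h3 | h3
      · exact h3 h
      · exact h3 h2
    have ha0s : star a00 ≠ 0 := by simpa using ha0
    have k0 := hF !![e * 0, 0; -star 0, e * 0] (cb_skew hes (star_zero K) (star_zero K))
    have k1 := hF !![e * 0, 0; -star 0, e * 1] (cb_skew hes (star_zero K) (star_one K))
    rw [cb_det h0 h1, ← ha00, ← ha01, ← ha10, ← ha11, ← hv0, ← hv1] at k0 k1
    simp only [mul_zero, zero_mul, add_zero, star_zero, neg_zero, zero_add, star_sub, star_mul',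
      mul_one, star_add, hes] at k0 k1
    have hk : star a00 * star v1 = - (a00 * v1) := by
      have h2 : e * (star a00 * star v1 + a00 * v1) = 0 := by
        linear_combination k0 - k1
      have h3 := (mul_eq_zero.1 h2).resolve_left he
      linear_combination h3
    -- the number y
    obtain ⟨y, hy⟩ : ∃ y : K, a10 ≠ 0 ∨ a01 + y * v1 ≠ 0 := by
      by_cases h : a10 = 0
      · refine ⟨(1 - a01) / v1, Or.inr ?_⟩
        rw [div_mul_cancel₀ _ hv1z]
        simp
      · exact ⟨0, Or.inl h⟩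
    obtain ⟨z, hz⟩ : ∃ z, z = (star v1 / a00 - (star v0 * a01 + star v1 * a11) -
      (y * star v0 * v1 - star y * v0 * star v1)) / (e * v1 * star v1) := ⟨_, rfl⟩
    have hze : e * z * v1 * star v1 = star v1 / a00 - (star v0 * a01 + star v1 * a11) -
      (y * star v0 * v1 - star y * v0 * star v1) := by
      have h4 : e * v1 * star v1 ≠ 0 := mul_ne_zero (mul_ne_zero he hv1z) hv1s
      rw [hz]
      field_simp
    have hzs : star z = z := by
      have h2 := congrArg star hze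
      simp only [star_mul', star_sub, star_add, star_star, hes, star_div₀] at h2
      have h4 : v1 / star a00 + star v1 / a00 = 0 := by
        field_simp
        linear_combination hk
      have h3 : e * v1 * star v1 * (star z - z) = 0 := by
        linear_combination (-1) * h2 - hze - h4 + e11
      have h5 : e * v1 * star v1 ≠ 0 := mul_ne_zero (mul_ne_zero he hv1z) hv1s
      exact sub_eq_zero.1 ((mul_eq_zero.1 h3).resolve_left h5)
    have ha10' : a10 = -(a00 * star v0) / star v1 := by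
      rw [eq_div_iff hv1s]
      linear_combination e10
    refine ⟨!![e * 0, y; -star y, e * z], cb_skew hes (star_zero K) hzs, ?_, ?_⟩
    · rw [cb_det h0 h1, ← ha00, ← ha01, ← ha10, ← ha11, ← hv0, ← hv1]
      have h6 : (a00 * (a11 + (-star y * v0 + e * z * v1)) -
          (a01 + (e * 0 * v0 + y * v1)) * a10) * star v1 = star v1 := by
        have h7 : a00 * (star v1 / a00) = star v1 := mul_div_cancel₀ _ ha0
        linear_combination a00 * hze + h7 - (a01 + y * v1) * e10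
      exact mul_right_cancel₀ hv1s (h6.trans (one_mul _).symm)
    · rcases hy with h | h
      · apply cb_ns1
        rw [(cb_ent (a := a) h0 h1 e 0 y z).2.1, ← ha10]
        exact h
      · apply cb_ns2
        rw [(cb_ent (a := a) h0 h1 e 0 y z).2.2.1, ← ha01, ← hv0, ← hv1, mul_zero, zero_mul,
          zero_add]
        exact h
-- END cb

-- BEGIN cc
private theorem cc_alg {A A' : Matrix (Fin 2) (Fin 2) K} {π ρ : Matrix Unit (Fin 2) K} (hA : Aᴴ + A + πᴴ * π = 0)
    (hA' : A' + A'ᴴ = -(ρᴴ * ρ)) :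
    (A' - A + (ρ - π)ᴴ * π) + (A' - A + (ρ - π)ᴴ * π)ᴴ = -((ρ - π)ᴴ * ((ρ - π)ᴴ)ᴴ) := by
  have h1 : Aᴴ = -A - πᴴ * π := by
    have : Aᴴ = (Aᴴ + A + πᴴ * π) - A - πᴴ * π := by abel
    rw [this, hA, zero_sub]
  have h2 : A'ᴴ = -(ρᴴ * ρ) - A' := by
    rw [← hA']; abel
  simp only [conjTranspose_add, conjTranspose_sub, conjTranspose_mul, conjTranspose_conjTranspose, Matrix.sub_mul, Matrix.mul_sub, h1, h2]
  abel

private theorem cc_main [Finite K] {a c : Matrix (Fin 2) (Fin 2) K} {p : Matrix Unit (Fin 2) K} (hK : ∃ x : K, star x ≠ x)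
    (hac : aᴴ * c + cᴴ * a + pᴴ * p = 0) (hc : c.det ≠ 0) {e : K} (he : e ≠ 0) (hse : star e = -e) (y : K) :
    ∃ (z : K) (t : Matrix (Fin 2) (Fin 2) K) (r : Matrix (Fin 2) Unit K), t + tᴴ = -(r * rᴴ) ∧
      a + t * c - r * p = !![e, y; -star y, z] * c ∧ (!![e, y; -star y, z] * c).det = 1 := by
  have hdc : IsUnit c.det := isUnit_iff_ne_zero.2 hc
  have hcc : c * c⁻¹ = 1 := mul_nonsing_inv c hdc
  have hcc' : c⁻¹ * c = 1 := nonsing_inv_mul c hdc
  set z : K := ((c.det)⁻¹ - y * star y) / e with hz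
  have hfix : star (-(z + star z)) = -(z + star z) := by
    rw [star_neg, star_add, star_star, add_comm]
  obtain ⟨n0, hn0⟩ := fld_norm hK (-(z + star z)) hfix
  set ρ : Matrix Unit (Fin 2) K := Matrix.of fun _ => ![0, n0] with hρ
  have hA : (a * c⁻¹)ᴴ + a * c⁻¹ + (p * c⁻¹)ᴴ * (p * c⁻¹) = 0 := by
    have e1 : (c⁻¹)ᴴ * (aᴴ * c + cᴴ * a + pᴴ * p) * c⁻¹ = 0 := by rw [hac, Matrix.mul_zero, Matrix.zero_mul]
    rw [Matrix.mul_add, Matrix.mul_add, Matrix.add_mul, Matrix.add_mul] at e1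
    have e2 : (c⁻¹)ᴴ * (aᴴ * c) * c⁻¹ = (a * c⁻¹)ᴴ := by
      rw [Matrix.mul_assoc, Matrix.mul_assoc, hcc, Matrix.mul_one, conjTranspose_mul]
    have e3 : (c⁻¹)ᴴ * (cᴴ * a) * c⁻¹ = a * c⁻¹ := by
      rw [← Matrix.mul_assoc, ← conjTranspose_mul, hcc, conjTranspose_one, Matrix.one_mul]
    have e4 : (c⁻¹)ᴴ * (pᴴ * p) * c⁻¹ = (p * c⁻¹)ᴴ * (p * c⁻¹) := by
      rw [conjTranspose_mul, Matrix.mul_assoc, Matrix.mul_assoc, Matrix.mul_assoc]
    rw [e2, e3, e4] at e1
    exact e1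
  have hA' : (!![e, y; -star y, z] : Matrix (Fin 2) (Fin 2) K) + (!![e, y; -star y, z] : Matrix (Fin 2) (Fin 2) K)ᴴ = -(ρᴴ * ρ) := by
    ext i j
    fin_cases i <;> fin_cases j
    · simp [hρ, Matrix.mul_apply, hse]
    · simp [hρ, Matrix.mul_apply]
    · simp [hρ, Matrix.mul_apply]
    · simp [hρ, Matrix.mul_apply]
      rw [mul_comm, hn0, neg_neg]
  refine ⟨z, _, _, cc_alg hA hA', ?_, ?_⟩
  · have e5 : (ρ - p * c⁻¹)ᴴ * (p * c⁻¹) * c = (ρ - p * c⁻¹)ᴴ * p := by
      rw [Matrix.mul_assoc, Matrix.mul_assoc, hcc', Matrix.mul_one]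
    rw [Matrix.add_mul, Matrix.sub_mul, Matrix.mul_assoc a, hcc', Matrix.mul_one, e5]
    abel
  · rw [det_mul, det_fin_two_of]
    have : e * z - y * -star y = (c.det)⁻¹ := by
      rw [hz]; field_simp; ring
    rw [this, inv_mul_cancel₀ hc]

/-- MODULE cc. (odd) `c` invertible. `A = a c⁻¹`, `π = p c⁻¹`: `Aᴴ + A + πᴴ π = 0`.  `δ = (det c)⁻¹`, `y ∈ {0, 1}`, `z = (δ - y * star y) / e`, `A' = !![e, y; - star y, z]`, `det A' = δ`; `n0` with `n0 * star n0 = -(z + star z)` (`fld_norm`), `ρ = (0, n0)` (a row),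
`A' + A'ᴴ = - ρᴴ ρ`.  `r = (ρ - π)ᴴ`, `t = A' - A + r * π`: `t + tᴴ = - r * rᴴ` and `a + t * c - r * p = A' * c`.  Not a scalar for `y = 0` or for `y = 1`, as in ca. -/
theorem core5_inv [Finite K] (hK : ∃ x : K, star x ≠ x) {a c : Matrix (Fin 2) (Fin 2) K} {p : Matrix Unit (Fin 2) K}
    (hac : aᴴ * c + cᴴ * a + pᴴ * p = 0) (hc : c.det ≠ 0) :
    ∃ (t : Matrix (Fin 2) (Fin 2) K) (r : Matrix (Fin 2) Unit K), t + tᴴ = -(r * rᴴ) ∧ Ns (a + t * c - r * p) := by
  obtain ⟨e, he, hse⟩ := fld_eps hK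
  have hdc : IsUnit c.det := isUnit_iff_ne_zero.2 hc
  have hcc : c * c⁻¹ = 1 := mul_nonsing_inv c hdc
  obtain ⟨z0, t0, r0, h0, h0', h0d⟩ := cc_main hK hac hc he hse 0
  obtain ⟨z1, t1, r1, h1, h1', h1d⟩ := cc_main hK hac hc he hse 1
  by_cases hs0 : ∀ μ : K, a + t0 * c - r0 * p ≠ μ • (1 : Matrix (Fin 2) (Fin 2) K)
  · exact ⟨t0, r0, h0, by rw [h0', h0d], hs0⟩
  · by_cases hs1 : ∀ μ : K, a + t1 * c - r1 * p ≠ μ • (1 : Matrix (Fin 2) (Fin 2) K)
    · exact ⟨t1, r1, h1, by rw [h1', h1d], hs1⟩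
    · exfalso
      push Not at hs0 hs1
      obtain ⟨μ0, hμ0⟩ := hs0
      obtain ⟨μ1, hμ1⟩ := hs1
      rw [h0'] at hμ0
      rw [h1'] at hμ1
      have g0 : (!![e, 0; -star 0, z0] : Matrix (Fin 2) (Fin 2) K) = μ0 • c⁻¹ := by
        have := congrArg (· * c⁻¹) hμ0
        simp only [Matrix.mul_assoc, hcc, Matrix.mul_one, Matrix.smul_mul, Matrix.one_mul] at this
        exact this
      have g1 : (!![e, 1; -star 1, z1] : Matrix (Fin 2) (Fin 2) K) = μ1 • c⁻¹ := by
        have := congrArg (· * c⁻¹) hμ1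
        simp only [Matrix.mul_assoc, hcc, Matrix.mul_one, Matrix.smul_mul, Matrix.one_mul] at this
        exact this
      have a0 : e = μ0 * c⁻¹ 0 0 := by
        have := congrFun (congrFun g0 0) 0
        simpa using this
      have a1 : e = μ1 * c⁻¹ 0 0 := by
        have := congrFun (congrFun g1 0) 0
        simpa using this
      have b0 : 0 = μ0 * c⁻¹ 0 1 := by
        have := congrFun (congrFun g0 0) 1
        simpa only [Matrix.smul_apply, smul_eq_mul, Matrix.of_apply, Matrix.cons_val_zero, Matrix.cons_val_one, Matrix.cons_val', Matrix.cons_val_fin_one] using this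
      have b1 : 1 = μ1 * c⁻¹ 0 1 := by
        have := congrFun (congrFun g1 0) 1
        simpa only [Matrix.smul_apply, smul_eq_mul, Matrix.of_apply, Matrix.cons_val_zero, Matrix.cons_val_one, Matrix.cons_val', Matrix.cons_val_fin_one] using this
      have hm1 : μ1 ≠ 0 := by
        intro h; rw [h, zero_mul] at a1; exact he a1
      have hm0 : μ0 ≠ 0 := by
        intro h; rw [h, zero_mul] at a0; exact he a0
      rcases mul_eq_zero.1 b0.symm with h | h
      · exact hm0 h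
      · rw [h, mul_zero] at b1; exact one_ne_zero b1
-- END cc

-- BEGIN cd
private theorem cd_one [Finite K] (hK : ∃ x : K, star x ≠ x) {v p x ζ : K} (hv : v ≠ 0) (h : x + star x + star p * p = 0) :
    ∃ r τ : K, τ + star τ = -(r * star r) ∧ star v * v * τ = ζ - x + star v * r * p := by
  obtain ⟨n0, hn0⟩ := fld_norm hK (-(ζ + star ζ)) (by rw [star_neg, star_add, star_star, add_comm])
  have hv' : star v ≠ 0 := fun e => hv (by rw [← star_star v, e, star_zero])
  have hN : star v * v ≠ 0 := mul_ne_zero hv' hv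
  have hr : star v * star ((n0 - p) / v) = star (n0 - p) := by rw [← star_mul', mul_div_cancel₀ _ hv]
  refine ⟨star ((n0 - p) / v), (ζ - x + star v * star ((n0 - p) / v) * p) / (star v * v), ?_, mul_div_cancel₀ _ hN⟩
  have hτ : star v * v * ((ζ - x + star v * star ((n0 - p) / v) * p) / (star v * v)) = ζ - x + star (n0 - p) * p := by
    rw [mul_div_cancel₀ _ hN, hr]
  have hτ' : star v * v * star ((ζ - x + star v * star ((n0 - p) / v) * p) / (star v * v)) = star ζ - star x + (n0 - p) * star p := by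
    have := congrArg star hτ
    simpa [star_mul', mul_comm, mul_left_comm, mul_assoc] using this
  have hn : v * ((n0 - p) / v) = n0 - p := mul_div_cancel₀ _ hv
  apply mul_left_cancel₀ hN
  rw [star_star, mul_add, hτ, hτ']
  have hR : star v * v * -(star ((n0 - p) / v) * ((n0 - p) / v)) = -(star (n0 - p) * (n0 - p)) := by
    rw [← hr]
    linear_combination (-star v * star ((n0 - p) / v)) * hn
  rw [hR, star_sub]
  linear_combination (-1) * h + hn0

private theorem cd_fin [Finite K] {a c : Matrix (Fin 2) (Fin 2) K} {p : Matrix Unit (Fin 2) K} (h0 : c 0 0 = 0) (h1 : c 1 0 = 0) (hp : p () 0 = 0)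
    {x y z τ r0 r1 : K} (hx : x + star x = -(r0 * star r0)) (hτ : τ + star τ = -(r1 * star r1)) (hyz : y + star z = -(r0 * star r1)) (hzy : z + star y = -(r1 * star r0))
    (hd : a 0 0 * (a 1 1 + z * c 0 1 + τ * c 1 1 - r1 * p () 1) - (a 0 1 + x * c 0 1 + y * c 1 1 - r0 * p () 1) * a 1 0 = 1)
    (hs : a 1 0 ≠ 0 ∨ a 0 1 + x * c 0 1 + y * c 1 1 - r0 * p () 1 ≠ 0) :
    ∃ (t : Matrix (Fin 2) (Fin 2) K) (r : Matrix (Fin 2) Unit K), t + tᴴ = -(r * rᴴ) ∧ Ns (a + t * c - r * p) := by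
  refine ⟨!![x, y; z, τ], !![r0; r1].submatrix id (fun _ => 0), ?_, ?_, ?_⟩
  · ext i j
    fin_cases i <;> fin_cases j <;> simp [Matrix.mul_apply, Matrix.conjTranspose_apply, hx, hτ, hyz, hzy]
  · rw [Matrix.det_fin_two]
    simp only [Matrix.sub_apply, Matrix.add_apply, Matrix.mul_apply, Fin.sum_univ_two, Finset.univ_unique, Finset.sum_singleton, h0, h1]
    simp only [Matrix.of_apply, Matrix.submatrix_apply, Matrix.cons_val', Matrix.cons_val_zero, Matrix.cons_val_one, Matrix.cons_val_fin_one, id, PUnit.default_eq_unit, hp]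
    linear_combination hd
  · intro μ hμ
    have e10 := congrFun (congrFun hμ 1) 0
    have e01 := congrFun (congrFun hμ 0) 1
    simp only [Matrix.sub_apply, Matrix.add_apply, Matrix.mul_apply, Fin.sum_univ_two, Finset.univ_unique, Finset.sum_singleton, h0, h1, Matrix.smul_apply] at e10 e01
    simp [hp] at e10 e01
    rcases hs with hs | hs
    · exact hs e10
    · exact hs (by linear_combination e01)

/-- MODULE cd. (odd) as cb; `p0 = 0` by the entry `(0, 0)`; `(1, 1)`: `star a01 v0 + star a11 v1 + star v0 a01 + star v1 a11 + star p1 p1 = 0`.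
Case `v1 ≠ 0`: `r = (0, r1)`, `t = !![0, y; - star y, τ]`: `w0 = a01 + y v1`, `w1 = a11 - star y v0 + τ v1 - r1 p1`.  `ζ = star v1 / a00`; `n0 * star n0 = -(ζ + star ζ)`, `r1 = star ((n0 - p1) / v1)`,
`τ = (ζ - star v0 a01 - star v1 a11 - (y star v0 v1 - star y v0 star v1) + star v1 r1 p1) / (v1 * star v1)`; then `τ + star τ = - r1 * star r1` and `star v0 w0 + star v1 w1 = ζ`, `det m = 1`; `y` as in cb.
Case `v1 = 0`: `r = (r0, 0)`, `t = !![τ, 0; 0, 0]`, `ζ = - star v0 / a10`, `r0 = star ((n0 - p1) / v0)`, `τ = (ζ - star v0 a01 + star v0 r0 p1) / (v0 * star v0)`. -/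
theorem core5_sing [Finite K] (hK : ∃ x : K, star x ≠ x) {a c : Matrix (Fin 2) (Fin 2) K} {p : Matrix Unit (Fin 2) K}
    (hac : aᴴ * c + cᴴ * a + pᴴ * p = 0) (h0 : c 0 0 = 0) (h1 : c 1 0 = 0)
    (hv : c 0 1 ≠ 0 ∨ c 1 1 ≠ 0) (ha : a 0 0 ≠ 0 ∨ a 1 0 ≠ 0) :
    ∃ (t : Matrix (Fin 2) (Fin 2) K) (r : Matrix (Fin 2) Unit K), t + tᴴ = -(r * rᴴ) ∧ Ns (a + t * c - r * p) := by
  have e00 := congrFun (congrFun hac 0) 0
  have e01 := congrFun (congrFun hac 0) 1
  have e11 := congrFun (congrFun hac 1) 1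
  simp only [Matrix.add_apply, Matrix.mul_apply, Fin.sum_univ_two, Finset.univ_unique, Finset.sum_singleton, Matrix.conjTranspose_apply, PUnit.default_eq_unit, Matrix.zero_apply, h0, h1,
    mul_zero, zero_mul, star_zero, add_zero, zero_add] at e00 e01 e11
  have hp : p () 0 = 0 := by
    rcases mul_eq_zero.1 e00 with h | h
    · rw [← star_star (p () 0), h, star_zero]
    · exact h
  rw [hp, star_zero, zero_mul, add_zero] at e01
  by_cases hv1 : c 1 1 = 0
  · have hv0 : c 0 1 ≠ 0 := by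
      rcases hv with h | h
      · exact h
      · exact absurd hv1 h
    rw [hv1, mul_zero, add_zero] at e01
    have ha0 : a 0 0 = 0 := by
      rcases mul_eq_zero.1 e01 with h | h
      · rw [← star_star (a 0 0), h, star_zero]
      · exact absurd h hv0
    have ha1 : a 1 0 ≠ 0 := by
      rcases ha with h | h
      · exact absurd ha0 h
      · exact h
    have hv0' : star (c 0 1) ≠ 0 := fun e => hv0 (by rw [← star_star (c 0 1), e, star_zero])
    obtain ⟨r0, τ, k1, k2⟩ := cd_one hK (v := c 0 1) (p := p () 1) (x := star (c 0 1) * a 0 1) (ζ := -star (c 0 1) / a 1 0) hv0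
      (by rw [star_mul', star_star]; rw [hv1, star_zero] at e11; linear_combination e11)
    refine cd_fin h0 h1 hp (x := τ) (y := 0) (z := 0) (τ := 0) (r0 := r0) (r1 := 0) k1 (by simp) (by simp) (by simp) ?_ (Or.inl ha1)
    rw [hv1, ha0]
    have k3 : -star (c 0 1) / a 1 0 * a 1 0 = -star (c 0 1) := div_mul_cancel₀ _ ha1
    apply mul_left_cancel₀ hv0'
    linear_combination (-a 1 0) * k2 - k3
  · have hv1' : star (c 1 1) ≠ 0 := fun e => hv1 (by rw [← star_star (c 1 1), e, star_zero])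
    have e10 : a 0 0 * star (c 0 1) + a 1 0 * star (c 1 1) = 0 := by
      have := congrArg star e01
      simpa [star_mul', mul_comm] using this
    have ha0 : a 0 0 ≠ 0 := by
      intro h
      rw [h, zero_mul, zero_add] at e10
      rcases ha with h' | h'
      · exact h' h
      · exact (mul_ne_zero h' hv1') e10
    obtain ⟨y, hy⟩ : ∃ y : K, a 1 0 ≠ 0 ∨ a 0 1 + y * c 1 1 ≠ 0 := by
      by_cases h : a 0 1 = 0
      · exact ⟨1, Or.inr (by rw [h, zero_add, one_mul]; exact hv1)⟩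
      · exact ⟨0, Or.inr (by rwa [zero_mul, add_zero])⟩
    obtain ⟨r1, τ, k1, k2⟩ := cd_one hK (v := c 1 1) (p := p () 1)
      (x := star (c 0 1) * a 0 1 + star (c 1 1) * a 1 1 + (y * star (c 0 1) * c 1 1 - star y * c 0 1 * star (c 1 1))) (ζ := star (c 1 1) / a 0 0) hv1
      (by simp only [star_add, star_sub, star_mul', star_star]; linear_combination e11)
    refine cd_fin h0 h1 hp (x := 0) (y := y) (z := -star y) (τ := τ) (r0 := 0) (r1 := r1) (by simp) k1 (by simp) (by simp) ?_ ?_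
    · have k3 : star (c 1 1) / a 0 0 * a 0 0 = star (c 1 1) := div_mul_cancel₀ _ ha0
      apply mul_left_cancel₀ hv1'
      linear_combination (a 0 0) * k2 + k3 - (a 0 1 + y * c 1 1) * e10
    · rcases hy with h | h
      · exact Or.inl h
      · exact Or.inr (by simpa using h)
-- END cd

-- BEGIN ce
private theorem ce_S {k : Fin 2 → K} (hk : k ≠ 0) :
    ∃ S : Matrix (Fin 2) (Fin 2) K, IsUnit S.det ∧ S *ᵥ (Pi.single 0 1) = k := by
  by_cases h0 : k 0 = 0
  · have h1 : k 1 ≠ 0 := by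
      intro h1
      apply hk
      ext i
      fin_cases i
      · exact h0
      · exact h1
    refine ⟨!![k 0, 1; k 1, 0], ?_, ?_⟩
    · rw [det_fin_two_of]
      exact isUnit_iff_ne_zero.2 (by simpa using h1)
    · rw [Matrix.mulVec_single_one]
      ext i
      fin_cases i <;> simp
  · refine ⟨!![k 0, 0; k 1, 1], ?_, ?_⟩
    · rw [det_fin_two_of]
      exact isUnit_iff_ne_zero.2 (by simpa using h0)
    · rw [Matrix.mulVec_single_one]
      ext i
      fin_cases i <;> simp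

private theorem ce_entry (m : Matrix (Fin 2) (Fin 2) K) (i : Fin 2) : m i 0 = (m *ᵥ (Pi.single 0 1)) i := by
  rw [Matrix.mulVec_single_one]; rfl

private theorem ce_adj {S : Matrix (Fin 2) (Fin 2) K} (hS : IsUnit S.det) : (S⁻¹)ᴴ * Sᴴ = 1 := by
  rw [← conjTranspose_mul, mul_nonsing_inv _ hS, conjTranspose_one]

/-- MODULE ce. If `det c ≠ 0`: `core4_inv`.  Otherwise `c k = 0` for some `k ≠ 0`; `S` invertible with first column `k`; `a' = S⁻¹ a S`, `c' = Sᴴ c S`: `core4_sing` gives `t'`, `t = S t' Sᴴ`, `a + t c = S (a' + t' c') S⁻¹`, `Ns.conj`.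
`hker`: the first columns of `a'` is `S⁻¹ a k`. -/
theorem core4 (hK : ∃ x : K, star x ≠ x) {a c : Matrix (Fin 2) (Fin 2) K} (hac : aᴴ * c + cᴴ * a = 0) (hc : c ≠ 0)
    (hker : ∀ k : Fin 2 → K, a *ᵥ k = 0 → c *ᵥ k = 0 → k = 0)
    (hF : ∀ t : Matrix (Fin 2) (Fin 2) K, tᴴ = -t → star (a + t * c).det = (a + t * c).det) :
    ∃ t : Matrix (Fin 2) (Fin 2) K, tᴴ = -t ∧ Ns (a + t * c) := by
  by_cases hd : c.det = 0
  · obtain ⟨k, hk, hck⟩ := exists_mulVec_eq_zero_iff.2 hd
    obtain ⟨S, hS, hSk⟩ := ce_S hk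
    have h1 : S * S⁻¹ = 1 := mul_nonsing_inv _ hS
    have h2 : S⁻¹ * S = 1 := nonsing_inv_mul _ hS
    have h3 := ce_adj hS
    have hac' : (S⁻¹ * a * S)ᴴ * (Sᴴ * c * S) + (Sᴴ * c * S)ᴴ * (S⁻¹ * a * S) = 0 := by
      have e1 : (S⁻¹ * a * S)ᴴ * (Sᴴ * c * S) = Sᴴ * (aᴴ * c) * S := by
        simp only [conjTranspose_mul]
        calc Sᴴ * (aᴴ * (S⁻¹)ᴴ) * (Sᴴ * c * S) = Sᴴ * aᴴ * ((S⁻¹)ᴴ * Sᴴ) * c * S := by simp only [Matrix.mul_assoc]
          _ = Sᴴ * (aᴴ * c) * S := by rw [h3]; simp only [Matrix.mul_assoc, Matrix.one_mul]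
      have e2 : (Sᴴ * c * S)ᴴ * (S⁻¹ * a * S) = Sᴴ * (cᴴ * a) * S := by
        simp only [conjTranspose_mul, conjTranspose_conjTranspose]
        calc Sᴴ * (cᴴ * S) * (S⁻¹ * a * S) = Sᴴ * cᴴ * (S * S⁻¹) * a * S := by simp only [Matrix.mul_assoc]
          _ = Sᴴ * (cᴴ * a) * S := by rw [h1]; simp only [Matrix.mul_assoc, Matrix.one_mul]
      rw [e1, e2, ← Matrix.add_mul, ← Matrix.mul_add, hac, Matrix.mul_zero, Matrix.zero_mul]
    have hcol : (Sᴴ * c * S) *ᵥ (Pi.single 0 1) = 0 := by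
      rw [← Matrix.mulVec_mulVec, hSk, ← Matrix.mulVec_mulVec, hck, Matrix.mulVec_zero]
    have h00 : (Sᴴ * c * S) 0 0 = 0 := (ce_entry (Sᴴ * c * S) 0).trans (congrFun hcol 0)
    have h10 : (Sᴴ * c * S) 1 0 = 0 := (ce_entry (Sᴴ * c * S) 1).trans (congrFun hcol 1)
    have hv : (Sᴴ * c * S) 0 1 ≠ 0 ∨ (Sᴴ * c * S) 1 1 ≠ 0 := by
      by_contra hcon
      push Not at hcon
      apply hc
      have hz : Sᴴ * c * S = 0 := by
        ext i j
        fin_cases i <;> fin_cases j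
        · exact h00
        · exact hcon.1
        · exact h10
        · exact hcon.2
      calc c = ((S⁻¹)ᴴ * Sᴴ) * c * (S * S⁻¹) := by rw [h3, h1, Matrix.one_mul, Matrix.mul_one]
        _ = (S⁻¹)ᴴ * (Sᴴ * c * S) * S⁻¹ := by simp only [Matrix.mul_assoc]
        _ = 0 := by rw [hz, Matrix.mul_zero, Matrix.zero_mul]
    have ha : (S⁻¹ * a * S) 0 0 ≠ 0 ∨ (S⁻¹ * a * S) 1 0 ≠ 0 := by
      by_contra hcon
      push Not at hcon
      apply hk
      apply hker k _ hck
      have hz : (S⁻¹ * a * S) *ᵥ (Pi.single 0 1) = 0 := by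
        ext i
        refine (ce_entry (S⁻¹ * a * S) i).symm.trans ?_
        fin_cases i
        · exact hcon.1
        · exact hcon.2
      rw [← Matrix.mulVec_mulVec, hSk, ← Matrix.mulVec_mulVec] at hz
      calc a *ᵥ k = (S * S⁻¹) *ᵥ (a *ᵥ k) := by rw [h1, Matrix.one_mulVec]
        _ = S *ᵥ (S⁻¹ *ᵥ (a *ᵥ k)) := by rw [← Matrix.mulVec_mulVec]
        _ = 0 := by rw [hz, Matrix.mulVec_zero]
    have hconj : ∀ t' : Matrix (Fin 2) (Fin 2) K, S * (S⁻¹ * a * S + t' * (Sᴴ * c * S)) * S⁻¹ = a + (S * t' * Sᴴ) * c := by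
      intro t'
      calc S * (S⁻¹ * a * S + t' * (Sᴴ * c * S)) * S⁻¹ = (S * S⁻¹) * a * (S * S⁻¹) + S * t' * Sᴴ * c * (S * S⁻¹) := by
            simp only [Matrix.mul_add, Matrix.add_mul, Matrix.mul_assoc]
        _ = a + (S * t' * Sᴴ) * c := by rw [h1, Matrix.one_mul, Matrix.mul_one, Matrix.mul_one]
    have hskew : ∀ t' : Matrix (Fin 2) (Fin 2) K, t'ᴴ = -t' → (S * t' * Sᴴ)ᴴ = -(S * t' * Sᴴ) := by
      intro t' ht'
      rw [conjTranspose_mul, conjTranspose_mul, conjTranspose_conjTranspose, ht', Matrix.neg_mul, Matrix.mul_neg, Matrix.mul_assoc]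
    obtain ⟨t', ht', hns⟩ := core4_sing hK hac' h00 h10 hv ha (fun t' ht' => by
      have hdet : (S⁻¹ * a * S + t' * (Sᴴ * c * S)).det = (a + (S * t' * Sᴴ) * c).det := by
        have hSS : S.det * (S⁻¹).det = 1 := by rw [← det_mul, h1, det_one]
        rw [← hconj t', det_mul, det_mul, mul_right_comm, hSS, one_mul]
      rw [hdet]
      exact hF _ (hskew t' ht'))
    refine ⟨S * t' * Sᴴ, hskew t' ht', ?_⟩
    rw [← hconj t']
    exact Ns.conj hS hns
  · exact core4_inv hK hac hd hF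

/-- the same; `p' = p S`, `r = S r'`.  If `c k = 0` then `p k = 0` (`kᴴ (..) k = 0`, so `star (p k) * (p k) = 0`), so `hker` applies. -/
theorem core5 [Finite K] (hK : ∃ x : K, star x ≠ x) {a c : Matrix (Fin 2) (Fin 2) K} {p : Matrix Unit (Fin 2) K}
    (hac : aᴴ * c + cᴴ * a + pᴴ * p = 0) (hc : c ≠ 0)
    (hker : ∀ k : Fin 2 → K, a *ᵥ k = 0 → c *ᵥ k = 0 → p *ᵥ k = 0 → k = 0) :
    ∃ (t : Matrix (Fin 2) (Fin 2) K) (r : Matrix (Fin 2) Unit K), t + tᴴ = -(r * rᴴ) ∧ Ns (a + t * c - r * p) := by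
  by_cases hd : c.det = 0
  · obtain ⟨k, hk, hck⟩ := exists_mulVec_eq_zero_iff.2 hd
    obtain ⟨S, hS, hSk⟩ := ce_S hk
    have h1 : S * S⁻¹ = 1 := mul_nonsing_inv _ hS
    have h3 := ce_adj hS
    have hac' : (S⁻¹ * a * S)ᴴ * (Sᴴ * c * S) + (Sᴴ * c * S)ᴴ * (S⁻¹ * a * S) + (p * S)ᴴ * (p * S) = 0 := by
      have e1 : (S⁻¹ * a * S)ᴴ * (Sᴴ * c * S) = Sᴴ * (aᴴ * c) * S := by
        simp only [conjTranspose_mul]
        calc Sᴴ * (aᴴ * (S⁻¹)ᴴ) * (Sᴴ * c * S) = Sᴴ * aᴴ * ((S⁻¹)ᴴ * Sᴴ) * c * S := by simp only [Matrix.mul_assoc]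
          _ = Sᴴ * (aᴴ * c) * S := by rw [h3]; simp only [Matrix.mul_assoc, Matrix.one_mul]
      have e2 : (Sᴴ * c * S)ᴴ * (S⁻¹ * a * S) = Sᴴ * (cᴴ * a) * S := by
        simp only [conjTranspose_mul, conjTranspose_conjTranspose]
        calc Sᴴ * (cᴴ * S) * (S⁻¹ * a * S) = Sᴴ * cᴴ * (S * S⁻¹) * a * S := by simp only [Matrix.mul_assoc]
          _ = Sᴴ * (cᴴ * a) * S := by rw [h1]; simp only [Matrix.mul_assoc, Matrix.one_mul]
      have e3 : (p * S)ᴴ * (p * S) = Sᴴ * (pᴴ * p) * S := by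
        rw [conjTranspose_mul]; simp only [Matrix.mul_assoc]
      rw [e1, e2, e3, ← Matrix.add_mul, ← Matrix.mul_add, ← Matrix.add_mul, ← Matrix.mul_add, hac, Matrix.mul_zero, Matrix.zero_mul]
    have hcol : (Sᴴ * c * S) *ᵥ (Pi.single 0 1) = 0 := by
      rw [← Matrix.mulVec_mulVec, hSk, ← Matrix.mulVec_mulVec, hck, Matrix.mulVec_zero]
    have h00 : (Sᴴ * c * S) 0 0 = 0 := (ce_entry (Sᴴ * c * S) 0).trans (congrFun hcol 0)
    have h10 : (Sᴴ * c * S) 1 0 = 0 := (ce_entry (Sᴴ * c * S) 1).trans (congrFun hcol 1)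
    have hv : (Sᴴ * c * S) 0 1 ≠ 0 ∨ (Sᴴ * c * S) 1 1 ≠ 0 := by
      by_contra hcon
      push Not at hcon
      apply hc
      have hz : Sᴴ * c * S = 0 := by
        ext i j
        fin_cases i <;> fin_cases j
        · exact h00
        · exact hcon.1
        · exact h10
        · exact hcon.2
      calc c = ((S⁻¹)ᴴ * Sᴴ) * c * (S * S⁻¹) := by rw [h3, h1, Matrix.one_mul, Matrix.mul_one]
        _ = (S⁻¹)ᴴ * (Sᴴ * c * S) * S⁻¹ := by simp only [Matrix.mul_assoc]
        _ = 0 := by rw [hz, Matrix.mul_zero, Matrix.zero_mul]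
    have hp0 : (p * S) () 0 = 0 := by
      have e := congrFun (congrFun hac' 0) 0
      simp only [Matrix.add_apply, Matrix.mul_apply (M := (S⁻¹ * a * S)ᴴ), Matrix.mul_apply (M := (Sᴴ * c * S)ᴴ),
        Matrix.mul_apply (M := (p * S)ᴴ), Fin.sum_univ_two, conjTranspose_apply, Finset.univ_unique, Finset.sum_singleton,
        Matrix.zero_apply, h00, h10, star_zero, mul_zero, zero_mul, add_zero, zero_add] at e
      rcases mul_eq_zero.1 e with h | h
      · exact star_eq_zero.1 h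
      · exact h
    have hpk : p *ᵥ k = 0 := by
      rw [← hSk, Matrix.mulVec_mulVec, Matrix.mulVec_single_one]
      ext u
      exact hp0
    have ha : (S⁻¹ * a * S) 0 0 ≠ 0 ∨ (S⁻¹ * a * S) 1 0 ≠ 0 := by
      by_contra hcon
      push Not at hcon
      apply hk
      refine hker k ?_ hck hpk
      have hz : (S⁻¹ * a * S) *ᵥ (Pi.single 0 1) = 0 := by
        ext i
        refine (ce_entry (S⁻¹ * a * S) i).symm.trans ?_
        fin_cases i
        · exact hcon.1
        · exact hcon.2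
      rw [← Matrix.mulVec_mulVec, hSk, ← Matrix.mulVec_mulVec] at hz
      calc a *ᵥ k = (S * S⁻¹) *ᵥ (a *ᵥ k) := by rw [h1, Matrix.one_mulVec]
        _ = S *ᵥ (S⁻¹ *ᵥ (a *ᵥ k)) := by rw [← Matrix.mulVec_mulVec]
        _ = 0 := by rw [hz, Matrix.mulVec_zero]
    obtain ⟨t', r', ht', hns⟩ := core5_sing hK hac' h00 h10 hv ha
    refine ⟨S * t' * Sᴴ, S * r', ?_, ?_⟩
    · have e : S * t' * Sᴴ + (S * t' * Sᴴ)ᴴ = S * (t' + t'ᴴ) * Sᴴ := by
        rw [conjTranspose_mul, conjTranspose_mul, conjTranspose_conjTranspose, Matrix.mul_add, Matrix.add_mul, Matrix.mul_assoc S t'ᴴ]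
      rw [e, ht', Matrix.mul_neg, Matrix.neg_mul, conjTranspose_mul]
      simp only [Matrix.mul_assoc]
    · have e : a + S * t' * Sᴴ * c - S * r' * p = S * (S⁻¹ * a * S + t' * (Sᴴ * c * S) - r' * (p * S)) * S⁻¹ := by
        calc a + S * t' * Sᴴ * c - S * r' * p = (S * S⁻¹) * a * (S * S⁻¹) + S * t' * Sᴴ * c * (S * S⁻¹) - S * r' * p * (S * S⁻¹) := by
              rw [h1, Matrix.one_mul, Matrix.mul_one, Matrix.mul_one, Matrix.mul_one]
          _ = S * (S⁻¹ * a * S + t' * (Sᴴ * c * S) - r' * (p * S)) * S⁻¹ := by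
              simp only [Matrix.mul_add, Matrix.add_mul, Matrix.mul_sub, Matrix.sub_mul, Matrix.mul_assoc]
      rw [e]
      exact Ns.conj hS hns
  · exact core5_inv hK hac hd
-- END ce

end ThU
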