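import Pool.Agent.ThV.Uo

/-! # The geometric step in dimension 5 -/

set_option linter.unusedSectionVars false

namespace ThU
open Matrix Polynomial Module

variable {K : Type*} [Field K] [StarRing K]

theorem geo5 [Finite K] (hK : ∃ x : K, star x ≠ x) {g : Matrix (Jx 2) (Jx 2) K} (hg : gᴴ * g = 1)
    (hns : ∀ c : K, g ≠ c • (1 : Matrix (Jx 2) (Jx 2) K)) :
    ∃ P : Matrix (Jx 2) (Jx 2) K, Pᴴ * P = JO K 2 ∧ Ns (P⁻¹ * g * P).toBlocks₁₁.toBlocks₁₁ := by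
  obtain ⟨P, hP, hc⟩ := frame5 hK hg hns
  have hPu := OGrpB_P_unit hP
  obtain ⟨M, hM⟩ : ∃ M, M = P⁻¹ * g * P := ⟨_, rfl⟩
  rw [← hM] at hc
  have hMJ : Mᴴ * JO K 2 * M = JO K 2 := by
    have hPP : (P⁻¹)ᴴ * Pᴴ = 1 := by
      rw [← conjTranspose_mul, mul_nonsing_inv _ hPu, conjTranspose_one]
    rw [hM, conjTranspose_mul, conjTranspose_mul]
    calc Pᴴ * (gᴴ * (P⁻¹)ᴴ) * JO K 2 * (P⁻¹ * g * P) =
          Pᴴ * (gᴴ * (P⁻¹)ᴴ) * (Pᴴ * P) * (P⁻¹ * g * P) := by rw [hP]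
      _ = Pᴴ * gᴴ * ((P⁻¹)ᴴ * Pᴴ) * (P * P⁻¹) * g * P := by noncomm_ring
      _ = Pᴴ * (gᴴ * g) * P := by
          rw [hPP, mul_nonsing_inv _ hPu]
          noncomm_ring
      _ = JO K 2 := by rw [hg, Matrix.mul_one, hP]
  have hMu : IsUnit M.det := by
    have h1 := congrArg Matrix.det hMJ
    rw [det_mul] at h1
    have h2 : IsUnit ((Mᴴ * JO K 2).det * M.det) := by
      rw [h1]
      exact OGrpB_JO_unit
    exact isUnit_of_mul_isUnit_right h2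
  obtain ⟨a, ha⟩ : ∃ a, a = M.toBlocks₁₁.toBlocks₁₁ := ⟨_, rfl⟩
  obtain ⟨c, hcd⟩ : ∃ c, c = M.toBlocks₁₁.toBlocks₂₁ := ⟨_, rfl⟩
  obtain ⟨p, hp⟩ : ∃ p, p = M.toBlocks₂₁.toCols₁ := ⟨_, rfl⟩
  rw [← hcd] at hc
  have hac : aᴴ * c + cᴴ * a + pᴴ * p = 0 := by
    rw [T9_ex M, T9_ct, T9_JO, T9_mul, T9_mul] at hMJ
    have h1 := (T9_inj hMJ).1.1
    simp only [Matrix.mul_zero, Matrix.mul_one, zero_add, add_zero] at h1
    rw [ha, hcd, hp, ← h1]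
    abel
  have hker : ∀ k : Fin 2 → K, a *ᵥ k = 0 → c *ᵥ k = 0 → p *ᵥ k = 0 → k = 0 := by
    intro k h1 h2 h3
    have h4 : M *ᵥ (Sum.elim (Sum.elim k (0 : Fin 2 → K)) (0 : Unit → K)) = 0 := by
      funext i
      rcases i with (i | i) | i
      · have := congrFun h1 i
        rw [ha] at this
        simpa [Matrix.mulVec, dotProduct, Matrix.toBlocks₁₁] using this
      · have := congrFun h2 i
        rw [hcd] at this
        simpa [Matrix.mulVec, dotProduct, Matrix.toBlocks₁₁, Matrix.toBlocks₂₁] using this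
      · have := congrFun h3 i
        rw [hp] at this
        simpa [Matrix.mulVec, dotProduct, Matrix.toBlocks₂₁, Matrix.toCols₁] using this
    have h5 : Sum.elim (Sum.elim k (0 : Fin 2 → K)) (0 : Unit → K) = 0 := by
      rw [← one_mulVec (Sum.elim (Sum.elim k (0 : Fin 2 → K)) (0 : Unit → K)), ← nonsing_inv_mul _ hMu,
        ← mulVec_mulVec, h4, mulVec_zero]
    funext i
    exact congrFun h5 (Sum.inl (Sum.inl i))
  obtain ⟨t, ρ, htρ, hNs⟩ := core5 hK hac hc hker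
  obtain ⟨U, V, hU, hVU, b', β', d', r', q', s', hVMU⟩ := uo_conj
    (a := a) (b := M.toBlocks₁₁.toBlocks₁₂) (β := M.toBlocks₁₂.toRows₁) (c := c)
    (d := M.toBlocks₁₁.toBlocks₂₂) (r := M.toBlocks₁₂.toRows₂) (p := p) (q := M.toBlocks₂₁.toCols₂)
    (s := M.toBlocks₂₂) t ρ htρ
  rw [ha, hcd, hp, ← T9_ex M, ← ha, ← hcd, ← hp] at hVMU
  have hPinv : (P * U)⁻¹ = V * P⁻¹ := by
    apply Matrix.inv_eq_left_inv
    rw [Matrix.mul_assoc, ← Matrix.mul_assoc P⁻¹, nonsing_inv_mul _ hPu, Matrix.one_mul, hVU]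
  refine ⟨P * U, ?_, ?_⟩
  · rw [conjTranspose_mul, Matrix.mul_assoc, ← Matrix.mul_assoc Pᴴ, hP, ← Matrix.mul_assoc]
    exact hU
  · have e1 : (P * U)⁻¹ * g * (P * U) = V * M * U := by
      rw [hPinv, hM]
      simp only [Matrix.mul_assoc]
    rw [e1, hVMU]
    unfold T9
    rw [toBlocks_fromBlocks₁₁, toBlocks_fromBlocks₁₁]
    exact hNs

end ThU
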