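import Pool.Agent.ThV.Blk
import Pool.Agent.ThV.Geo5
import Pool.Agent.ThU.Quot

/-! # The main theorems for `n = 2` -/

namespace ThU
open Matrix Polynomial Module

variable {K : Type*} [Field K] [StarRing K]

-- BEGIN ha
private theorem ha_scal {g : Matrix (Ix 2) (Ix 2) K} {c : K} (hg : gᴴ * g = 1) (hgd : g.det = 1)
    (hc : g = c • (1 : Matrix (Ix 2) (Ix 2) K)) : c * star c = 1 ∧ c ^ (2 * 2) = 1 := by
  subst hc
  constructor
  · have h1 := congrFun (congrFun hg (Sum.inl 0)) (Sum.inl 0)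
    rw [conjTranspose_smul, conjTranspose_one, smul_mul_smul_comm, Matrix.mul_one, Matrix.smul_apply, Matrix.one_apply_eq, smul_eq_mul, mul_one] at h1
    rw [mul_comm]
    exact h1
  · rw [det_smul, det_one, mul_one] at hgd
    simpa using hgd

private theorem ha_unit {P : Matrix (Ix 2) (Ix 2) K} (hP : Pᴴ * P = JJ K 2) : P⁻¹ * P = 1 := by
  have hJ : JJ K 2 * JJ K 2 = 1 := by
    rw [JJ, fromBlocks_multiply]
    simp [fromBlocks_one]
  have h1 : JJ K 2 * Pᴴ * P = 1 := by rw [Matrix.mul_assoc, hP, hJ]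
  exact nonsing_inv_mul _ (isUnit_det_of_left_inverse h1)

/-- MODULE ha. `exists_NR`, `seed2`, `xx_su`.  `g = c • 1`: `c * star c = 1`, `c ^ 4 = 1` (determinant), `c⁻¹ • g = 1` and `main_block` with `S1 = T1 = 1` (as in `main_matrix`).  Otherwise `geo4`, `fac2`, `main_blk` with scalar 1. -/
theorem main4 [Finite K] (hK : ∃ x : K, star x ≠ x) :
    ∃ x : Matrix (Ix 2) (Ix 2) K, xᴴ * x = 1 ∧ x.det = 1 ∧
      ∀ g : Matrix (Ix 2) (Ix 2) K, gᴴ * g = 1 → g.det = 1 →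
        ∃ (c : K) (s t : Matrix (Ix 2) (Ix 2) K), c * star c = 1 ∧ c ^ (2 * 2) = 1 ∧ sᴴ * s = 1 ∧
          s.det = 1 ∧ tᴴ * t = 1 ∧ t.det = 1 ∧ g = c • (s * x * s⁻¹ * (t * x * t⁻¹)) := by
  obtain ⟨t0, ht0⟩ := exists_NR (K := K)
  obtain ⟨hB, -⟩ := seed2 hK ht0
  have hfrT : finrank K (⊤ : Submodule K (Ix 2 → K)) = 2 * 2 := by
    rw [finrank_top]
    simp
  obtain ⟨w0, w0', hyp0⟩ := hyp_exists (stdH K 2) hK stdH_ND hfrT
  obtain ⟨P0, hP0, -⟩ := frame_hyp hyp0 1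
  obtain ⟨hx1, hx2⟩ := xx_su hP0 hB
  refine ⟨xx P0 (cB t0), hx1, hx2, fun g hg hgd => ?_⟩
  by_cases hns : ∃ c : K, g = c • (1 : Matrix (Ix 2) (Ix 2) K)
  · obtain ⟨c, hc⟩ := hns
    obtain ⟨hcc, hc4⟩ := ha_scal hg hgd hc
    obtain ⟨s, t, hs, hs1, ht, ht1, h1⟩ := main_block (S1 := 1) (T1 := 1) (g := 1) hP0 hP0 hB (by simp)
      (by simp) (by simp) (by
        rw [Matrix.mul_one, ha_unit hP0, ← fromBlocks_one, toBlocks_fromBlocks₁₁, one_mul, inv_one, one_mul, one_mul, mul_one,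
          Matrix.mul_nonsing_inv _ hB.unit])
    exact ⟨c, s, t, hcc, hc4, hs, hs1, ht, ht1, by rw [← h1, ← hc]⟩
  · obtain ⟨P, hP, hN⟩ := geo4 hK hg hgd (fun c hc => hns ⟨c, hc⟩)
    obtain ⟨Q, R, hQ, hR, hQR⟩ := fac2 hK ht0 hN.1 hN.2
    obtain ⟨s, t, hs, hs1, ht, ht1, h1⟩ := main_blk hP0 hP hB hg hQ hR hQR
    exact ⟨1, s, t, by simp, by simp, hs, hs1, ht, ht1, by rw [one_smul]; exact h1⟩
-- END ha

-- BEGIN hb
/-- MODULE hb. As main4, with `hyp_odd`, `frame_odd`, `xo_su`, `main_block_odd`, `geo5`, `main_blk_odd`. -/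
theorem main5 [Finite K] (hK : ∃ x : K, star x ≠ x) :
    ∃ x : Matrix (Jx 2) (Jx 2) K, xᴴ * x = 1 ∧ x.det = 1 ∧
      ∀ g : Matrix (Jx 2) (Jx 2) K, gᴴ * g = 1 → g.det = 1 →
        ∃ (c : K) (s t : Matrix (Jx 2) (Jx 2) K), c * star c = 1 ∧ c ^ (2 * 2 + 1) = 1 ∧
          sᴴ * s = 1 ∧ s.det = 1 ∧ tᴴ * t = 1 ∧ t.det = 1 ∧
          g = c • (s * x * s⁻¹ * (t * x * t⁻¹)) := by
  obtain ⟨t, ht⟩ := exists_NR (K := K)
  obtain ⟨hB, hB1⟩ := seed2 hK ht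
  have hdB : (cB t).det = 1 := by simp [cB, det_fin_two]
  have hfr : finrank K (Jx 2 → K) = 2 * 2 + 1 := by simp
  have hfrT : finrank K (⊤ : Submodule K (Jx 2 → K)) = 2 * 2 + 1 := by rw [finrank_top]; exact hfr
  obtain ⟨w0, w0', hyp0⟩ := hyp_odd (stdG K (Jx 2)) hK stdG_ND hfrT
  obtain ⟨P0, hP0, -⟩ := frame_odd hK hyp0 1
  obtain ⟨hx1, hx2⟩ := xo_su hP0 hB
  refine ⟨xo P0 (cB t), hx1, hx2, fun g hg hgd => ?_⟩
  by_cases hs : ∃ c : K, g = c • (1 : Matrix (Jx 2) (Jx 2) K)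
  · obtain ⟨c, rfl⟩ := hs
    have hcc : c * star c = 1 := by
      have h := congrFun (congrFun hg (Sum.inr ())) (Sum.inr ())
      rw [conjTranspose_smul, smul_mul_smul_comm, conjTranspose_one, Matrix.one_mul,
        Matrix.smul_apply, Matrix.one_apply_eq, smul_eq_mul, mul_one] at h
      rw [mul_comm]; exact h
    have hc5 : c ^ (2 * 2 + 1) = 1 := by
      have hcard : Fintype.card (Jx 2) = 2 * 2 + 1 := by simp
      rw [det_smul, det_one, mul_one, hcard] at hgd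
      exact hgd
    have hP0u : IsUnit P0.det := by
      rw [isUnit_iff_ne_zero]
      intro h0
      have h := congrArg Matrix.det hP0
      rw [det_mul, h0, mul_zero, JO, det_fromBlocks_zero₁₂, det_one, mul_one] at h
      have hJ : (JJ K 2).det * (JJ K 2).det = 1 := by
        rw [← det_mul, JJ, fromBlocks_multiply]
        simp
      rw [← h, zero_mul] at hJ
      exact zero_ne_one hJ
    have h1g : (1 : Matrix (Jx 2) (Jx 2) K)ᴴ * 1 = 1 := by rw [conjTranspose_one, Matrix.one_mul]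
    have ha : ((P0⁻¹ * (1 : Matrix (Jx 2) (Jx 2) K) * P0).toBlocks₁₁.toBlocks₁₁) = 1 := by
      rw [Matrix.mul_one, nonsing_inv_mul _ hP0u]
      ext i j
      simp [toBlocks₁₁, Matrix.one_apply]
    obtain ⟨s, u, hs, hs1, hu, hu1, hgg⟩ := main_block_odd (S1 := 1) (T1 := 1) hK hP0 hP0 hB hB1
      h1g det_one (by simp) (by simp) (by
        rw [ha, one_mul, inv_one, one_mul, one_mul, mul_one, Matrix.mul_nonsing_inv _ hB.unit])
    exact ⟨c, s, u, hcc, hc5, hs, hs1, hu, hu1, by rw [← hgg]⟩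
  · push Not at hs
    obtain ⟨P, hP, hNs⟩ := geo5 hK hg hs
    obtain ⟨Q, R, hQ, hR, hQR⟩ := fac2 hK ht hNs.1 hNs.2
    obtain ⟨s, u, hs, hs1, hu, hu1, hgg⟩ := main_blk_odd hK hP0 hP hB hdB hB1 hg hgd hQ hR hQR
    exact ⟨1, s, u, by simp, by simp, hs, hs1, hu, hu1, by rw [one_smul]; exact hgg⟩
-- END hb

end ThU
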