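import Pool.Agent.ThV.Core

/-! # Frames -/

namespace ThU
open Matrix Polynomial Module

variable {K : Type*} [Field K] [StarRing K]

-- BEGIN fb
private theorem fb_cons {V : Type*} [AddCommGroup V] [Module K V] (H : Herm K V) {U : Submodule K V} {n : ℕ} {a b : V} (ha : a ∈ U) (hb : b ∈ U)
    (haa : H.h a a = 0) (hbb : H.h b b = 0) (hba : H.h b a = 1) {w w' : Fin n → V} (h : H.Hyp (H.perp2 U a b) n w w') :
    H.Hyp U (n + 1) (Fin.cons a w) (Fin.cons b w') := by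
  have m1 := fun i => H.mem_perp2.1 (h.mem i)
  have m2 := fun i => H.mem_perp2.1 (h.mem' i)
  refine ⟨?_, ?_, ?_, ?_, ?_⟩
  · intro i
    refine Fin.cases ?_ (fun j => ?_) i
    · exact ha
    · exact (m1 j).1
  · intro i
    refine Fin.cases ?_ (fun j => ?_) i
    · exact hb
    · exact (m2 j).1
  · intro i j
    refine Fin.cases ?_ (fun i => ?_) i <;> refine Fin.cases ?_ (fun j => ?_) j
    · simpa using haa
    · simpa using (m1 j).2.1
    · simpa using H.swap_zero.1 (m1 i).2.1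
    · simpa using h.iso i j
  · intro i j
    refine Fin.cases ?_ (fun i => ?_) i <;> refine Fin.cases ?_ (fun j => ?_) j
    · simpa using hbb
    · simpa using (m2 j).2.2
    · simpa using H.swap_zero.1 (m2 i).2.2
    · simpa using h.iso' i j
  · intro i j
    refine Fin.cases ?_ (fun i => ?_) i <;> refine Fin.cases ?_ (fun j => ?_) j
    · simpa using hba
    · rw [Fin.cons_zero, Fin.cons_succ, if_neg (Fin.succ_ne_zero j).symm]
      exact (m1 j).2.2
    · rw [Fin.cons_zero, Fin.cons_succ, if_neg (Fin.succ_ne_zero i)]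
      exact H.swap_zero.1 (m2 i).2.1
    · rw [Fin.cons_succ, Fin.cons_succ, h.dual i j]
      simp only [Fin.succ_inj]

/-- MODULE fb. A hyperbolic system that starts with a given isotropic vector: `exists_partner`, `perp2_ND`, `perp2_finrank`, then `hyp_exists` (`n = 1`, `finrank = 2`) in `perp2 U w w'`, `Fin.cons` (compare the proof of `hyp_exists`). -/
theorem hyp_cons_even {V : Type*} [AddCommGroup V] [Module K V] [Finite K] [FiniteDimensional K V] (H : Herm K V) (hK : ∃ x : K, star x ≠ x) {U : Submodule K V} {n : ℕ}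
    (hU : H.ND U) (hn : finrank K U = 2 * (n + 1)) {u : V} (hu : u ∈ U) (hu0 : u ≠ 0) (huu : H.h u u = 0) : ∃ w w' : Fin (n + 1) → V, H.Hyp U (n + 1) w w' ∧ w 0 = u := by
  obtain ⟨b, hb, hbb, hba⟩ := exists_partner H hK hU hu hu0 huu
  have hab : H.h u b ≠ 0 := by
    rw [H.symm b u, hba, star_one]
    exact one_ne_zero
  have h1 := perp2_ND H hU hu hb huu hbb hab
  have h2 := perp2_finrank H hu hb huu hbb hab
  obtain ⟨w, w', h3⟩ := hyp_exists H hK h1 (n := n) (by omega)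
  exact ⟨_, _, fb_cons H hu hb huu hbb hba h3, rfl⟩

/-- the same with `hyp_odd` -/
theorem hyp_cons_odd {V : Type*} [AddCommGroup V] [Module K V] [Finite K] [FiniteDimensional K V] (H : Herm K V) (hK : ∃ x : K, star x ≠ x) {U : Submodule K V} {n : ℕ}
    (hU : H.ND U) (hn : finrank K U = 2 * (n + 1) + 1) {u : V} (hu : u ∈ U) (hu0 : u ≠ 0) (huu : H.h u u = 0) : ∃ w w' : Fin (n + 1) → V, H.Hyp U (n + 1) w w' ∧ w 0 = u := by
  obtain ⟨b, hb, hbb, hba⟩ := exists_partner H hK hU hu hu0 huu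
  have hab : H.h u b ≠ 0 := by
    rw [H.symm b u, hba, star_one]
    exact one_ne_zero
  have h1 := perp2_ND H hU hu hb huu hbb hab
  have h2 := perp2_finrank H hu hb huu hbb hab
  obtain ⟨w, w', h3⟩ := hyp_odd H hK (n := n) h1 (by omega)
  exact ⟨_, _, fb_cons H hu hb huu hbb hba h3, rfl⟩
-- END fb

-- BEGIN fc
private theorem fc_dot {n : ℕ} (x y : Ix n → K) : (stdH K n).h x y = star x ⬝ᵥ y := rfl

private def fc_P {n : ℕ} (w w' : Fin n → (Ix n → K)) : Matrix (Ix n) (Ix n) K :=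
  Matrix.of fun i s => Sum.elim w w' s i

private theorem fc_entry {n : ℕ} (w w' : Fin n → (Ix n → K)) (g : Matrix (Ix n) (Ix n) K) (s t : Ix n) :
    ((fc_P w w')ᴴ * g * fc_P w w') s t =
      (stdH K n).h (Sum.elim w w' s) (Matrix.toLin' g (Sum.elim w w' t)) := by
  rw [fc_dot, Matrix.toLin'_apply, Matrix.mul_assoc, Matrix.mul_apply]
  rfl

private theorem fc_JJ {n : ℕ} : JJ K n * JJ K n = 1 := by
  unfold JJ
  rw [fromBlocks_multiply]
  simp

/-- MODULE fc. As `frame_hyp` (ThU/Frame.lean; copy its private lemmas), for the block `₂₁`: `(P⁻¹ * g * P).toBlocks₂₁ i j = h (w i) (g w_j)`. -/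
theorem frame_hyp21 {n : ℕ} {w w' : Fin n → (Ix n → K)} (h : (stdH K n).Hyp ⊤ n w w')
    (g : Matrix (Ix n) (Ix n) K) : ∃ P : Matrix (Ix n) (Ix n) K, Pᴴ * P = JJ K n ∧
      ∀ i j, (P⁻¹ * g * P).toBlocks₂₁ i j = (stdH K n).h (w i) (Matrix.toLin' g (w j)) := by
  have h1 : (fc_P w w')ᴴ * fc_P w w' = JJ K n := by
    ext s t
    have h2 := fc_entry w w' 1 s t
    rw [Matrix.mul_one, Matrix.toLin'_one, LinearMap.id_apply] at h2
    rw [h2]
    unfold JJ
    rcases s with i | i <;> rcases t with j | j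
    · exact h.iso i j
    · have h3 := h.dual j i
      show (stdH K n).h (w i) (w' j) = (1 : Matrix (Fin n) (Fin n) K) i j
      rw [(stdH K n).symm (w' j) (w i), h3, Matrix.one_apply]
      by_cases hij : i = j
      · rw [if_pos hij, if_pos hij.symm, star_one]
      · rw [if_neg hij, if_neg (fun h => hij h.symm), star_zero]
    · exact h.dual i j
    · exact h.iso' i j
  refine ⟨fc_P w w', h1, fun i j => ?_⟩
  have h2 : (fc_P w w')⁻¹ = JJ K n * (fc_P w w')ᴴ := by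
    apply Matrix.inv_eq_left_inv
    rw [Matrix.mul_assoc, h1, fc_JJ]
  rw [h2, Matrix.mul_assoc, Matrix.mul_assoc]
  have h3 := fc_entry w w' g (Sum.inl i) (Sum.inl j)
  have h4 : (JJ K n * ((fc_P w w')ᴴ * (g * fc_P w w'))).toBlocks₂₁ i j =
      ((fc_P w w')ᴴ * (g * fc_P w w')) (Sum.inl i) (Sum.inl j) := by
    show (JJ K n * ((fc_P w w')ᴴ * (g * fc_P w w'))) (Sum.inr i) (Sum.inl j) = _
    rw [Matrix.mul_apply, Fintype.sum_sum_type]
    unfold JJ
    simp only [fromBlocks_apply₂₁, fromBlocks_apply₂₂, Matrix.zero_apply, zero_mul,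
      Finset.sum_const_zero, add_zero, Matrix.one_apply, ite_mul, one_mul, Finset.sum_ite_eq,
      Finset.mem_univ, if_true]
  rw [h4, ← Matrix.mul_assoc, h3]
  rfl
-- END fc

-- BEGIN fd
private theorem fd_dot {m : Type*} [Fintype m] (x y : m → K) :
    (stdG K m).h x y = star x ⬝ᵥ y := rfl

/-- the vector `d` -/
private theorem fd_d {n : ℕ} [Finite K] (hK : ∃ x : K, star x ≠ x) {w w' : Fin n → (Jx n → K)}
    (h : (stdG K (Jx n)).Hyp ⊤ n w w') : ∃ d : Jx n → K,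
      (∀ i, (stdG K (Jx n)).h (w i) d = 0) ∧ (∀ i, (stdG K (Jx n)).h (w' i) d = 0) ∧
      (stdG K (Jx n)).h d d = 1 := by
  set H := stdG K (Jx n) with hH
  set φ : (Jx n → K) →ₗ[K] (Ix n → K) := LinearMap.pi fun s => H.h (Sum.elim w w' s) with hφ
  set D := LinearMap.ker φ with hD
  have hmem : ∀ x, x ∈ D ↔ (∀ i, H.h (w i) x = 0) ∧ ∀ i, H.h (w' i) x = 0 := by
    intro x
    rw [hD, LinearMap.mem_ker]
    constructor
    · intro h1
      exact ⟨fun i => congrFun h1 (Sum.inl i), fun i => congrFun h1 (Sum.inr i)⟩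
    · rintro ⟨h1, h2⟩
      funext s
      rcases s with i | i
      · exact h1 i
      · exact h2 i
  have hfr : 0 < finrank K D := by
    have h1 := LinearMap.finrank_range_add_finrank_ker φ
    have h2 : finrank K (LinearMap.range φ) ≤ finrank K (Ix n → K) := Submodule.finrank_le _
    rw [Module.finrank_fintype_fun_eq_card] at h1 h2
    simp only [Fintype.card_sum, Fintype.card_fin, Fintype.card_unit] at h1 h2
    rw [← hD] at h1
    omega
  have hww' : ∀ i j, H.h (w i) (w' j) = if i = j then 1 else 0 := by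
    intro i j
    rw [H.symm (w' j) (w i), h.dual j i]
    by_cases hij : i = j
    · rw [if_pos hij, if_pos hij.symm, star_one]
    · rw [if_neg hij, if_neg (fun h => hij h.symm), star_zero]
  have hproj : ∀ x : Jx n → K,
      x - (∑ i, H.h (w' i) x • w i + ∑ i, H.h (w i) x • w' i) ∈ D := by
    intro x
    rw [hmem]
    constructor
    · intro j
      rw [map_sub, map_add, map_sum, map_sum]
      simp only [map_smul, h.iso, hww', smul_eq_mul, mul_zero, Finset.sum_const_zero, mul_ite,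
        mul_one, Finset.sum_ite_eq, Finset.mem_univ, if_true, zero_add, sub_self]
    · intro j
      rw [map_sub, map_add, map_sum, map_sum]
      simp only [map_smul, h.iso', h.dual, smul_eq_mul, mul_zero, Finset.sum_const_zero, mul_ite,
        mul_one, Finset.sum_ite_eq, Finset.mem_univ, if_true, add_zero, sub_self]
  have hND : H.ND D := by
    intro d hd hdD
    refine stdG_ND d trivial fun y _ => ?_
    have h1 := hdD _ (hproj y)
    have h2 := (hmem d).1 hd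
    have h3 : ∀ i, H.h d (w i) = 0 := fun i => H.swap_zero.1 (h2.1 i)
    have h4 : ∀ i, H.h d (w' i) = 0 := fun i => H.swap_zero.1 (h2.2 i)
    rw [map_sub, map_add, map_sum, map_sum] at h1
    simp only [map_smul, h3, h4, smul_zero, Finset.sum_const_zero, add_zero, sub_zero] at h1
    exact h1
  obtain ⟨x, hx, hxx⟩ := noniso_in H hK hND (L := D) le_rfl (by omega)
  obtain ⟨c, hc⟩ := fld_norm hK (H.h x x)⁻¹ (by rw [star_inv₀, H.symm'])
  have hx' := (hmem x).1 hx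
  refine ⟨c • x, fun i => ?_, fun i => ?_, ?_⟩
  · rw [map_smul, hx'.1 i, smul_zero]
  · rw [map_smul, hx'.2 i, smul_zero]
  · rw [map_smul, H.smul_left, smul_eq_mul, ← mul_assoc, hc, inv_mul_cancel₀ hxx]

/-- the matrix with the columns `w j`, `w' j`, `d` -/
private def fd_P {n : ℕ} (w w' : Fin n → (Jx n → K)) (d : Jx n → K) : Matrix (Jx n) (Jx n) K :=
  Matrix.of fun i s => Sum.elim (Sum.elim w w') (fun _ => d) s i

private theorem fd_entry {n : ℕ} (w w' : Fin n → (Jx n → K)) (d : Jx n → K)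
    (g : Matrix (Jx n) (Jx n) K) (s t : Jx n) :
    ((fd_P w w' d)ᴴ * g * fd_P w w' d) s t =
      (stdG K (Jx n)).h (Sum.elim (Sum.elim w w') (fun _ => d) s)
        (Matrix.toLin' g (Sum.elim (Sum.elim w w') (fun _ => d) t)) := by
  rw [fd_dot, Matrix.toLin'_apply, Matrix.mul_assoc, Matrix.mul_apply]
  rfl

private theorem fd_JO {n : ℕ} : JO K n * JO K n = 1 := by
  unfold JO JJ
  rw [fromBlocks_multiply, fromBlocks_multiply]
  simp

/-- MODULE fd. As `frame_odd` (ThU/OFrame.lean; copy its private lemmas), for the block `₁₁ ₂₁`. -/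
theorem frame_odd21 {n : ℕ} [Finite K] (hK : ∃ x : K, star x ≠ x) {w w' : Fin n → (Jx n → K)}
    (h : (stdG K (Jx n)).Hyp ⊤ n w w') (g : Matrix (Jx n) (Jx n) K) :
    ∃ P : Matrix (Jx n) (Jx n) K, Pᴴ * P = JO K n ∧
      ∀ i j, (P⁻¹ * g * P).toBlocks₁₁.toBlocks₂₁ i j =
        (stdG K (Jx n)).h (w i) (Matrix.toLin' g (w j)) := by
  obtain ⟨d, hd, hd', hdd⟩ := fd_d hK h
  have hdw : ∀ i, (stdG K (Jx n)).h d (w i) = 0 := fun i => (stdG K (Jx n)).swap_zero.1 (hd i)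
  have hdw' : ∀ i, (stdG K (Jx n)).h d (w' i) = 0 := fun i => (stdG K (Jx n)).swap_zero.1 (hd' i)
  have h1 : (fd_P w w' d)ᴴ * fd_P w w' d = JO K n := by
    ext s t
    have h2 := fd_entry w w' d 1 s t
    rw [Matrix.mul_one, Matrix.toLin'_one, LinearMap.id_apply] at h2
    rw [h2]
    unfold JO JJ
    rcases s with (i | i) | u <;> rcases t with (j | j) | v
    · exact h.iso i j
    · have h3 := h.dual j i
      show (stdG K (Jx n)).h (w i) (w' j) = (1 : Matrix (Fin n) (Fin n) K) i j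
      rw [(stdG K (Jx n)).symm (w' j) (w i), h3, Matrix.one_apply]
      by_cases hij : i = j
      · rw [if_pos hij, if_pos hij.symm, star_one]
      · rw [if_neg hij, if_neg (fun h => hij h.symm), star_zero]
    · exact hd i
    · exact h.dual i j
    · exact h.iso' i j
    · exact hd' i
    · exact hdw j
    · exact hdw' j
    · exact hdd
  refine ⟨fd_P w w' d, h1, fun i j => ?_⟩
  have h2 : (fd_P w w' d)⁻¹ = JO K n * (fd_P w w' d)ᴴ := by
    apply Matrix.inv_eq_left_inv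
    rw [Matrix.mul_assoc, h1, fd_JO]
  rw [h2, Matrix.mul_assoc, Matrix.mul_assoc]
  have h3 := fd_entry w w' d g (Sum.inl (Sum.inl i)) (Sum.inl (Sum.inl j))
  have h4 : (JO K n * ((fd_P w w' d)ᴴ * (g * fd_P w w' d))).toBlocks₁₁.toBlocks₂₁ i j =
      ((fd_P w w' d)ᴴ * (g * fd_P w w' d)) (Sum.inl (Sum.inl i)) (Sum.inl (Sum.inl j)) := by
    show (JO K n * ((fd_P w w' d)ᴴ * (g * fd_P w w' d))) (Sum.inl (Sum.inr i))
      (Sum.inl (Sum.inl j)) = _
    rw [Matrix.mul_apply, Fintype.sum_sum_type, Fintype.sum_sum_type]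
    unfold JO JJ
    simp only [fromBlocks_apply₁₁, fromBlocks_apply₁₂, fromBlocks_apply₂₁, fromBlocks_apply₂₂,
      Matrix.zero_apply, zero_mul, Finset.sum_const_zero, add_zero, Matrix.one_apply,
      ite_mul, one_mul, Finset.sum_ite_eq, Finset.mem_univ, if_true]
  rw [h4, ← Matrix.mul_assoc, h3]
  rfl
-- END fd

-- BEGIN fe
omit [StarRing K] in
private theorem fe_scal {m : Type*} [Fintype m] [DecidableEq m] {g : Matrix m m K}
    (hns : ∀ c : K, g ≠ c • (1 : Matrix m m K)) : ¬ Scal ⊤ (Matrix.toLin' g) := by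
  rintro ⟨c, hc⟩
  apply hns c
  apply Matrix.toLin'.injective
  refine LinearMap.ext fun x => ?_
  rw [hc x trivial, map_smul, Matrix.toLin'_one, LinearMap.smul_apply, LinearMap.id_apply]

/-- MODULE fe. `exists_z` (for `U = ⊤`; `Scal ⊤ (toLin' g)` would give `g = c • 1`), `hyp_cons_even`, `frame_hyp21`: the entry `(0, 0)` is not zero. -/
theorem frame4 [Finite K] (hK : ∃ x : K, star x ≠ x) {g : Matrix (Ix 2) (Ix 2) K} (hg : gᴴ * g = 1) (hns : ∀ c : K, g ≠ c • (1 : Matrix (Ix 2) (Ix 2) K)) :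
    ∃ P : Matrix (Ix 2) (Ix 2) K, Pᴴ * P = JJ K 2 ∧ (P⁻¹ * g * P).toBlocks₂₁ ≠ 0 := by
  have hfr : finrank K (⊤ : Submodule K (Ix 2 → K)) = 2 * (1 + 1) := by
    rw [finrank_top, Module.finrank_fintype_fun_eq_card]
    simp
  obtain ⟨u, hu, huu, hz⟩ := exists_z (stdH K 2) hK stdH_ND (by rw [hfr]; norm_num) (stdH_iso hg)
    (fe_scal hns)
  have hu0 : u ≠ 0 := by
    rintro rfl
    exact hz ((stdH K 2).zero_left _)
  obtain ⟨w, w', hw, hw0⟩ := hyp_cons_even (stdH K 2) hK stdH_ND hfr hu hu0 huu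
  obtain ⟨P, hP, hP2⟩ := frame_hyp21 hw g
  refine ⟨P, hP, fun h0 => hz ?_⟩
  have h1 := hP2 0 0
  rw [hw0] at h1
  rw [← h1]
  exact congrFun (congrFun h0 0) 0

theorem frame5 [Finite K] (hK : ∃ x : K, star x ≠ x) {g : Matrix (Jx 2) (Jx 2) K} (hg : gᴴ * g = 1) (hns : ∀ c : K, g ≠ c • (1 : Matrix (Jx 2) (Jx 2) K)) :
    ∃ P : Matrix (Jx 2) (Jx 2) K, Pᴴ * P = JO K 2 ∧ (P⁻¹ * g * P).toBlocks₁₁.toBlocks₂₁ ≠ 0 := by
  have hfr : finrank K (⊤ : Submodule K (Jx 2 → K)) = 2 * (1 + 1) + 1 := by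
    rw [finrank_top, Module.finrank_fintype_fun_eq_card]
    simp
  obtain ⟨u, hu, huu, hz⟩ := exists_z (stdG K (Jx 2)) hK stdG_ND (by rw [hfr]; norm_num)
    (stdG_iso hg) (fe_scal hns)
  have hu0 : u ≠ 0 := by
    rintro rfl
    exact hz ((stdG K (Jx 2)).zero_left _)
  obtain ⟨w, w', hw, hw0⟩ := hyp_cons_odd (stdG K (Jx 2)) hK stdG_ND hfr hu hu0 huu
  obtain ⟨P, hP, hP2⟩ := frame_odd21 hK hw g
  refine ⟨P, hP, fun h0 => hz ?_⟩
  have h1 := hP2 0 0
  rw [hw0] at h1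
  rw [← h1]
  exact congrFun (congrFun h0 0) 0
-- END fe

-- BEGIN ff
private theorem ff_JU {t : Matrix (Fin 2) (Fin 2) K} (ht : tᴴ = -t) :
    (fromBlocks 1 t 0 1 : Matrix (Ix 2) (Ix 2) K)ᴴ * JJ K 2 * fromBlocks 1 t 0 1 = JJ K 2 := by
  unfold JJ
  rw [fromBlocks_conjTranspose, fromBlocks_multiply, fromBlocks_multiply, ht]
  simp

private theorem ff_UV (t : Matrix (Fin 2) (Fin 2) K) :
    (fromBlocks 1 t 0 1 : Matrix (Ix 2) (Ix 2) K) * fromBlocks 1 (-t) 0 1 = 1 := by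
  rw [fromBlocks_multiply]
  simp

private theorem ff_det (t : Matrix (Fin 2) (Fin 2) K) : (fromBlocks 1 t 0 1 : Matrix (Ix 2) (Ix 2) K).det = 1 := by
  rw [det_fromBlocks_zero₂₁]
  simp

private theorem ff_JJ : (JJ K 2) * JJ K 2 = 1 := by
  unfold JJ
  rw [fromBlocks_multiply]
  simp

/-- the determinant of the block `₁₁` of an isometry of determinant 1 is fixed by `star` -/
private theorem ff_star {M : Matrix (Ix 2) (Ix 2) K} (h : Mᴴ * JJ K 2 * M = JJ K 2) (hd : M.det = 1) :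
    star M.toBlocks₁₁.det = M.toBlocks₁₁.det := by
  obtain ⟨a, b, c, d, rfl⟩ : ∃ a b c d, M = fromBlocks a b c d :=
    ⟨M.toBlocks₁₁, M.toBlocks₁₂, M.toBlocks₂₁, M.toBlocks₂₂, (fromBlocks_toBlocks M).symm⟩
  have h1 : (JJ K 2 * (fromBlocks a b c d)ᴴ * JJ K 2) * fromBlocks a b c d = 1 := by
    rw [Matrix.mul_assoc (JJ K 2), Matrix.mul_assoc (JJ K 2), h, ff_JJ]
  have h2 : fromBlocks a b c d * (JJ K 2 * (fromBlocks a b c d)ᴴ * JJ K 2) = 1 := mul_eq_one_comm.mp h1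
  have h3 : JJ K 2 * (fromBlocks a b c d)ᴴ * JJ K 2 = fromBlocks dᴴ bᴴ cᴴ aᴴ := by
    unfold JJ
    rw [fromBlocks_conjTranspose, fromBlocks_multiply, fromBlocks_multiply]
    simp
  rw [h3, fromBlocks_multiply, ← fromBlocks_one, fromBlocks_inj] at h2
  have h4 : fromBlocks a b c d * fromBlocks 1 bᴴ 0 aᴴ = fromBlocks a 0 c 1 := by
    rw [fromBlocks_multiply, h2.2.1, h2.2.2.2]
    simp
  have h5 := congrArg Matrix.det h4
  rw [det_mul, hd, one_mul, det_fromBlocks_zero₂₁, det_fromBlocks_zero₁₂, det_one, one_mul, mul_one, det_conjTranspose] at h5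
  rw [toBlocks_fromBlocks₁₁]
  exact h5

private theorem ff_mul (M : Matrix (Ix 2) (Ix 2) K) (t : Matrix (Fin 2) (Fin 2) K) :
    (fromBlocks 1 t 0 1 * M * fromBlocks 1 (-t) 0 1).toBlocks₁₁ = M.toBlocks₁₁ + t * M.toBlocks₂₁ := by
  obtain ⟨a, b, c, d, rfl⟩ : ∃ a b c d, M = fromBlocks a b c d :=
    ⟨M.toBlocks₁₁, M.toBlocks₁₂, M.toBlocks₂₁, M.toBlocks₂₂, (fromBlocks_toBlocks M).symm⟩
  rw [fromBlocks_multiply, fromBlocks_multiply, toBlocks_fromBlocks₁₁, toBlocks_fromBlocks₁₁, toBlocks_fromBlocks₂₁]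
  simp

/-- MODULE ff. `M = P⁻¹ g P` satisfies `Mᴴ J M = J`, `det M = 1`; `a, c` its blocks `₁₁, ₂₁`.  `hac`: block `₁₁` of `Mᴴ J M = J`.  `hker`: `M` is invertible.  For `tᴴ = -t` put `U = fromBlocks 1 (-t) 0 1`, `U⁻¹ = fromBlocks 1 t 0 1`, `Uᴴ J U = J`, and `(U⁻¹ M U).toBlocks₁₁ = a + t * c`.
`hF`: for every `M'` with `M'ᴴ J M' = J`, `det M' = 1` and blocks `a', b', c', d'`: `M' * fromBlocks 1 b'ᴴ 0 a'ᴴ = fromBlocks a' 0 c' 1` (`M'⁻¹ = J M'ᴴ J`), so `star (det a') = det a'`; take `M' = U⁻¹ M U`.  Then `core4`, `P U` is the frame. -/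
theorem geo4 [Finite K] (hK : ∃ x : K, star x ≠ x) {g : Matrix (Ix 2) (Ix 2) K} (hg : gᴴ * g = 1) (hd : g.det = 1) (hns : ∀ c : K, g ≠ c • (1 : Matrix (Ix 2) (Ix 2) K)) :
    ∃ P : Matrix (Ix 2) (Ix 2) K, Pᴴ * P = JJ K 2 ∧ Ns (P⁻¹ * g * P).toBlocks₁₁ := by
  obtain ⟨P, hP, hc⟩ := frame4 hK hg hns
  have hPd : IsUnit P.det := by
    have h1 := congrArg Matrix.det hP
    have h2 := congrArg Matrix.det (ff_JJ (K := K))
    rw [det_mul, det_one, ← h1, det_mul] at h2
    refine IsUnit.of_mul_eq_one (Pᴴ.det * (Pᴴ.det * P.det)) ?_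
    linear_combination h2
  have hPP : P * P⁻¹ = 1 := mul_nonsing_inv _ hPd
  have hPP' : P⁻¹ * P = 1 := nonsing_inv_mul _ hPd
  have hdP : P⁻¹.det * P.det = 1 := by rw [← det_mul, hPP', det_one]
  generalize hM : P⁻¹ * g * P = M at hc
  have hMJ : Mᴴ * JJ K 2 * M = JJ K 2 := by
    have e1 : P * M = g * P := by
      rw [← hM, ← Matrix.mul_assoc, ← Matrix.mul_assoc, hPP, Matrix.one_mul]
    rw [← hP]
    calc Mᴴ * (Pᴴ * P) * M = (P * M)ᴴ * (P * M) := by
          rw [conjTranspose_mul]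
          simp only [Matrix.mul_assoc]
      _ = Pᴴ * (gᴴ * g) * P := by
          rw [e1, conjTranspose_mul]
          simp only [Matrix.mul_assoc]
      _ = Pᴴ * P := by rw [hg, Matrix.mul_one]
  have hMd : M.det = 1 := by
    rw [← hM, det_mul, det_mul, hd]
    linear_combination hdP
  have hMu : IsUnit M.det := by rw [hMd]; exact isUnit_one
  obtain ⟨a, b, c, d, rfl⟩ : ∃ a b c d, M = fromBlocks a b c d :=
    ⟨M.toBlocks₁₁, M.toBlocks₁₂, M.toBlocks₂₁, M.toBlocks₂₂, (fromBlocks_toBlocks M).symm⟩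
  rw [toBlocks_fromBlocks₂₁] at hc
  have hac : aᴴ * c + cᴴ * a = 0 := by
    have h1 := hMJ
    unfold JJ at h1
    rw [fromBlocks_conjTranspose, fromBlocks_multiply, fromBlocks_multiply, fromBlocks_inj] at h1
    have h2 := h1.1
    simp only [Matrix.mul_zero, Matrix.mul_one, zero_add, add_zero] at h2
    rw [add_comm]
    exact h2
  have hker : ∀ k : Fin 2 → K, a *ᵥ k = 0 → c *ᵥ k = 0 → k = 0 := by
    intro k h1 h2
    have h3 : fromBlocks a b c d *ᵥ (Sum.elim k (0 : Fin 2 → K)) = 0 := by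
      rw [fromBlocks_mulVec]
      funext i
      rcases i with i | i
      · simp [h1]
      · simp [h2]
    have h4 : Sum.elim k (0 : Fin 2 → K) = 0 := by
      rw [← one_mulVec (Sum.elim k (0 : Fin 2 → K)), ← nonsing_inv_mul _ hMu, ← mulVec_mulVec, h3, mulVec_zero]
    funext i
    exact congrFun h4 (Sum.inl i)
  have hF : ∀ t : Matrix (Fin 2) (Fin 2) K, tᴴ = -t → star (a + t * c).det = (a + t * c).det := by
    intro t ht
    have ht' : (-t)ᴴ = - -t := by rw [conjTranspose_neg, ht]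
    have e := ff_mul (fromBlocks a b c d) t
    rw [toBlocks_fromBlocks₁₁, toBlocks_fromBlocks₂₁] at e
    rw [← e]
    refine ff_star ?_ ?_
    · calc (fromBlocks 1 t 0 1 * fromBlocks a b c d * fromBlocks 1 (-t) 0 1)ᴴ * JJ K 2 * (fromBlocks 1 t 0 1 * fromBlocks a b c d * fromBlocks 1 (-t) 0 1) =
          (fromBlocks 1 (-t) 0 1)ᴴ * ((fromBlocks a b c d)ᴴ * ((fromBlocks 1 t 0 1)ᴴ * JJ K 2 * fromBlocks 1 t 0 1) * fromBlocks a b c d) * fromBlocks 1 (-t) 0 1 := by
            rw [conjTranspose_mul, conjTranspose_mul]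
            simp only [Matrix.mul_assoc]
        _ = JJ K 2 := by rw [ff_JU ht, hMJ, ff_JU ht']
    · rw [det_mul, det_mul, ff_det, ff_det, hMd]
      ring
  obtain ⟨t, ht, hNs⟩ := core4 hK hac hc hker hF
  have ht' : (-t)ᴴ = - -t := by rw [conjTranspose_neg, ht]
  refine ⟨P * fromBlocks 1 (-t) 0 1, ?_, ?_⟩
  · calc (P * fromBlocks 1 (-t) 0 1)ᴴ * (P * fromBlocks 1 (-t) 0 1) = (fromBlocks 1 (-t) 0 1)ᴴ * (Pᴴ * P) * fromBlocks 1 (-t) 0 1 := by
          rw [conjTranspose_mul]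
          simp only [Matrix.mul_assoc]
      _ = JJ K 2 := by rw [hP, ff_JU ht']
  · have hinv : (P * fromBlocks 1 (-t) 0 1)⁻¹ = fromBlocks 1 t 0 1 * P⁻¹ := by
      refine inv_eq_left_inv ?_
      calc fromBlocks 1 t 0 1 * P⁻¹ * (P * fromBlocks 1 (-t) 0 1) = fromBlocks 1 t 0 1 * (P⁻¹ * P) * fromBlocks 1 (-t) 0 1 := by
            simp only [Matrix.mul_assoc]
        _ = 1 := by rw [hPP', Matrix.mul_one, ff_UV]
    have e : (P * fromBlocks 1 (-t) 0 1)⁻¹ * g * (P * fromBlocks 1 (-t) 0 1) = fromBlocks 1 t 0 1 * fromBlocks a b c d * fromBlocks 1 (-t) 0 1 := by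
      rw [hinv, ← hM]
      simp only [Matrix.mul_assoc]
    rw [e, ff_mul, toBlocks_fromBlocks₁₁, toBlocks_fromBlocks₂₁]
    exact hNs
-- END ff


end ThU
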