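import Pool.Agent.ThU.OFinal
import Pool.Agent.ThU.Final

/-! # Thompson's conjecture for `PSU_4(q)` and `PSU_5(q)`: the 2 x 2 block `B` -/

namespace ThU
open Matrix Polynomial Module

variable {K : Type*} [Field K] [StarRing K]

/-- companion matrix of `x ^ 2 - t x + 1` -/
def cB (t : K) : Matrix (Fin 2) (Fin 2) K := !![0, -1; 1, t]

/-- `x ^ 2 - t x + 1` has no root in `K` -/
def NR (t : K) : Prop := ∀ r : K, r * r - t * r + 1 ≠ 0

-- BEGIN sa
/-- MODULE sa. The map `r ↦ r + r⁻¹` from the nonzero elements to `K` is not onto (cardinality): take `t` outside the image. -/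
theorem exists_NR [Finite K] : ∃ t : K, NR t := by
  by_contra h
  have h1 : ∀ t : K, ∃ r : K, r * r - t * r + 1 = 0 := by
    intro t
    by_contra h2
    exact h ⟨t, fun r hr => h2 ⟨r, hr⟩⟩
  choose g hg using h1
  have hg0 : ∀ t, g t ≠ 0 := by
    intro t h0
    have h2 := hg t
    rw [h0] at h2
    simp at h2
  have hinj : Function.Injective g := by
    intro a b hab
    have ha := hg a
    have hb := hg b
    rw [← hab] at hb
    have h2 : (a - b) * g a = 0 := by linear_combination hb - ha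
    rcases mul_eq_zero.1 h2 with h3 | h3
    · exact sub_eq_zero.1 h3
    · exact absurd h3 (hg0 a)
  obtain ⟨t, ht⟩ := (Finite.injective_iff_surjective.1 hinj) 0
  exact hg0 t ht

omit [StarRing K] in
/-- an element of an extension field fixed by the `|K|`-power map is in `K` -/
private theorem sa_fix [Finite K] {E : Type*} [Field E] [Algebra K E] {x : E} (hx : x ^ Nat.card K = x) :
    ∃ r : K, algebraMap K E r = x := by
  classical
  have := Fintype.ofFinite K
  have hK1 : 1 < Fintype.card K := Fintype.one_lt_card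
  rw [Nat.card_eq_fintype_card] at hx
  have hne : (X ^ Fintype.card K - X : E[X]) ≠ 0 := FiniteField.X_pow_card_sub_X_ne_zero E hK1
  have hdeg : (X ^ Fintype.card K - X : E[X]).natDegree = Fintype.card K :=
    FiniteField.X_pow_card_sub_X_natDegree_eq E hK1
  have hsub : (Finset.univ.image (algebraMap K E)) ⊆ (X ^ Fintype.card K - X : E[X]).roots.toFinset := by
    intro y hy
    obtain ⟨r, -, rfl⟩ := Finset.mem_image.1 hy
    rw [Multiset.mem_toFinset, mem_roots hne, IsRoot.def, eval_sub, eval_pow, eval_X, ← map_pow,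
      FiniteField.pow_card, sub_self]
  have hcard : (X ^ Fintype.card K - X : E[X]).roots.toFinset.card ≤ (Finset.univ.image (algebraMap K E)).card := by
    rw [Finset.card_image_of_injective _ (algebraMap K E).injective, Finset.card_univ]
    calc _ ≤ (X ^ Fintype.card K - X : E[X]).roots.card := Multiset.toFinset_card_le _
      _ ≤ (X ^ Fintype.card K - X : E[X]).natDegree := card_roots' _
      _ = Fintype.card K := hdeg
  have heq := Finset.eq_of_subset_of_card_le hsub hcard
  have hmem : x ∈ (X ^ Fintype.card K - X : E[X]).roots.toFinset := by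
    rw [Multiset.mem_toFinset, mem_roots hne, IsRoot.def, eval_sub, eval_pow, eval_X, hx, sub_self]
  rw [← heq] at hmem
  obtain ⟨r, -, hr⟩ := Finset.mem_image.1 hmem
  exact ⟨r, hr⟩

/-- Let `E = AdjoinRoot (X ^ 2 - C t * X + 1)`, a field with `q ^ 4` elements (`fld_card`: `|K| = q ^ 2`, `star x = x ^ q`), `l` the root; `l ^ (q ^ 2)` is a root of
the same polynomial, not `l` (an element `x` of `E` with `x ^ |K| = x` is in `K`), so it is `l⁻¹`.  If `star t = t` then `l ^ q` is a root: `l ^ q = l` or `l⁻¹`, so `l ^ (q ^ 2) = l`.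
If `star t = - t` then `- l ^ q` is a root: `l ^ q = - l` or `- l⁻¹`, and again `l ^ (q ^ 2) = l` (`(-1) ^ q = -1` in `K`: `star (-1) = -1`). -/
theorem NR_star [Finite K] (hK : ∃ x : K, star x ≠ x) {t : K} (ht : NR t) : star t ≠ t ∧ star t ≠ -t := by
  obtain ⟨q, hq, hcard, hstar⟩ := fld_card hK
  obtain ⟨p, hp⟩ := CharP.exists K
  have hfK : Fintype K := Fintype.ofFinite K
  have hpp : Fact p.Prime := ⟨CharP.char_is_prime K p⟩
  have hpE : CharP (AlgebraicClosure K) p :=
    charP_of_injective_algebraMap (algebraMap K (AlgebraicClosure K)).injective p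
  obtain ⟨m, -, hm⟩ := FiniteField.card K p
  have hcK : Fintype.card K = q ^ 2 := by rw [← hcard, Nat.card_eq_fintype_card]
  obtain ⟨j, -, hj⟩ := (Nat.dvd_prime_pow hpp.out).1
    (show q ∣ p ^ (m : ℕ) by rw [← hm, hcK]; exact dvd_pow_self q two_ne_zero)
  obtain ⟨φ, hφ⟩ : ∃ φ : AlgebraicClosure K →+* AlgebraicClosure K, ∀ x, φ x = x ^ q :=
    ⟨iterateFrobenius (AlgebraicClosure K) p j, fun x => by rw [iterateFrobenius_def, hj]⟩
  have hφK : ∀ x : K, φ (algebraMap K (AlgebraicClosure K) x) = algebraMap K (AlgebraicClosure K) (star x) := by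
    intro x
    rw [hφ, hstar, map_pow]
  obtain ⟨l, hl⟩ : ∃ l : AlgebraicClosure K, l * l - algebraMap K (AlgebraicClosure K) t * l + 1 = 0 := by
    have hd : (X * X - C (algebraMap K (AlgebraicClosure K) t) * X + 1 : (AlgebraicClosure K)[X]).degree ≠ 0 := by
      have h1 : (X * X - C (algebraMap K (AlgebraicClosure K) t) * X + 1 : (AlgebraicClosure K)[X]).degree = 2 := by
        compute_degree!
      rw [h1]
      decide
    obtain ⟨l, hl⟩ := IsAlgClosed.exists_root _ hd
    refine ⟨l, ?_⟩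
    rw [IsRoot.def] at hl
    simpa using hl
  have hll : l * (algebraMap K (AlgebraicClosure K) t - l) = 1 := by linear_combination -hl
  have hl0 : l ≠ 0 := left_ne_zero_of_mul_eq_one hll
  have hinv : algebraMap K (AlgebraicClosure K) t - l = l⁻¹ := eq_inv_of_mul_eq_one_right hll
  -- no root of the polynomial is fixed by the square of the Frobenius
  have hno : φ (φ l) ≠ l := by
    intro h
    have h1 : l ^ Nat.card K = l := by
      rw [hcard, pow_two, pow_mul, ← hφ, ← hφ, h]
    obtain ⟨r, hr⟩ := sa_fix h1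
    apply ht r
    apply (algebraMap K (AlgebraicClosure K)).injective
    rw [map_add, map_sub, map_mul, map_mul, map_one, map_zero, hr, hl]
  have hφl : φ l * φ l - algebraMap K (AlgebraicClosure K) (star t) * φ l + 1 = 0 := by
    rw [← hφK, ← map_mul, ← map_mul, ← map_sub, ← map_one φ, ← map_add, hl, map_zero]
  refine ⟨fun h => ?_, fun h => ?_⟩
  · rw [h] at hφl
    have h1 : (φ l - l) * (φ l - (algebraMap K (AlgebraicClosure K) t - l)) = 0 := by
      linear_combination hφl - hl
    rcases mul_eq_zero.1 h1 with h2 | h2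
    · have h3 : φ l = l := sub_eq_zero.1 h2
      exact hno (by rw [h3, h3])
    · have h3 : φ l = l⁻¹ := by rw [← hinv]; exact sub_eq_zero.1 h2
      exact hno (by rw [h3, map_inv₀, h3, inv_inv])
  · rw [h, map_neg] at hφl
    have h1 : (φ l + l) * (φ l + (algebraMap K (AlgebraicClosure K) t - l)) = 0 := by
      linear_combination hφl - hl
    rcases mul_eq_zero.1 h1 with h2 | h2
    · have h3 : φ l = -l := eq_neg_of_add_eq_zero_left h2
      exact hno (by rw [h3, map_neg, h3, neg_neg])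
    · have h3 : φ l = -l⁻¹ := by rw [← hinv]; exact eq_neg_of_add_eq_zero_left h2
      exact hno (by rw [h3, map_neg, map_inv₀, h3, inv_neg, inv_inv, neg_neg])
-- END sa

-- BEGIN sb
/-- MODULE sb. `det (u + v B)`: the norm form of `E = K(l)` (`FiniteField.norm_surjective`, compare `seed_exists`), or: characteristic `≠ 2`: complete the square, `FiniteField.exists_root_sum_quadratic`;
characteristic 2: `v = 0`, every element is a square. -/
theorem univ2 [Finite K] {t : K} (ht : NR t) (κ : K) : ∃ u v : K, u * u + t * u * v + v * v = κ := by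
  have := Fintype.ofFinite K
  by_cases h2 : ringChar K = 2
  · obtain ⟨u, hu⟩ := FiniteField.isSquare_of_char_two h2 κ
    exact ⟨u, 0, by rw [hu]; ring⟩
  · have h20 : (2 : K) ≠ 0 := Ring.two_ne_zero h2
    have hc : 1 - t * t / 4 ≠ 0 := by
      intro h
      apply ht (t / 2)
      have h40 : (4 : K) ≠ 0 := by
        have : (4 : K) = 2 * 2 := by norm_num
        rw [this]
        exact mul_ne_zero h20 h20
      field_simp at h ⊢
      linear_combination h
    have hd1 : (X ^ 2 - C κ : K[X]).degree = 2 := by compute_degree!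
    have hd2 : (C (1 - t * t / 4) * X ^ 2 : K[X]).degree = 2 := by
      rw [degree_C_mul_X_pow 2 hc]
      rfl
    obtain ⟨a, b, hab⟩ := FiniteField.exists_root_sum_quadratic hd1 hd2 (FiniteField.odd_card_of_char_ne_two h2)
    simp only [eval_sub, eval_pow, eval_X, eval_C, eval_mul] at hab
    refine ⟨a - t / 2 * b, b, ?_⟩
    have h4 : (4 : K) = 2 * 2 := by norm_num
    have h5 : t * t / 4 = t / 2 * (t / 2) := by
      rw [h4]
      field_simp
    have h6 : t = 2 * (t / 2) := by field_simp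
    rw [h5] at hab
    linear_combination hab + (a * b - t / 2 * b * b) * h6

/-- `C = B` satisfies `C * C = t C - 1`, `C = (Bᴴ)⁻¹` satisfies `C * C = star t C - 1`.  `syl`: `Z B = (Bᴴ)⁻¹ Z` gives `0 = Z (B B - t B + 1) = ((Bᴴ)⁻¹ (Bᴴ)⁻¹ - t (Bᴴ)⁻¹ + 1) Z = (star t - t) (Bᴴ)⁻¹ Z`.
`syl'` the same.  `cent`: `fld_hilb` gives `c = d * star c`, `c ≠ 0`, `univ2` for `c`, `C = u + v B`.  `real`: `k = !![0, 1; 1, 0]`, `k * B⁻¹ = B * k`.  `det (B - 1) = 2 - t ≠ 0` (`NR t` at `r = 1`). -/
theorem seed2 [Finite K] (hK : ∃ x : K, star x ≠ x) {t : K} (ht : NR t) : Seed (cB t) ∧ IsUnit (cB t - 1).det := by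
  obtain ⟨hs1, -⟩ := NR_star hK ht
  have hts : t - star t ≠ 0 := sub_ne_zero.2 (Ne.symm hs1)
  have hdet : (cB t).det = 1 := by simp [cB, det_fin_two_of]
  have hB : cB t * cB t = t • cB t - 1 := by
    ext i j
    fin_cases i <;> fin_cases j <;> simp [cB, Matrix.mul_apply, Fin.sum_univ_two]
    ring
  have hBs : (cB t)ᴴ * (cB t)ᴴ = star t • (cB t)ᴴ - 1 := by
    have h1 := congrArg conjTranspose hB
    rw [conjTranspose_mul, conjTranspose_sub, conjTranspose_smul, conjTranspose_one] at h1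
    exact h1
  have hsum : ∀ Z P Q : Matrix (Fin 2) (Fin 2) K, t • Z - P = Q → star t • Z - Q = P → Z = 0 := by
    intro Z P Q h1 h2
    have h3 : (t - star t) • Z = 0 := by
      rw [sub_smul, sub_eq_zero]
      calc t • Z = Q + P := by rw [← h1]; abel
        _ = star t • Z := by rw [← h2]; abel
    exact (smul_eq_zero.1 h3).resolve_left hts
  refine ⟨⟨by rw [hdet]; exact isUnit_one, ?_, ?_, ?_, ?_⟩, ?_⟩
  · intro Z hZ
    refine hsum Z ((cB t)ᴴ * Z) (Z * cB t) ?_ ?_
    · have h1 : (cB t)ᴴ * Z * cB t * cB t = Z * cB t := by rw [hZ]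
      rw [Matrix.mul_assoc, hB, Matrix.mul_sub, Matrix.mul_smul, Matrix.mul_one, hZ] at h1
      exact h1
    · have h1 : (cB t)ᴴ * ((cB t)ᴴ * Z * cB t) = (cB t)ᴴ * Z := by rw [hZ]
      rw [Matrix.mul_assoc, ← Matrix.mul_assoc, hBs, Matrix.sub_mul, Matrix.smul_mul, Matrix.one_mul,
        ← Matrix.mul_assoc, hZ] at h1
      exact h1
  · intro Z hZ
    refine hsum Z (Z * (cB t)ᴴ) (cB t * Z) ?_ ?_
    · have h1 : cB t * (cB t * Z * (cB t)ᴴ) = cB t * Z := by rw [hZ]
      rw [Matrix.mul_assoc, ← Matrix.mul_assoc, hB, Matrix.sub_mul, Matrix.smul_mul, Matrix.one_mul,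
        ← Matrix.mul_assoc, hZ] at h1
      exact h1
    · have h1 : cB t * Z * (cB t)ᴴ * (cB t)ᴴ = Z * (cB t)ᴴ := by rw [hZ]
      rw [Matrix.mul_assoc, hBs, Matrix.mul_sub, Matrix.mul_smul, Matrix.mul_one, hZ] at h1
      exact h1
  · intro d hd
    obtain ⟨c, hc0, hc⟩ := fld_hilb hK d hd
    obtain ⟨u, v, huv⟩ := univ2 ht c
    have hC : (!![u, -v; v, u + t * v] : Matrix (Fin 2) (Fin 2) K).det = c := by
      rw [det_fin_two_of, ← huv]
      ring
    refine ⟨!![u, -v; v, u + t * v], by rw [hC]; exact isUnit_iff_ne_zero.2 hc0, ?_, by rw [hC]; exact hc⟩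
    ext i j
    fin_cases i <;> fin_cases j <;> simp [cB, Matrix.mul_apply, Fin.sum_univ_two] <;> ring
  · refine ⟨!![0, 1; 1, 0], by simp [det_fin_two_of], Or.inl ?_⟩
    have hu : IsUnit (cB t).det := by rw [hdet]; exact isUnit_one
    have h1 : (!![0, 1; 1, 0] : Matrix (Fin 2) (Fin 2) K) = cB t * !![0, 1; 1, 0] * cB t := by
      ext i j
      fin_cases i <;> fin_cases j <;> simp [cB, Matrix.mul_apply, Fin.sum_univ_two]
    calc !![0, 1; 1, 0] * (cB t)⁻¹ = cB t * !![0, 1; 1, 0] * cB t * (cB t)⁻¹ := by rw [← h1]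
      _ = cB t * !![0, 1; 1, 0] := by rw [Matrix.mul_nonsing_inv_cancel_right _ _ hu]
  · have h1 : (cB t - 1).det = 2 - t := by
      rw [det_fin_two]
      simp [cB]
      ring
    rw [h1, isUnit_iff_ne_zero]
    intro h
    apply ht 1
    linear_combination h
-- END sb

-- BEGIN fa
/-- MODULE fa. A vector `v` such that `v`, `X v` are independent; `S = (v, X v)`. -/
theorem sim_ns {X : Matrix (Fin 2) (Fin 2) K} (hX : ∀ c : K, X ≠ c • (1 : Matrix (Fin 2) (Fin 2) K)) :
    ∃ S : Matrix (Fin 2) (Fin 2) K, IsUnit S.det ∧ X = S * !![0, -X.det; 1, X.trace] * S⁻¹ := by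
  have key : ∀ S : Matrix (Fin 2) (Fin 2) K, S.det ≠ 0 → X * S = S * !![0, -X.det; 1, X.trace] →
      ∃ S : Matrix (Fin 2) (Fin 2) K, IsUnit S.det ∧ X = S * !![0, -X.det; 1, X.trace] * S⁻¹ := by
    intro S hS h
    have hu : IsUnit S.det := isUnit_iff_ne_zero.2 hS
    exact ⟨S, hu, by rw [← h, Matrix.mul_nonsing_inv_cancel_right _ _ hu]⟩
  obtain ⟨a, b, c, d, rfl⟩ : ∃ a b c d : K, X = !![a, b; c, d] := ⟨X 0 0, X 0 1, X 1 0, X 1 1, eta_fin_two X⟩
  by_cases hc : c = 0
  · by_cases hb : b = 0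
    · have had : a ≠ d := by
        rintro rfl
        apply hX a
        rw [hb, hc]
        ext i j
        fin_cases i <;> fin_cases j <;> simp
      refine key !![1, a; 1, d] ?_ ?_
      · rw [det_fin_two_of]
        intro h
        apply had
        linear_combination -h
      · rw [hb, hc]
        ext i j
        fin_cases i <;> fin_cases j <;> simp [Matrix.mul_apply, Fin.sum_univ_two, det_fin_two_of, trace_fin_two_of] <;> ring
    · refine key !![0, b; 1, d] ?_ ?_
      · rw [det_fin_two_of]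
        intro h
        apply hb
        linear_combination -h
      · ext i j
        fin_cases i <;> fin_cases j <;> simp [Matrix.mul_apply, Fin.sum_univ_two, det_fin_two_of, trace_fin_two_of] <;> ring
  · refine key !![1, a; 0, c] ?_ ?_
    · rw [det_fin_two_of]
      intro h
      apply hc
      linear_combination h
    · ext i j
      fin_cases i <;> fin_cases j <;> simp [Matrix.mul_apply, Fin.sum_univ_two, det_fin_two_of, trace_fin_two_of] <;> ring

omit [StarRing K] in
/-- two nonscalar matrices with the same determinant and trace are similar -/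
private theorem fa_conj {X Y : Matrix (Fin 2) (Fin 2) K} (hX : ∀ c : K, X ≠ c • (1 : Matrix (Fin 2) (Fin 2) K))
    (hY : ∀ c : K, Y ≠ c • (1 : Matrix (Fin 2) (Fin 2) K)) (hd : X.det = Y.det) (ht : X.trace = Y.trace)
    (sim : ∀ {X : Matrix (Fin 2) (Fin 2) K}, (∀ c : K, X ≠ c • (1 : Matrix (Fin 2) (Fin 2) K)) →
      ∃ S : Matrix (Fin 2) (Fin 2) K, IsUnit S.det ∧ X = S * !![0, -X.det; 1, X.trace] * S⁻¹) :
    ∃ S : Matrix (Fin 2) (Fin 2) K, IsUnit S.det ∧ X = S * Y * S⁻¹ := by
  obtain ⟨S, hS, hXS⟩ := sim hX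
  obtain ⟨T, hT, hYT⟩ := sim hY
  refine ⟨S * T⁻¹, ?_, ?_⟩
  · rw [det_mul]
    exact hS.mul (by rw [det_nonsing_inv]; exact hT.ringInverse)
  · have h1 : T⁻¹ * Y * T = !![0, -Y.det; 1, Y.trace] := by
      conv_lhs => rw [hYT]
      rw [Matrix.mul_assoc, Matrix.mul_assoc, Matrix.nonsing_inv_mul _ hT, Matrix.mul_one, ← Matrix.mul_assoc,
        Matrix.nonsing_inv_mul _ hT, Matrix.one_mul]
    rw [Matrix.mul_inv_rev, Matrix.nonsing_inv_nonsing_inv _ hT]
    calc X = S * !![0, -X.det; 1, X.trace] * S⁻¹ := hXS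
      _ = S * (T⁻¹ * Y * T) * S⁻¹ := by rw [h1, hd, ht]
      _ = S * T⁻¹ * Y * (T * S⁻¹) := by simp only [Matrix.mul_assoc]

/-- `s = tr a`.  There are `γ, δ` with `γ γ - t γ δ + δ δ + s γ - (star t) δ + 1 = 0` (`t ^ 2 - 4 ≠ 0` if `2 ≠ 0`, `t ≠ 0` if `2 = 0`, by `NR t`: shift `γ, δ` so that the linear terms vanish, then `univ2`).
`Y = !![star t - δ, s + γ - t δ; γ, δ]` has determinant 1, trace `star t`, and `cB t * Y` has determinant 1 and trace `s`; it is not a scalar (`cB t * Y = c` gives `c ^ 2 = 1`, `Y = c (cB t)⁻¹`, trace `c t ≠ star t`: `NR_star`).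
So `a = S (cB t * Y) S⁻¹` by `sim_ns` for both, and `Y`, `((cB t)ᴴ)⁻¹` are both nonscalar with determinant 1, trace `star t`. -/
theorem fac2 [Finite K] (hK : ∃ x : K, star x ≠ x) {t : K} (ht : NR t) {a : Matrix (Fin 2) (Fin 2) K} (had : a.det = 1)
    (hns : ∀ c : K, a ≠ c • (1 : Matrix (Fin 2) (Fin 2) K)) :
    ∃ Q R : Matrix (Fin 2) (Fin 2) K, IsUnit Q.det ∧ IsUnit R.det ∧ a = Q * cB t * Q⁻¹ * (R * ((cB t)ᴴ)⁻¹ * R⁻¹) := by
  obtain ⟨hs1, hs2⟩ := NR_star hK ht
  obtain ⟨s, hs⟩ : ∃ s, s = a.trace := ⟨_, rfl⟩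
  have h4 : 4 - t * t ≠ 0 := by
    intro h
    by_cases h2 : (2 : K) = 0
    · have h5 : t * t = 0 := by linear_combination 2 * h2 - h
      have h6 : t = 0 := mul_self_eq_zero.1 h5
      apply ht 1
      rw [h6]
      linear_combination h2
    · apply ht (t / 2)
      field_simp
      linear_combination h
  obtain ⟨γ, δ, hγδ⟩ : ∃ γ δ : K, γ * γ - t * γ * δ + δ * δ + s * γ - star t * δ + 1 = 0 := by
    obtain ⟨x, hx⟩ : ∃ x : K, (4 - t * t) * x = t * star t - 2 * s := ⟨(t * star t - 2 * s) / (4 - t * t), by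
      rw [mul_comm, div_mul_cancel₀ _ h4]⟩
    obtain ⟨y, hy⟩ : ∃ y : K, (4 - t * t) * y = 2 * star t - t * s := ⟨(2 * star t - t * s) / (4 - t * t), by
      rw [mul_comm, div_mul_cancel₀ _ h4]⟩
    have e1 : 2 * x - t * y + s = 0 := by
      apply (mul_eq_zero.1 (show (4 - t * t) * (2 * x - t * y + s) = 0 by linear_combination 2 * hx - t * hy)).resolve_left h4
    have e2 : 2 * y - t * x - star t = 0 := by
      apply (mul_eq_zero.1 (show (4 - t * t) * (2 * y - t * x - star t) = 0 by linear_combination 2 * hy - t * hx)).resolve_left h4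
    obtain ⟨u, v, huv⟩ := univ2 ht (-(x * x - t * x * y + y * y + s * x - star t * y + 1))
    refine ⟨u + x, -v + y, ?_⟩
    linear_combination huv + u * e1 - v * e2
  obtain ⟨Y, hY⟩ : ∃ Y : Matrix (Fin 2) (Fin 2) K, Y = !![star t - δ, s + γ - t * δ; γ, δ] := ⟨_, rfl⟩
  have hYd : Y.det = 1 := by
    rw [hY, det_fin_two_of]
    linear_combination -hγδ
  have hYt : Y.trace = star t := by
    rw [hY, trace_fin_two_of]
    ring
  have hBY : cB t * Y = !![-γ, -δ; star t - δ + t * γ, s + γ] := by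
    rw [hY]
    ext i j
    fin_cases i <;> fin_cases j <;> simp [cB, Matrix.mul_apply, Fin.sum_univ_two]
  have hBd : (cB t).det = 1 := by simp [cB, det_fin_two_of]
  have hBYd : (cB t * Y).det = 1 := by rw [det_mul, hBd, hYd, one_mul]
  have hBYt : (cB t * Y).trace = s := by
    rw [hBY, trace_fin_two_of]
    ring
  have hBYn : ∀ c : K, cB t * Y ≠ c • (1 : Matrix (Fin 2) (Fin 2) K) := by
    intro c hc
    have hd := hBYd
    rw [hc, det_smul, det_one, Fintype.card_fin, mul_one] at hd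
    rw [hBY] at hc
    have h00 := congrFun (congrFun hc 0) 0
    have h01 := congrFun (congrFun hc 0) 1
    have h10 := congrFun (congrFun hc 1) 0
    simp at h00 h01 h10
    have h5 : star t = c * t := by
      rw [h01] at h10
      linear_combination h10 + t * h00
    have h6 : (c - 1) * (c + 1) = 0 := by linear_combination hd
    rcases mul_eq_zero.1 h6 with h7 | h7
    · apply hs1
      rw [h5, sub_eq_zero.1 h7, one_mul]
    · apply hs2
      rw [h5, eq_neg_of_add_eq_zero_left h7]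
      ring
  have hr2 : ∀ c : K, c ^ 2 = 1 → star t ≠ 2 * c := by
    intro c hc h
    have h5 : t = 2 * star c := by
      have := congrArg star h
      rw [star_star, star_mul', star_ofNat] at this
      exact this
    have h6 : star c * star c = 1 := by
      have := congrArg star hc
      rw [star_pow, star_one, pow_two] at this
      exact this
    apply ht (star c)
    rw [h5]
    linear_combination -h6
  have hYn : ∀ c : K, Y ≠ c • (1 : Matrix (Fin 2) (Fin 2) K) := by
    intro c hc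
    have hd := hYd
    rw [hc, det_smul, det_one, Fintype.card_fin, mul_one] at hd
    have htr := hYt
    rw [hc, trace_smul, trace_one, Fintype.card_fin] at htr
    apply hr2 c hd
    rw [← htr]
    simp [mul_comm]
  have hHd : ((cB t)ᴴ)⁻¹.det = 1 := by
    rw [det_nonsing_inv, det_conjTranspose, hBd, star_one, Ring.inverse_one]
  have hHe : ((cB t)ᴴ)⁻¹ = !![star t, -1; 1, 0] := by
    apply Matrix.inv_eq_left_inv
    ext i j
    fin_cases i <;> fin_cases j <;> simp [cB, Matrix.mul_apply, Fin.sum_univ_two]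
  have hHt : ((cB t)ᴴ)⁻¹.trace = star t := by
    rw [hHe, trace_fin_two_of, add_zero]
  have hHn : ∀ c : K, ((cB t)ᴴ)⁻¹ ≠ c • (1 : Matrix (Fin 2) (Fin 2) K) := by
    intro c hc
    rw [hHe] at hc
    have h10 := congrFun (congrFun hc 1) 0
    simp at h10
  obtain ⟨S, hS, haS⟩ := fa_conj hns hBYn (by rw [had, hBYd]) (by rw [hBYt, hs]) sim_ns
  obtain ⟨T, hT, hYT⟩ := fa_conj hYn hHn (by rw [hYd, hHd]) (by rw [hYt, hHt]) sim_ns
  refine ⟨S, S * T, hS, by rw [det_mul]; exact hS.mul hT, ?_⟩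
  rw [Matrix.mul_inv_rev]
  calc a = S * (cB t * Y) * S⁻¹ := haS
    _ = S * (cB t * (T * ((cB t)ᴴ)⁻¹ * T⁻¹)) * S⁻¹ := by rw [← hYT]
    _ = S * cB t * (S⁻¹ * S) * T * ((cB t)ᴴ)⁻¹ * T⁻¹ * S⁻¹ := by
      rw [Matrix.nonsing_inv_mul _ hS, Matrix.mul_one]
      simp only [Matrix.mul_assoc]
    _ = S * cB t * S⁻¹ * (S * T * ((cB t)ᴴ)⁻¹ * (T⁻¹ * S⁻¹)) := by simp only [Matrix.mul_assoc]
-- END fa

end ThU
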