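import Pool.Agent.ThV.Uo
import Pool.Agent.ThU.Quot

/-! # Dimension 3 -/

set_option linter.unusedSectionVars false

namespace ThU
open Matrix Polynomial Module

variable {K : Type*} [Field K] [StarRing K]

/-- a frame with nonzero block `₂₁` in dimension 3 -/
theorem frame3 [Finite K] (hK : ∃ x : K, star x ≠ x) {g : Matrix (Jx 1) (Jx 1) K} (hg : gᴴ * g = 1)
    (hns : ∀ c : K, g ≠ c • (1 : Matrix (Jx 1) (Jx 1) K)) :
    ∃ P : Matrix (Jx 1) (Jx 1) K, Pᴴ * P = JO K 1 ∧ (P⁻¹ * g * P).toBlocks₁₁.toBlocks₂₁ 0 0 ≠ 0 := by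
  have hfr : finrank K (⊤ : Submodule K (Jx 1 → K)) = 2 * (0 + 1) + 1 := by
    rw [finrank_top]; simp
  have hs : ¬ Scal ⊤ (toLin' g) := by
    rintro ⟨c, hc⟩
    refine hns c ?_
    apply Matrix.toLin'.injective
    ext x i
    simp only [LinearMap.comp_apply, LinearMap.coe_single]
    rw [hc _ trivial]
    simp
  obtain ⟨w, -, hw0, hwz⟩ := exists_z (stdG K (Jx 1)) hK stdG_ND (by rw [hfr]; omega) (stdG_iso hg) hs
  have hw : w ≠ 0 := by
    rintro rfl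
    apply hwz
    rw [(stdG K (Jx 1)).zero_left]
  obtain ⟨u, u', hyp, hu⟩ := hyp_cons_odd (stdG K (Jx 1)) hK stdG_ND hfr (u := w) trivial hw hw0
  obtain ⟨P, hP, hPg⟩ := frame_odd21 hK hyp g
  refine ⟨P, hP, ?_⟩
  rw [hPg]
  have : u 0 = w := hu
  rw [this]
  exact hwz

/-- the upper left entry can be prescribed -/
theorem entry3 [Finite K] (hK : ∃ x : K, star x ≠ x) {g : Matrix (Jx 1) (Jx 1) K} (hg : gᴴ * g = 1)
    (hns : ∀ c : K, g ≠ c • (1 : Matrix (Jx 1) (Jx 1) K)) (k : K) :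
    ∃ P : Matrix (Jx 1) (Jx 1) K, Pᴴ * P = JO K 1 ∧ (P⁻¹ * g * P).toBlocks₁₁.toBlocks₁₁ = k • 1 := by
  obtain ⟨P, hP, hc⟩ := frame3 hK hg hns
  have hPu := OGrpB_P_unit hP
  obtain ⟨M, hM⟩ : ∃ M, M = P⁻¹ * g * P := ⟨_, rfl⟩
  rw [← hM] at hc
  have hMJ : Mᴴ * JO K 1 * M = JO K 1 := by
    have hPP : (P⁻¹)ᴴ * Pᴴ = 1 := by
      rw [← conjTranspose_mul, mul_nonsing_inv _ hPu, conjTranspose_one]
    rw [hM, conjTranspose_mul, conjTranspose_mul]
    calc Pᴴ * (gᴴ * (P⁻¹)ᴴ) * JO K 1 * (P⁻¹ * g * P) =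
          Pᴴ * (gᴴ * (P⁻¹)ᴴ) * (Pᴴ * P) * (P⁻¹ * g * P) := by rw [hP]
      _ = Pᴴ * gᴴ * ((P⁻¹)ᴴ * Pᴴ) * (P * P⁻¹) * g * P := by noncomm_ring
      _ = Pᴴ * (gᴴ * g) * P := by
          rw [hPP, mul_nonsing_inv _ hPu]
          noncomm_ring
      _ = JO K 1 := by rw [hg, Matrix.mul_one, hP]
  set a := M.toBlocks₁₁.toBlocks₁₁ with ha
  set c := M.toBlocks₁₁.toBlocks₂₁ with hcd
  set p := M.toBlocks₂₁.toCols₁ with hp
  have hrel : aᴴ * c + cᴴ * a + pᴴ * p = 0 := by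
    rw [T9_ex M, T9_ct, T9_JO, T9_mul, T9_mul] at hMJ
    have h1 := (T9_inj hMJ).1.1
    simp only [Matrix.mul_zero, Matrix.mul_one, zero_add, add_zero] at h1
    rw [← h1]
    abel
  have hrel0 : star (a 0 0) * c 0 0 + star (c 0 0) * a 0 0 + star (p () 0) * p () 0 = 0 := by
    have h1 := congrFun (congrFun hrel 0) 0
    simpa [Matrix.mul_apply] using h1
  -- the new entry
  obtain ⟨ν, hν⟩ := fld_norm hK (-(k * (c 0 0)⁻¹ + star (k * (c 0 0)⁻¹))) (by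
    rw [star_neg, star_add, star_star, add_comm])
  set π := p () 0 * (c 0 0)⁻¹ with hπ
  set ρ := star (ν - π) with hρ
  set t := k * (c 0 0)⁻¹ - a 0 0 * (c 0 0)⁻¹ + ρ * π with ht
  have hc' : star (c 0 0) ≠ 0 := star_ne_zero.2 hc
  have hA : a 0 0 * (c 0 0)⁻¹ + star (a 0 0 * (c 0 0)⁻¹) + π * star π = 0 := by
    rw [hπ, star_mul', star_mul', star_inv₀]
    field_simp
    linear_combination hrel0
  have hνn : ν * star ν = -(k * (c 0 0)⁻¹ + star (k * (c 0 0)⁻¹)) := by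
    first
      | exact hν
      | (rw [mul_comm]; exact hν)
  have htt : t + star t = -(ρ * star ρ) := by
    have e1 : star t = star (k * (c 0 0)⁻¹) - star (a 0 0 * (c 0 0)⁻¹) + star ρ * star π := by
      rw [ht, star_add, star_sub, star_mul' ρ π]
    have e2 : star ρ = ν - π := by rw [hρ, star_star]
    have e3 : ρ = star ν - star π := by rw [hρ, star_sub]
    rw [e1, e2, ht, e3]
    linear_combination (-1) * hA + hνn
  have hval : a 0 0 + t * c 0 0 - ρ * p () 0 = k := by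
    have h1 : π * c 0 0 = p () 0 := by rw [hπ]; field_simp
    have h2 : t * c 0 0 = k - a 0 0 + ρ * p () 0 := by
      rw [ht, add_mul, sub_mul, mul_assoc ρ, h1]
      field_simp
    rw [h2]
    ring
  obtain ⟨U, V, hU, hVU, b', β', d', r', q', s', hVMU⟩ := uo_conj
    (a := a) (b := M.toBlocks₁₁.toBlocks₁₂) (β := M.toBlocks₁₂.toRows₁) (c := c)
    (d := M.toBlocks₁₁.toBlocks₂₂) (r := M.toBlocks₁₂.toRows₂) (p := p) (q := M.toBlocks₂₁.toCols₂)
    (s := M.toBlocks₂₂) (Matrix.of fun _ _ => t) (Matrix.of fun _ _ => ρ) (by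
      ext i j
      simp [Matrix.mul_apply]
      exact htt)
  rw [← T9_ex M] at hVMU
  have hUV : U * V = 1 := mul_eq_one_comm.1 hVU
  have hPinv : (P * U)⁻¹ = V * P⁻¹ := by
    apply Matrix.inv_eq_left_inv
    rw [Matrix.mul_assoc, ← Matrix.mul_assoc P⁻¹, nonsing_inv_mul _ hPu, Matrix.one_mul, hVU]
  refine ⟨P * U, ?_, ?_⟩
  · rw [conjTranspose_mul, Matrix.mul_assoc, ← Matrix.mul_assoc Pᴴ, hP, ← Matrix.mul_assoc]
    exact hU
  · have e1 : (P * U)⁻¹ * g * (P * U) = V * M * U := by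
      rw [hPinv, hM]
      simp only [Matrix.mul_assoc]
    rw [e1, hVMU]
    unfold T9
    rw [toBlocks_fromBlocks₁₁, toBlocks_fromBlocks₁₁]
    ext i j
    have hi : i = 0 := Subsingleton.elim _ _
    have hj : j = 0 := Subsingleton.elim _ _
    subst hi hj
    simp [Matrix.mul_apply]
    exact hval

/-- the block `b` -/
theorem seed1 (hK : ∃ x : K, star x ≠ x) {b : K} (hb : star b = b) (hb1 : b * b ≠ 1) (hb0 : b ≠ 0) :
    Seed (b • (1 : Matrix (Fin 1) (Fin 1) K)) := by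
  have hdet : (b • (1 : Matrix (Fin 1) (Fin 1) K)).det = b := by simp
  have hH : (b • (1 : Matrix (Fin 1) (Fin 1) K))ᴴ = b • 1 := by
    rw [conjTranspose_smul, conjTranspose_one, hb]
  have hsyl : ∀ Z : Matrix (Fin 1) (Fin 1) K, (b * b) • Z = Z → Z = 0 := by
    intro Z hZ
    have h1 : (b * b - 1) • Z = 0 := by rw [sub_smul, hZ, one_smul, sub_self]
    exact (smul_eq_zero.1 h1).resolve_left (sub_ne_zero.2 hb1)
  refine ⟨?_, ?_, ?_, ?_, ?_⟩
  · rw [hdet]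
    exact isUnit_iff_ne_zero.2 hb0
  · intro Z hZ
    rw [hH] at hZ
    refine hsyl Z ?_
    have e : b • (1 : Matrix (Fin 1) (Fin 1) K) * Z * b • (1 : Matrix (Fin 1) (Fin 1) K) = (b * b) • Z := by
      simp [smul_smul]
    rw [← e, hZ]
  · intro Z hZ
    rw [hH] at hZ
    refine hsyl Z ?_
    have e : b • (1 : Matrix (Fin 1) (Fin 1) K) * Z * b • (1 : Matrix (Fin 1) (Fin 1) K) = (b * b) • Z := by
      simp [smul_smul]
    rw [← e, hZ]
  · intro d hd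
    obtain ⟨c, hc0, hc⟩ := fld_hilb hK d hd
    refine ⟨c • 1, ?_, ?_, ?_⟩
    · simpa using hc0
    · simp [smul_comm b c]
    · simpa using hc
  · refine ⟨1, by simp, Or.inr ?_⟩
    rw [hH]
    simp

/-- Thompson's conjecture for `PSU_3(q)`, `q ≥ 4` -/
theorem main3 [Finite K] (hK : ∃ x : K, star x ≠ x) (hb : ∃ b : K, star b = b ∧ b ≠ 0 ∧ b * b ≠ 1) :
    ∃ x : Matrix (Jx 1) (Jx 1) K, xᴴ * x = 1 ∧ x.det = 1 ∧
      ∀ g : Matrix (Jx 1) (Jx 1) K, gᴴ * g = 1 → g.det = 1 →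
        ∃ (c : K) (s t : Matrix (Jx 1) (Jx 1) K), c * star c = 1 ∧ c ^ (2 * 1 + 1) = 1 ∧
          sᴴ * s = 1 ∧ s.det = 1 ∧ tᴴ * t = 1 ∧ t.det = 1 ∧
          g = c • (s * x * s⁻¹ * (t * x * t⁻¹)) := by
  obtain ⟨b, hbs, hb0, hb1⟩ := hb
  have hB := seed1 hK hbs hb1 hb0
  have hB1 : IsUnit (b • (1 : Matrix (Fin 1) (Fin 1) K) - 1).det := by
    have : (b • (1 : Matrix (Fin 1) (Fin 1) K) - 1).det = b - 1 := by simp
    rw [this, isUnit_iff_ne_zero, sub_ne_zero]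
    rintro rfl
    exact hb1 (one_mul 1)
  have hfrT : finrank K (⊤ : Submodule K (Jx 1 → K)) = 2 * 1 + 1 := by rw [finrank_top]; simp
  obtain ⟨w0, w0', hyp0⟩ := hyp_odd (stdG K (Jx 1)) hK stdG_ND hfrT
  obtain ⟨P0, hP0, -⟩ := frame_odd hK hyp0 1
  obtain ⟨hx1, hx2⟩ := xo_su hP0 hB
  refine ⟨xo P0 (b • 1), hx1, hx2, fun g hg hgd => ?_⟩
  -- the case of compression 1
  have key : ∀ (g : Matrix (Jx 1) (Jx 1) K), gᴴ * g = 1 → g.det = 1 →
      (∃ P : Matrix (Jx 1) (Jx 1) K, Pᴴ * P = JO K 1 ∧ (P⁻¹ * g * P).toBlocks₁₁.toBlocks₁₁ = 1) →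
      ∃ s t : Matrix (Jx 1) (Jx 1) K, sᴴ * s = 1 ∧ s.det = 1 ∧ tᴴ * t = 1 ∧ t.det = 1 ∧
        g = s * xo P0 (b • 1) * s⁻¹ * (t * xo P0 (b • 1) * t⁻¹) := by
    rintro g hg hgd ⟨P, hP, ha⟩
    exact main_block_odd (S1 := 1) (T1 := 1) hK hP0 hP hB hB1 hg hgd (by simp) (by simp) (by
      rw [ha, one_mul, inv_one, one_mul, one_mul, mul_one, Matrix.mul_nonsing_inv _ hB.unit])
  by_cases hs : ∃ c : K, g = c • (1 : Matrix (Jx 1) (Jx 1) K)
  · obtain ⟨c, rfl⟩ := hs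
    have hc : c * star c = 1 := by
      have h1 := congrFun (congrFun hg (Sum.inr ())) (Sum.inr ())
      simpa [conjTranspose_smul] using h1
    have hc3 : c ^ (2 * 1 + 1) = 1 := by
      rw [det_smul, det_one, mul_one] at hgd
      simpa using hgd
    obtain ⟨s, t, hs1, hs2, ht1, ht2, h⟩ := key 1 (by simp) (by simp) ⟨P0, hP0, by
      have hu := OGrpB_P_unit hP0
      rw [Matrix.mul_one, nonsing_inv_mul _ hu]
      ext i j
      have hi : i = 0 := Subsingleton.elim _ _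
      have hj : j = 0 := Subsingleton.elim _ _
      subst hi hj
      rfl⟩
    exact ⟨c, s, t, hc, hc3, hs1, hs2, ht1, ht2, by rw [← h]⟩
  · push Not at hs
    obtain ⟨P, hP, ha⟩ := entry3 hK hg hs 1
    obtain ⟨s, t, hs1, hs2, ht1, ht2, h⟩ := key g hg hgd ⟨P, hP, by rw [ha, one_smul]⟩
    exact ⟨1, s, t, by simp, by simp, hs1, hs2, ht1, ht2, by rw [one_smul]; exact h⟩

end ThU
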