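import Pool.Agent.ThV.Geo

/-! # Change of the opposite Lagrangian (odd dimension, any `n`) -/

set_option linter.unusedSectionVars false

namespace ThU
open Matrix Polynomial Module

variable {K : Type*} [Field K] [StarRing K] {n : ℕ}

/-- matrix with nine blocks -/
def T9 (a b : Matrix (Fin n) (Fin n) K) (β : Matrix (Fin n) Unit K)
    (c d : Matrix (Fin n) (Fin n) K) (r : Matrix (Fin n) Unit K) (p q : Matrix Unit (Fin n) K)
    (s : Matrix Unit Unit K) : Matrix (Jx n) (Jx n) K :=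
  fromBlocks (fromBlocks a b c d) (fromRows β r) (fromCols p q) s

theorem T9_mul (a b : Matrix (Fin n) (Fin n) K) (β : Matrix (Fin n) Unit K)
    (c d : Matrix (Fin n) (Fin n) K) (r : Matrix (Fin n) Unit K) (p q : Matrix Unit (Fin n) K)
    (s : Matrix Unit Unit K) (a' b' : Matrix (Fin n) (Fin n) K) (β' : Matrix (Fin n) Unit K)
    (c' d' : Matrix (Fin n) (Fin n) K) (r' : Matrix (Fin n) Unit K) (p' q' : Matrix Unit (Fin n) K)
    (s' : Matrix Unit Unit K) :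
    T9 a b β c d r p q s * T9 a' b' β' c' d' r' p' q' s' =
      T9 (a * a' + b * c' + β * p') (a * b' + b * d' + β * q') (a * β' + b * r' + β * s')
        (c * a' + d * c' + r * p') (c * b' + d * d' + r * q') (c * β' + d * r' + r * s')
        (p * a' + q * c' + s * p') (p * b' + q * d' + s * q') (p * β' + q * r' + s * s') := by
  ext i j
  rw [Matrix.mul_apply, Fintype.sum_sum_type, Fintype.sum_sum_type]
  rcases i with (i | i) | i <;> rcases j with (j | j) | j <;>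
    simp only [T9, fromBlocks_apply₁₁, fromBlocks_apply₁₂, fromBlocks_apply₂₁,
      fromBlocks_apply₂₂, fromRows_apply_inl, fromRows_apply_inr, fromCols_apply_inl,
      fromCols_apply_inr, Matrix.add_apply, Matrix.mul_apply]

theorem T9_ct (a b : Matrix (Fin n) (Fin n) K) (β : Matrix (Fin n) Unit K)
    (c d : Matrix (Fin n) (Fin n) K) (r : Matrix (Fin n) Unit K) (p q : Matrix Unit (Fin n) K)
    (s : Matrix Unit Unit K) : (T9 a b β c d r p q s)ᴴ =
      T9 aᴴ cᴴ pᴴ bᴴ dᴴ qᴴ βᴴ rᴴ sᴴ := by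
  ext i j
  rw [Matrix.conjTranspose_apply]
  rcases i with (i | i) | i <;> rcases j with (j | j) | j <;>
    simp only [T9, fromBlocks_apply₁₁, fromBlocks_apply₁₂, fromBlocks_apply₂₁,
      fromBlocks_apply₂₂, fromRows_apply_inl, fromRows_apply_inr, fromCols_apply_inl,
      fromCols_apply_inr, Matrix.conjTranspose_apply]

theorem T9_ex (M : Matrix (Jx n) (Jx n) K) :
    M = T9 M.toBlocks₁₁.toBlocks₁₁ M.toBlocks₁₁.toBlocks₁₂ M.toBlocks₁₂.toRows₁
    M.toBlocks₁₁.toBlocks₂₁ M.toBlocks₁₁.toBlocks₂₂ M.toBlocks₁₂.toRows₂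
    M.toBlocks₂₁.toCols₁ M.toBlocks₂₁.toCols₂ M.toBlocks₂₂ := by
  unfold T9
  rw [fromBlocks_toBlocks, fromRows_toRows, fromCols_toCols, fromBlocks_toBlocks]

theorem T9_inj {a b : Matrix (Fin n) (Fin n) K} {β : Matrix (Fin n) Unit K}
    {c d : Matrix (Fin n) (Fin n) K} {r : Matrix (Fin n) Unit K} {p q : Matrix Unit (Fin n) K}
    {s : Matrix Unit Unit K} {a' b' : Matrix (Fin n) (Fin n) K} {β' : Matrix (Fin n) Unit K}
    {c' d' : Matrix (Fin n) (Fin n) K} {r' : Matrix (Fin n) Unit K} {p' q' : Matrix Unit (Fin n) K}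
    {s' : Matrix Unit Unit K}
    (h : T9 a b β c d r p q s = T9 a' b' β' c' d' r' p' q' s') :
    (a = a' ∧ b = b' ∧ β = β') ∧ (c = c' ∧ d = d' ∧ r = r') ∧ p = p' ∧ q = q' ∧ s = s' := by
  unfold T9 at h
  rw [fromBlocks_inj, fromBlocks_inj] at h
  obtain ⟨⟨h1, h2, h3, h4⟩, h5, h6, h7⟩ := h
  obtain ⟨h8, h9⟩ := fromRows_inj h5
  obtain ⟨h10, h11⟩ := fromCols_inj h6
  exact ⟨⟨h1, h2, h8⟩, ⟨h3, h4, h9⟩, h10, h11, h7⟩

theorem T9_JO : JO K n = T9 0 1 0 1 0 0 0 0 1 := by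
  unfold JO JJ T9
  rw [fromBlocks_inj]
  refine ⟨rfl, ?_, ?_, rfl⟩
  · rw [fromRows_zero]
  · rw [fromCols_zero]

theorem T9_one : (1 : Matrix (Jx n) (Jx n) K) = T9 1 0 0 0 1 0 0 0 1 := by
  unfold T9
  rw [fromRows_zero, fromCols_zero, fromBlocks_one, fromBlocks_one]

theorem T9_ex3 {a b : Matrix (Fin n) (Fin n) K} {β : Matrix (Fin n) Unit K}
    {c d : Matrix (Fin n) (Fin n) K} {r : Matrix (Fin n) Unit K} {p q : Matrix Unit (Fin n) K}
    {s : Matrix Unit Unit K} {a' c' : Matrix (Fin n) (Fin n) K} {p' : Matrix Unit (Fin n) K}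
    (h1 : a = a') (h4 : c = c') (h7 : p = p') :
    ∃ b' β' d' r' q' s', T9 a b β c d r p q s = T9 a' b' β' c' d' r' p' q' s' :=
  ⟨b, β, d, r, q, s, by rw [h1, h4, h7]⟩

/-- the change of the frame for `t + tᴴ = -(ρ * ρᴴ)` -/
theorem uo_conj {a b : Matrix (Fin n) (Fin n) K} {β : Matrix (Fin n) Unit K}
    {c d : Matrix (Fin n) (Fin n) K} {r : Matrix (Fin n) Unit K} {p q : Matrix Unit (Fin n) K}
    {s : Matrix Unit Unit K} (t : Matrix (Fin n) (Fin n) K) (ρ : Matrix (Fin n) Unit K)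
    (h : t + tᴴ = -(ρ * ρᴴ)) : ∃ U V : Matrix (Jx n) (Jx n) K, Uᴴ * JO K n * U = JO K n ∧ V * U = 1 ∧
      ∃ b' β' d' r' q' s', V * T9 a b β c d r p q s * U =
        T9 (a + t * c - ρ * p) b' β' c d' r' (ρᴴ * c + p) q' s' := by
  have h1 : tᴴ + t + ρ * ρᴴ = 0 := by rw [add_comm tᴴ t, h]; simp
  refine ⟨T9 1 tᴴ ρ 0 1 0 0 (-ρᴴ) 1, T9 1 t (-ρ) 0 1 0 0 ρᴴ 1, ?_, ?_, ?_⟩
  · rw [T9_ct, T9_JO, T9_mul, T9_mul]
    simp [h1]
  · rw [T9_mul, T9_one]
    simp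
    congr 1
  · rw [T9_mul, T9_mul]
    exact T9_ex3 (by simp [sub_eq_add_neg]) (by simp) (by simp)

end ThU
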